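import Mathlib
import Pool.Agent.HLow.Targets

set_option autoImplicit false
set_option linter.unusedSectionVars false

namespace Pool.Agent.HSh

open Finset Pool.Agent.HLow

/-! ### Analytic part -/

section analytic

variable {V : Type} [Fintype V] [DecidableEq V]

/-- the matrix `A + diag D` -/
def MM (A : V → V → ℝ) (D : V → ℝ) (u w : V) : ℝ := A u w + if u = w then D u else 0

/-- the rescaled matrix `s (A + diag D) s` -/
def NN (A : V → V → ℝ) (D s : V → ℝ) (u w : V) : ℝ := s u * s w * MM A D u w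

/-- spectral data: `s ^ 2 * (D ^ 2 - D) = 1` makes the entrywise product of `MM` and `NN` equal
to `NN + 1`; `v i` is the eigenvector of `NN` for the eigenvalue `lam i > 0` -/
structure SD (A : V → V → ℝ) (D s lam : V → ℝ) (v : V → V → ℝ) : Prop where
  adj : Adj A
  two : ∀ u, 2 ≤ D u
  spos : ∀ u, 0 < s u
  sd : ∀ u, s u ^ 2 * (D u ^ 2 - D u) = 1
  row : ∀ i j, ∑ u, v i u * v j u = if i = j then 1 else 0
  col : ∀ u w, ∑ i, v i u * v i w = if u = w then 1 else 0
  dec : ∀ u w, NN A D s u w = ∑ i, lam i * (v i u * v i w)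
  pos : ∀ i, 0 < lam i

/-- the matrix of the multiplication by `g` in the basis `v` -/
def gm (v : V → V → ℝ) (g : V → ℝ) (i j : V) : ℝ := ∑ u, g u * (v i u * v j u)

/-- the symmetric three-tensor -/
noncomputable def tt (s : V → ℝ) (v : V → V → ℝ) (i j k : V) : ℝ :=
  ∑ u, (s u)⁻¹ * (v i u * v j u * v k u)

lemma MM_symm {A : V → V → ℝ} (h : Adj A) (D : V → ℝ) (u w : V) : MM A D u w = MM A D w u := by
  unfold MM
  rw [h.sym u w]
  by_cases e : u = w
  · subst e; rfl
  · rw [if_neg e, if_neg (Ne.symm e)]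

lemma NN_symm {A : V → V → ℝ} (h : Adj A) (D s : V → ℝ) (u w : V) :
    NN A D s u w = NN A D s w u := by
  unfold NN; rw [MM_symm h]; ring

/-- key identity -/
lemma SD.MN {A : V → V → ℝ} {D s lam : V → ℝ} {v : V → V → ℝ} (h : SD A D s lam v) (u w : V) :
    MM A D u w * NN A D s u w = NN A D s u w + if u = w then 1 else 0 := by
  unfold NN MM
  by_cases e : u = w
  · subst e
    rw [if_pos rfl, if_pos rfl, h.adj.dg u]
    have := h.sd u
    nlinarith
  · rw [if_neg e, if_neg e]
    rcases h.adj.zo u w with h0 | h0 <;> rw [h0] <;> ring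

lemma SD.diag {A : V → V → ℝ} {D s lam : V → ℝ} {v : V → V → ℝ} (h : SD A D s lam v) (u : V) :
    NN A D s u u = 1 / (D u - 1) := by
  unfold NN MM
  rw [if_pos rfl, h.adj.dg u]
  have h1 := h.sd u
  have h2 := h.two u
  rw [eq_div_iff (by linarith)]
  nlinarith

lemma gm_symm (v : V → V → ℝ) (g : V → ℝ) (i j : V) : gm v g i j = gm v g j i := by
  unfold gm; exact sum_congr rfl (fun u _ => by ring)

lemma tt_swap (s : V → ℝ) (v : V → V → ℝ) (i j k : V) : tt s v i j k = tt s v j i k := by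
  unfold tt; exact sum_congr rfl (fun u _ => by ring)

lemma tt_swap' (s : V → ℝ) (v : V → V → ℝ) (i j k : V) : tt s v i j k = tt s v i k j := by
  unfold tt; exact sum_congr rfl (fun u _ => by ring)

lemma SD.eig {A : V → V → ℝ} {D s lam : V → ℝ} {v : V → V → ℝ} (h : SD A D s lam v) (i u : V) :
    ∑ w, NN A D s u w * v i w = lam i * v i u := by
  have h1 : ∀ w, NN A D s u w * v i w = ∑ j, lam j * v j u * (v j w * v i w) := by
    intro w
    rw [h.dec, sum_mul]
    exact sum_congr rfl (fun j _ => by ring)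
  rw [sum_congr rfl (fun w _ => h1 w), sum_comm]
  have h2 : ∀ j, ∑ w, lam j * v j u * (v j w * v i w) = if j = i then lam j * v j u else 0 := by
    intro j
    rw [← mul_sum, h.row j i]
    split_ifs <;> ring
  rw [sum_congr rfl (fun j _ => h2 j)]
  simp

/-- expansion of `g * v i` in the basis -/
lemma SD.gexp {A : V → V → ℝ} {D s lam : V → ℝ} {v : V → V → ℝ} (h : SD A D s lam v)
    (g : V → ℝ) (i w : V) : ∑ q, gm v g i q * v q w = g w * v i w := by
  unfold gm
  have h1 : ∀ q, (∑ u, g u * (v i u * v q u)) * v q w = ∑ u, g u * v i u * (v q u * v q w) := by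
    intro q
    rw [sum_mul]
    exact sum_congr rfl (fun u _ => by ring)
  rw [sum_congr rfl (fun q _ => h1 q), sum_comm]
  have h2 : ∀ u, ∑ q, g u * v i u * (v q u * v q w) = if u = w then g u * v i u else 0 := by
    intro u
    rw [← mul_sum, h.col u w]
    split_ifs <;> ring
  rw [sum_congr rfl (fun u _ => h2 u)]
  simp

/-- Parseval for functions -/
lemma SD.pars {A : V → V → ℝ} {D s lam : V → ℝ} {v : V → V → ℝ} (h : SD A D s lam v)
    (c : V → ℝ) : ∑ u, (∑ i, c i * v i u) ^ 2 = ∑ i, c i ^ 2 := by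
  have h1 : ∀ u, (∑ i, c i * v i u) ^ 2 = ∑ i, ∑ j, c i * c j * (v i u * v j u) := by
    intro u
    rw [sq, sum_mul_sum]
    exact sum_congr rfl (fun i _ => sum_congr rfl (fun j _ => by ring))
  rw [sum_congr rfl (fun u _ => h1 u), sum_comm]
  apply sum_congr rfl
  intro i _
  rw [sum_comm]
  have h2 : ∀ j, ∑ u, c i * c j * (v i u * v j u) = if i = j then c i * c j else 0 := by
    intro j
    rw [← mul_sum, h.row i j]
    split_ifs <;> ring
  rw [sum_congr rfl (fun j _ => h2 j)]
  simp [sq]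

end analytic

/-! ### Digraphs with degree time -/

section time

variable {V : Type} [Fintype V] [DecidableEq V]

/-- the degree as a natural number -/
noncomputable def dn (a : V → V → ℝ) (u : V) : ℕ := (nb (sy a) u).card

/-- degree time: the sum of the degrees of the preceding vertices -/
noncomputable def th (a : V → V → ℝ) (pos : V → ℕ) (u : V) : ℕ :=
  ∑ w ∈ univ.filter (fun w => pos w < pos u), dn a w

/-- length of an arc -/
noncomputable def ln (a : V → V → ℝ) (pos : V → ℕ) (z w : V) : ℕ :=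
  th a pos w + dn a w - th a pos z

/-- number of the arcs of length at least `x` -/
noncomputable def Ta (a : V → V → ℝ) (pos : V → ℕ) (x : ℕ) : ℝ :=
  ∑ z, ∑ w, if x ≤ ln a pos z w then a z w else 0

/-- number of the short arcs (length at most `2 ^ i / 8`) from `z` -/
noncomputable def Fp (a : V → V → ℝ) (pos : V → ℕ) (i : ℕ) (z : V) : ℝ :=
  ∑ x, if 8 * ln a pos z x ≤ 2 ^ i then a z x else 0

/-- number of the short arcs (length at most `2 ^ i / 8`) to `w` -/
noncomputable def Fm (a : V → V → ℝ) (pos : V → ℕ) (i : ℕ) (w : V) : ℝ :=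
  ∑ x, if 8 * ln a pos x w ≤ 2 ^ i then a x w else 0

/-- number of the arcs of length at least `2 ^ j` at `u` -/
noncomputable def Fa (a : V → V → ℝ) (pos : V → ℕ) (j : ℕ) (u : V) : ℝ :=
  (∑ x, if 2 ^ j ≤ ln a pos u x then a u x else 0) + ∑ x, if 2 ^ j ≤ ln a pos x u then a x u else 0

/-- the data of the digraph part -/
structure Dat (a : V → V → ℝ) (pos : V → ℕ) (D0 : V → ℝ) (G m : ℝ) : Prop where
  dg : Dg a pos
  iso : ∀ u, 1 ≤ dn a u
  m1 : 1 ≤ m
  sum : ∑ u, dp a u = m
  gpos : 0 < G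
  card : (Fintype.card V : ℝ) ≤ 3 * G
  cut : ∀ p : ℕ, ∑ u, ∑ v, (if pos u ≤ p ∧ p < pos v then a u v else 0) ≤ Real.sqrt (G * m)
  len2 : ∑ u, (dn a u : ℝ) ^ 2 ≤ 24 * G * Real.sqrt (G * m)
  imb : ∀ Δ : ℝ, 0 < Δ → ∑ u ∈ univ.filter (fun u => (dn a u : ℝ) ≤ Δ), (dp a u - dm a u) ^ 2
    ≤ 2 * Δ * G
  d0 : ∀ u, 0 ≤ D0 u
  dsum : ∑ u, D0 u ≤ (8 * Real.log m + 2) * G + 8
  psd : ∀ x : V → ℝ, 0 ≤ ∑ u, D0 u * x u ^ 2 + ∑ u, ∑ v, sy a u v * (x u * x v)

lemma dn_cast {a : V → V → ℝ} {pos : V → ℕ} (h : Dg a pos) (u : V) :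
    (dn a u : ℝ) = dp a u + dm a u := by
  unfold dn; rw [← h.adj.deg u, sy_deg]

lemma th_add {a : V → V → ℝ} {pos : V → ℕ} {u w : V} (huw : pos u < pos w) :
    th a pos u + dn a u ≤ th a pos w := by
  unfold th
  have hu : u ∉ univ.filter (fun x => pos x < pos u) := by simp
  rw [add_comm, ← sum_insert hu]
  apply sum_le_sum_of_subset
  intro x hx
  rw [mem_insert] at hx
  rcases hx with rfl | hx
  · simp [huw]
  · rw [mem_filter] at hx ⊢
    exact ⟨mem_univ _, lt_trans hx.2 huw⟩

/-- lengths of arcs, without subtraction -/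
lemma ln_add {a : V → V → ℝ} {pos : V → ℕ} {u w : V} (huw : pos u < pos w) :
    th a pos u + ln a pos u w = th a pos w + dn a w := by
  unfold ln
  have := th_add (a := a) huw
  omega

lemma arc_pos {a : V → V → ℝ} {pos : V → ℕ} (h : Dg a pos) {u w : V} (huw : a u w ≠ 0) :
    pos u < pos w := h.lt u w huw

/-- the intervals of degree time of different vertices are disjoint: mass of an interval -/
lemma mass {a : V → V → ℝ} {pos : V → ℕ} (h : Function.Injective pos) (p q : ℕ) :
    ∑ u ∈ univ.filter (fun u => p ≤ th a pos u ∧ th a pos u + dn a u ≤ q), dn a u ≤ q - p := by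
  classical
  set S := univ.filter (fun u => p ≤ th a pos u ∧ th a pos u + dn a u ≤ q) with hS
  have hdis : ∀ u ∈ S, ∀ w ∈ S, u ≠ w →
      Disjoint (Ico (th a pos u) (th a pos u + dn a u)) (Ico (th a pos w) (th a pos w + dn a w)) := by
    intro u _ w _ hne
    rw [Finset.disjoint_left]
    intro x hx hx'
    rw [mem_Ico] at hx hx'
    rcases lt_trichotomy (pos u) (pos w) with e | e | e
    · have := th_add (a := a) e; omega
    · exact hne (h e)
    · have := th_add (a := a) e; omega
  have h1 : ∑ u ∈ S, dn a u = (S.biUnion (fun u => Ico (th a pos u) (th a pos u + dn a u))).card := by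
    rw [card_biUnion hdis]
    exact sum_congr rfl (fun u _ => by simp)
  rw [h1]
  have h2 : S.biUnion (fun u => Ico (th a pos u) (th a pos u + dn a u)) ⊆ Ico p q := by
    intro x hx
    rw [mem_biUnion] at hx
    obtain ⟨u, hu, hx⟩ := hx
    rw [hS, mem_filter] at hu
    rw [mem_Ico] at hx ⊢
    omega
  calc _ ≤ (Ico p q).card := card_le_card h2
    _ = q - p := by simp

lemma Dat.sumdn {a : V → V → ℝ} {pos : V → ℕ} {D0 : V → ℝ} {G m : ℝ} (h : Dat a pos D0 G m) :
    ∑ u, (dn a u : ℝ) = 2 * m := by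
  have h1 : ∑ u, dm a u = m := by
    rw [← h.sum]
    unfold dm dp
    rw [sum_comm]
  rw [sum_congr rfl (fun u _ => dn_cast h.dg u), sum_add_distrib, h.sum, h1]; ring

lemma sy_symm (a : V → V → ℝ) (u w : V) : sy a u w = sy a w u := by unfold sy; ring

end time

end Pool.Agent.HSh
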