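import Mathlib
import Pool.Agent.HSh.Defs

set_option autoImplicit false

namespace Pool.Agent.HSh

open Finset Pool.Agent.HLow

/-! ### Part I: the commutator inequality -/

/-- existence of the spectral data -/
def T_SDE : Prop := ∀ (V : Type) [Fintype V] [DecidableEq V] (A : V → V → ℝ) (D : V → ℝ),
  Adj A → (∀ u, 2 ≤ D u) →
  (∀ x : V → ℝ, x ≠ 0 → 0 < ∑ u, D u * x u ^ 2 + ∑ u, ∑ v, A u v * (x u * x v)) →
  ∃ (s lam : V → ℝ) (v : V → V → ℝ), SD A D s lam v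

/-- contraction of two tensors in one index -/
def T_KSUM : Prop := ∀ (V : Type) [Fintype V] [DecidableEq V] (A : V → V → ℝ)
  (D s lam : V → ℝ) (v : V → V → ℝ), SD A D s lam v → ∀ i p q j : V,
  ∑ k, lam k * (tt s v i p k * tt s v q j k)
    = ∑ u, ∑ w, MM A D u w * ((v i u * v p u) * (v q w * v j w))

/-- contraction in two indices -/
def T_ORT : Prop := ∀ (V : Type) [Fintype V] [DecidableEq V] (A : V → V → ℝ)
  (D s lam : V → ℝ) (v : V → V → ℝ), SD A D s lam v → ∀ i i' : V,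
  ∑ j, ∑ k, lam j * lam k * (tt s v i j k * tt s v i' j k) = if i = i' then lam i + 1 else 0

/-- norm of a matrix applied to one index -/
def T_NRM : Prop := ∀ (V : Type) [Fintype V] [DecidableEq V] (A : V → V → ℝ)
  (D s lam : V → ℝ) (v : V → V → ℝ), SD A D s lam v → ∀ Z : V → V → ℝ,
  ∑ i, ∑ j, ∑ k, lam i * lam j * lam k * (∑ p, Z i p * tt s v p j k) ^ 2
    = ∑ i, ∑ p, lam i * (lam p + 1) * Z i p ^ 2

/-- the mixed scalar product -/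
def T_CRS : Prop := ∀ (V : Type) [Fintype V] [DecidableEq V] (A : V → V → ℝ)
  (D s lam : V → ℝ) (v : V → V → ℝ), SD A D s lam v → ∀ (g : V → ℝ) (S W P : V → V → ℝ),
  (∀ j p, lam j * S j p = P j p) → (∀ j p, P j p = P p j) →
  (∀ i q, lam i * W i q + lam q * W q i = (lam i + lam q) * gm v g i q) →
  ∑ i, ∑ j, ∑ k, lam i * lam j * lam k
      * ((∑ p, S j p * tt s v i p k) * (∑ q, W i q * tt s v q j k))
    = ∑ i, ∑ j, P i j * ((lam i + lam j) / 2 + 1) * gm v g i j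

/-- traces -/
def T_TRC : Prop := ∀ (V : Type) [Fintype V] [DecidableEq V] (A : V → V → ℝ)
  (D s lam : V → ℝ) (v : V → V → ℝ), SD A D s lam v →
  (∑ i, lam i = ∑ u, NN A D s u u) ∧ (∑ i, lam i ^ 2 = ∑ u, ∑ w, NN A D s u w ^ 2) ∧
  (∀ g : V → ℝ, ∑ i, ∑ j, gm v g i j ^ 2 * (lam i + lam j) = 2 * ∑ u, g u ^ 2 * NN A D s u u)

/-- norm of the commutator -/
def T_CMM : Prop := ∀ (V : Type) [Fintype V] [DecidableEq V] (A : V → V → ℝ)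
  (D s lam : V → ℝ) (v : V → V → ℝ), SD A D s lam v → ∀ g : V → ℝ,
  ∑ i, ∑ j, gm v g i j ^ 2 * (lam i - lam j) ^ 2
    = ∑ u, ∑ w, NN A D s u w ^ 2 * (g u - g w) ^ 2

/-- no broadcasting: the commutator is small for every `g` -/
def T_T1 : Prop := ∀ (V : Type) [Fintype V] [DecidableEq V] (A : V → V → ℝ)
  (D s lam : V → ℝ) (v : V → V → ℝ), SD A D s lam v → ∀ g : V → ℝ,
  ∑ i, ∑ j, gm v g i j ^ 2
      * ((lam i - lam j) ^ 2 * (lam i * lam j) / (lam i + lam j) ^ 2)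
    ≤ 18 * ∑ u, g u ^ 2 * NN A D s u u

/-- the Schur product bound -/
def T_T2 : Prop := ∀ (V : Type) [Fintype V] [DecidableEq V] (A : V → V → ℝ)
  (D s lam : V → ℝ) (v : V → V → ℝ), SD A D s lam v → ∀ (g : V → ℝ) (c2 : ℝ),
  (∀ φ : V → ℝ, (∑ u, φ u * g u) ^ 2 ≤ c2 * ∑ u, ∑ w, MM A D u w * (φ u * φ w)) →
  ∀ i, lam i * ∑ j, gm v g i j ^ 2 / (lam j + 1) ≤ c2

/-- the commutator inequality in terms of `NN` -/
def T_ANZ : Prop := ∀ (V : Type) [Fintype V] [DecidableEq V] (A : V → V → ℝ)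
  (D s lam : V → ℝ) (v : V → V → ℝ), SD A D s lam v → ∀ (g : V → ℝ) (c2 ν : ℝ), 0 < ν →
  (∀ φ : V → ℝ, (∑ u, φ u * g u) ^ 2 ≤ c2 * ∑ u, ∑ w, MM A D u w * (φ u * φ w)) →
  ∑ u, ∑ w, NN A D s u w ^ 2 * (g u - g w) ^ 2
    ≤ 72 / ν * ∑ u, g u ^ 2 * NN A D s u u
      + 2 * c2 * (ν * ∑ u, ∑ w, NN A D s u w ^ 2 + ∑ u, NN A D s u u)

/-- the commutator inequality -/
def T_AN : Prop := ∀ (V : Type) [Fintype V] [DecidableEq V] (A : V → V → ℝ) (D g : V → ℝ)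
  (c2 ν : ℝ), Adj A → (∀ u, 2 ≤ D u) →
  (∀ x : V → ℝ, x ≠ 0 → 0 < ∑ u, D u * x u ^ 2 + ∑ u, ∑ v, A u v * (x u * x v)) → 0 < ν →
  (∀ φ : V → ℝ, (∑ u, φ u * g u) ^ 2
    ≤ c2 * (∑ u, D u * φ u ^ 2 + ∑ u, ∑ v, A u v * (φ u * φ v))) →
  ∑ u, ∑ w, A u w / (D u ^ 2 * D w ^ 2) * (g u - g w) ^ 2
    ≤ 144 / ν * ∑ u, g u ^ 2 / D u
      + 8 * c2 * ν * (∑ u, ∑ w, A u w / (D u ^ 2 * D w ^ 2) + ∑ u, 1 / D u ^ 2)
      + 4 * c2 * ∑ u, 1 / D u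

/-- the same for an induced subgraph -/
def T_ANU : Prop := ∀ (V : Type) [Fintype V] [DecidableEq V] (A : V → V → ℝ) (D g : V → ℝ)
  (c2 ν : ℝ) (U : Finset V), Adj A → (∀ u ∈ U, 2 ≤ D u) →
  (∀ x : V → ℝ, (∀ u, u ∉ U → x u = 0) → x ≠ 0 →
    0 < ∑ u, D u * x u ^ 2 + ∑ u, ∑ v, A u v * (x u * x v)) → 0 < ν →
  (∀ φ : V → ℝ, (∀ u, u ∉ U → φ u = 0) → (∑ u, φ u * g u) ^ 2
    ≤ c2 * (∑ u, D u * φ u ^ 2 + ∑ u, ∑ v, A u v * (φ u * φ v))) →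
  ∑ u ∈ U, ∑ w ∈ U, A u w / (D u ^ 2 * D w ^ 2) * (g u - g w) ^ 2
    ≤ 144 / ν * ∑ u ∈ U, g u ^ 2 / D u
      + 8 * c2 * ν * (∑ u ∈ U, ∑ w ∈ U, A u w / (D u ^ 2 * D w ^ 2) + ∑ u ∈ U, 1 / D u ^ 2)
      + 4 * c2 * ∑ u ∈ U, 1 / D u

/-! ### Part II: digraphs -/

/-- bound of the sum of the diagonal -/
noncomputable def R0 (G m : ℝ) : ℝ := (8 * Real.log m + 2) * G + 8

noncomputable def ka (β G m : ℝ) : ℝ := 16 * R0 G m / (β * m)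

noncomputable def de (β : ℝ) : ℝ := β ^ 2 / 10 ^ 7

/-- the smallest degree of a good vertex -/
noncomputable def dlo (β G m : ℝ) : ℝ := β * m / (48 * G)

/-- the largest degree of a good vertex -/
noncomputable def dhi (β G m : ℝ) : ℝ := 384 * G * Real.sqrt (G * m) / (β * m)

/-- good vertices -/
noncomputable def Gd {V : Type} [Fintype V] [DecidableEq V] (a : V → V → ℝ) (pos : V → ℕ)
    (D0 : V → ℝ) (β G m : ℝ) (h : ℕ) : Finset V :=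
  univ.filter (fun u => D0 u ≤ ka β G m * dn a u ∧ dlo β G m ≤ dn a u ∧ dn a u ≤ dhi β G m ∧
    2 * |dp a u - dm a u| ≤ de β * dn a u ∧ 2 * Fa a pos (h + 1) u ≤ de β * dn a u)

open Classical in
/-- good arcs of length about `2 ^ i` -/
noncomputable def GA {V : Type} [Fintype V] [DecidableEq V] (a : V → V → ℝ) (pos : V → ℕ)
    (D0 : V → ℝ) (β G m : ℝ) (i h : ℕ) : Finset (V × V) :=
  univ.filter (fun e => a e.1 e.2 ≠ 0 ∧ 2 ^ i ≤ ln a pos e.1 e.2 ∧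
    ln a pos e.1 e.2 < 2 ^ (i + 1) ∧ e.1 ∈ Gd a pos D0 β G m h ∧ e.2 ∈ Gd a pos D0 β G m h ∧
    16 * dn a e.1 ≤ 2 ^ i ∧ 16 * dn a e.2 ≤ 2 ^ i ∧
    de β * dn a e.1 ≤ Fp a pos i e.1 ∧ de β * dn a e.2 ≤ Fm a pos i e.2)

/-- the parameters are in the allowed range -/
structure Par (β G m : ℝ) (K i h : ℕ) : Prop where
  b0 : 0 < β
  b1 : β ≤ 1
  m2 : 2 ≤ m
  K1 : 1 ≤ K
  ih : i ≤ h
  kd : ka β G m ≤ de β
  im : 256 * (K : ℝ) * G ≤ de β ^ 2 * (β * m)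
  kk : 24 * ka β G m ^ 3 * Real.sqrt (G * m) ≤ 1

/-- windows of degree time -/
def win {V : Type} [Fintype V] [DecidableEq V] (a : V → V → ℝ) (pos : V → ℕ) (h t : ℕ)
    (u : V) : Prop :=
  t ≤ th a pos u + 2 ^ (h + 2) ∧ th a pos u + dn a u ≤ t + 2 ^ (h + 2)

open Classical in
/-- the signs: `1` before `t` and `-1` after `t`, in the window -/
noncomputable def ep {V : Type} [Fintype V] [DecidableEq V] (a : V → V → ℝ) (pos : V → ℕ)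
    (h t : ℕ) (u : V) : ℝ :=
  if win a pos h t u then (if th a pos u < t then 1 else -1) else 0

/-- the function `g = (A + diag D0) ep` -/
noncomputable def gt {V : Type} [Fintype V] [DecidableEq V] (a : V → V → ℝ) (pos : V → ℕ)
    (D0 : V → ℝ) (h t : ℕ) (u : V) : ℝ :=
  ∑ x, sy a u x * ep a pos h t x + D0 u * ep a pos h t u

/-- the value of the quadratic form at `ep` -/
noncomputable def ct {V : Type} [Fintype V] [DecidableEq V] (a : V → V → ℝ) (pos : V → ℕ)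
    (D0 : V → ℝ) (h t : ℕ) : ℝ :=
  ∑ u, D0 u * ep a pos h t u ^ 2
    + ∑ u, ∑ v, sy a u v * (ep a pos h t u * ep a pos h t v)

open Classical in
/-- good vertices of degree at least `2 ^ k` in the window -/
noncomputable def Uk {V : Type} [Fintype V] [DecidableEq V] (a : V → V → ℝ) (pos : V → ℕ)
    (D0 : V → ℝ) (β G m : ℝ) (h k t : ℕ) : Finset V :=
  (Gd a pos D0 β G m h).filter (fun u => 2 ^ k ≤ dn a u ∧ win a pos h t u)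

/-- the commutator sum of the window -/
noncomputable def Lt {V : Type} [Fintype V] [DecidableEq V] (a : V → V → ℝ) (pos : V → ℕ)
    (D0 : V → ℝ) (β G m : ℝ) (h k t : ℕ) : ℝ :=
  ∑ u ∈ Uk a pos D0 β G m h k t, ∑ w ∈ Uk a pos D0 β G m h k t,
    sy a u w / ((dn a u : ℝ) ^ 2 * (dn a w : ℝ) ^ 2) * (gt a pos D0 h t u - gt a pos D0 h t w) ^ 2

/-- the data of the digraph part exist -/
def T_DAT : Prop := ∀ (V : Type) [Fintype V] [DecidableEq V] (a : V → V → ℝ) (G m : ℝ),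
  Dicut.WData a G → (∀ u v, a u v = 0 ∨ a u v = 1) → ∑ u, dp a u = m → 1 ≤ m →
  m ^ 3 ≤ 576 * G ^ 5 ∧
  ∃ (W : Type) (_ : Fintype W) (_ : DecidableEq W) (b : W → W → ℝ) (pos : W → ℕ) (D0 : W → ℝ),
    Dat b pos D0 G m

/-- the sum of the lengths -/
def T_LSUM : Prop := ∀ (V : Type) [Fintype V] [DecidableEq V] (a : V → V → ℝ) (pos : V → ℕ)
  (D0 : V → ℝ) (G m : ℝ), Dat a pos D0 G m →
  ∑ z, ∑ w, a z w * (ln a pos z w : ℝ) ≤ 4 * m * Real.sqrt (G * m)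

/-- few arcs at unbalanced vertices -/
def T_IMBD : Prop := ∀ (V : Type) [Fintype V] [DecidableEq V] (a : V → V → ℝ) (pos : V → ℕ)
  (D0 : V → ℝ) (G m δ : ℝ) (K : ℕ), Dat a pos D0 G m → (∀ u, dn a u < 2 ^ K) → 0 < δ →
  ∑ u ∈ univ.filter (fun u => δ * dn a u < 2 * |dp a u - dm a u|), (dn a u : ℝ)
    ≤ 16 * K * G / δ ^ 2

/-- few arcs at bad vertices -/
def T_GOOD : Prop := ∀ (V : Type) [Fintype V] [DecidableEq V] (a : V → V → ℝ) (pos : V → ℕ)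
  (D0 : V → ℝ) (β G m : ℝ) (K i h : ℕ), Dat a pos D0 G m → Par β G m K i h →
  (∀ u, dn a u < 2 ^ K) → Ta a pos (2 ^ (h + 1)) ≤ de β * (β * m) / 64 →
  ∑ u ∈ univ.filter (fun u => u ∉ Gd a pos D0 β G m h), (dn a u : ℝ) ≤ 5 / 16 * (β * m)

/-- few short arcs at vertices of big degree -/
def T_BIG : Prop := ∀ (V : Type) [Fintype V] [DecidableEq V] (a : V → V → ℝ) (pos : V → ℕ)
  (D0 : V → ℝ) (β G m : ℝ) (K i h : ℕ), Dat a pos D0 G m → Par β G m K i h →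
  ∑ z, ∑ w, (if ln a pos z w < 2 ^ (i + 1) ∧ dlo β G m ≤ dn a z ∧ dlo β G m ≤ dn a w ∧
    (2 ^ i < 16 * dn a z ∨ 2 ^ i < 16 * dn a w) then a z w else 0) ≤ 1 / 16 * (β * m)

/-- blocks: vertices with few neighbours in their block have few neighbours in a block at
distance `r` -/
def T_SHORT : Prop := ∀ (V : Type) [Fintype V] [DecidableEq V] (A : V → V → ℝ)
  (D0 d : V → ℝ) (bl : V → ℤ) (X Y : Finset V) (δ M : ℝ),
  (∀ u v, 0 ≤ A u v) → (∀ u v, A u v = A v u) → (∀ u, 0 ≤ D0 u) →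
  (∀ x : V → ℝ, 0 ≤ ∑ u, D0 u * x u ^ 2 + ∑ u, ∑ v, A u v * (x u * x v)) →
  0 ≤ δ → (∀ u, ∑ v, A u v ≤ d u) → (∀ u ∈ X, D0 u ≤ δ * d u) → (∀ u ∈ Y, D0 u ≤ d u) →
  (∀ j, ∑ u ∈ X.filter (fun u => bl u = j), ∑ v ∈ X.filter (fun u => bl u = j), A u v
    ≤ 2 * δ * ∑ u ∈ X.filter (fun u => bl u = j), d u) →
  ∑ u, d u ≤ M → ∀ (r : ℤ) (s : ℝ), 0 < s →
  2 * ∑ u ∈ X, ∑ v ∈ Y, (if bl v = bl u + r then A u v else 0) ≤ (3 * δ * s + 2 / s) * M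

/-- few arcs from vertices with few short out-arcs -/
def T_SHP : Prop := ∀ (V : Type) [Fintype V] [DecidableEq V] (a : V → V → ℝ) (pos : V → ℕ)
  (D0 : V → ℝ) (β G m : ℝ) (K i h : ℕ), Dat a pos D0 G m → Par β G m K i h →
  ∑ z, ∑ w, (if ln a pos z w < 2 ^ (i + 1) ∧ 16 * dn a z ≤ 2 ^ i ∧ 16 * dn a w ≤ 2 ^ i ∧
    D0 z ≤ ka β G m * dn a z ∧ D0 w ≤ ka β G m * dn a w ∧ Fp a pos i z < de β * dn a z
    then a z w else 0) ≤ 1 / 16 * (β * m)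

/-- few arcs to vertices with few short in-arcs -/
def T_SHM : Prop := ∀ (V : Type) [Fintype V] [DecidableEq V] (a : V → V → ℝ) (pos : V → ℕ)
  (D0 : V → ℝ) (β G m : ℝ) (K i h : ℕ), Dat a pos D0 G m → Par β G m K i h →
  ∑ z, ∑ w, (if ln a pos z w < 2 ^ (i + 1) ∧ 16 * dn a z ≤ 2 ^ i ∧ 16 * dn a w ≤ 2 ^ i ∧
    D0 z ≤ ka β G m * dn a z ∧ D0 w ≤ ka β G m * dn a w ∧ Fm a pos i w < de β * dn a w
    then a z w else 0) ≤ 1 / 16 * (β * m)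

/-- many good arcs -/
def T_ARC : Prop := ∀ (V : Type) [Fintype V] [DecidableEq V] (a : V → V → ℝ) (pos : V → ℕ)
  (D0 : V → ℝ) (β G m : ℝ) (K i h : ℕ), Dat a pos D0 G m → Par β G m K i h →
  (∀ u, dn a u < 2 ^ K) → Ta a pos (2 ^ (h + 1)) ≤ de β * (β * m) / 64 →
  β * m ≤ Ta a pos (2 ^ i) - Ta a pos (2 ^ (i + 1)) →
  1 / 2 * (β * m) ≤ ((GA a pos D0 β G m i h).card : ℝ)

/-- the function `g` has different values at the ends of a good arc around `t` -/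
def T_DIFF : Prop := ∀ (V : Type) [Fintype V] [DecidableEq V] (a : V → V → ℝ) (pos : V → ℕ)
  (D0 : V → ℝ) (β G m : ℝ) (K i h t : ℕ) (z w : V), Dat a pos D0 G m → Par β G m K i h →
  (z, w) ∈ GA a pos D0 β G m i h → 8 * th a pos z + 2 ^ i ≤ 8 * t →
  8 * t + 2 ^ i ≤ 8 * (th a pos w + dn a w) →
  win a pos h t z ∧ win a pos h t w ∧
  de β * (dn a z + dn a w) ≤ gt a pos D0 h t z - gt a pos D0 h t w

/-- Cauchy-Schwarz for a nonnegative quadratic form -/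
def T_CSF : Prop := ∀ (V : Type) [Fintype V] [DecidableEq V] (A : V → V → ℝ) (D : V → ℝ),
  (∀ u v, A u v = A v u) →
  (∀ x : V → ℝ, 0 ≤ ∑ u, D u * x u ^ 2 + ∑ u, ∑ v, A u v * (x u * x v)) →
  ∀ φ y : V → ℝ, (∑ u, φ u * (∑ x, A u x * y x + D u * y u)) ^ 2
    ≤ (∑ u, D u * y u ^ 2 + ∑ u, ∑ v, A u v * (y u * y v))
      * (∑ u, D u * φ u ^ 2 + ∑ u, ∑ v, A u v * (φ u * φ v))

/-- the sum of `ct` over all times -/
def T_CT : Prop := ∀ (V : Type) [Fintype V] [DecidableEq V] (a : V → V → ℝ) (pos : V → ℕ)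
  (D0 : V → ℝ) (β G m : ℝ) (K i h N : ℕ), Dat a pos D0 G m → Par β G m K i h →
  ∑ t ∈ range N, ct a pos D0 h t ≤ 6 * m * 2 ^ (h + 2)

/-- upper bound of the commutator sum of one window -/
def T_PT : Prop := ∀ (V : Type) [Fintype V] [DecidableEq V] (a : V → V → ℝ) (pos : V → ℕ)
  (D0 : V → ℝ) (β G m ν : ℝ) (K i h k t : ℕ), Dat a pos D0 G m → Par β G m K i h → 0 < ν →
  Lt a pos D0 β G m h k t ≤ 9216 * ka β G m ^ 3 * 2 ^ (h + 2) / ν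
    + ct a pos D0 h t * (2 ^ (h + 2)
      * (80 * ν / (2 ^ k) ^ 4 + 64 * ka β G m ^ 3 / (2 ^ k) ^ 2))

open Classical in
/-- lower bound of the sum of the commutator sums -/
def T_LB : Prop := ∀ (V : Type) [Fintype V] [DecidableEq V] (a : V → V → ℝ) (pos : V → ℕ)
  (D0 : V → ℝ) (β G m : ℝ) (K i h k : ℕ), Dat a pos D0 G m → Par β G m K i h →
  (((GA a pos D0 β G m i h).filter (fun e => 2 ^ k ≤ min (dn a e.1) (dn a e.2) ∧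
      min (dn a e.1) (dn a e.2) < 2 ^ (k + 1))).card : ℝ)
      * (3 / 4 * 2 ^ i) * (de β ^ 2 / (4 * (2 ^ k) ^ 2))
    ≤ ∑ t ∈ range (∑ u, dn a u), Lt a pos D0 β G m h k t

/-- the conclusion for one scale -/
def T_KEYE : Prop := ∀ (V : Type) [Fintype V] [DecidableEq V] (a : V → V → ℝ) (pos : V → ℕ)
  (D0 : V → ℝ) (β G m : ℝ) (K i h : ℕ), Dat a pos D0 G m → Par β G m K i h →
  (∀ u, dn a u < 2 ^ K) → Ta a pos (2 ^ (h + 1)) ≤ de β * (β * m) / 64 →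
  β * m ≤ Ta a pos (2 ^ i) - Ta a pos (2 ^ (i + 1)) → ka β G m ^ 3 * 2 ^ (h + 2) ≤ 1 →
  β * de β ^ 2 * 2 ^ i ≤ 205824 * K * 2 ^ (h + 2) * Real.sqrt (ka β G m ^ 3 * 2 ^ (h + 2))

/-- choice of the scale -/
def T_SCALE : Prop := ∀ (q J : ℕ) (P Y : ℝ) (τ : ℕ → ℝ), 1 ≤ J → 1 ≤ P → Antitone τ →
  τ 0 = 1 → (∀ j, 0 ≤ τ j) → (∀ j, 2 ^ j * τ j ≤ Y) →
  Y * (8 * ((q : ℝ) + 1) ^ 3 * P) ^ (3 ^ J) < 2 ^ (J * q) →
  ∃ (β : ℝ) (i h : ℕ), 0 < β ∧ β ≤ 1 ∧ 1 ≤ β * (8 * ((q : ℝ) + 1) ^ 3 * P) ^ (3 ^ J) ∧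
    i ≤ h ∧ h ≤ i + q ∧ β ≤ τ i - τ (i + 1) ∧ τ (h + 1) ≤ β ^ 3 / P

/-- logarithms are small -/
def T_EVT : Prop := ∀ (ε θ : ℝ) (J : ℕ), 0 < ε → 0 < θ → ∃ m0 : ℝ, 2 ≤ m0 ∧ ∀ m : ℝ, m0 ≤ m →
  ∃ q K : ℕ, 1 ≤ K ∧ 2 * m < 2 ^ K ∧ (K : ℝ) ≤ m ^ θ ∧ (10 : ℝ) ^ 40 ≤ m ^ θ ∧
    16 * (8 * Real.log m + 10) ≤ m ^ θ ∧ (2 : ℝ) ^ q ≤ m ^ ε ∧ m ^ ε ≤ 2 * 2 ^ q ∧
    (8 * ((q : ℝ) + 1) ^ 3 * (64 * 10 ^ 7)) ^ (3 ^ J) ≤ m ^ θ

/-- the parameters are in the allowed range -/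
def T_PRM : Prop := ∀ (ε G m β : ℝ) (K q i h : ℕ), 0 < ε → ε ≤ 1 / 10 → 2 ≤ m → 1 ≤ G →
  G ≤ m ^ (5 / 7 - ε : ℝ) → 0 < β → β ≤ 1 → 1 ≤ β * m ^ (ε / 100 : ℝ) →
  1 ≤ K → (K : ℝ) ≤ m ^ (ε / 100 : ℝ) → (10 : ℝ) ^ 40 ≤ m ^ (ε / 100 : ℝ) →
  16 * (8 * Real.log m + 10) ≤ m ^ (ε / 100 : ℝ) → (2 : ℝ) ^ q ≤ m ^ ε →
  i ≤ h → h ≤ i + q → 2 ^ i * β ≤ 4 * Real.sqrt (G * m) →
  Par β G m K i h ∧ ka β G m ^ 3 * 2 ^ (h + 2) ≤ 1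

/-- the final contradiction -/
def T_CON : Prop := ∀ (ε G m β : ℝ) (K q i h : ℕ), 0 < ε → ε ≤ 1 / 10 → 2 ≤ m → 1 ≤ G →
  G ≤ m ^ (5 / 7 - ε : ℝ) → 0 < β → β ≤ 1 → 1 ≤ β * m ^ (ε / 100 : ℝ) →
  1 ≤ K → (K : ℝ) ≤ m ^ (ε / 100 : ℝ) → (10 : ℝ) ^ 40 ≤ m ^ (ε / 100 : ℝ) →
  16 * (8 * Real.log m + 10) ≤ m ^ (ε / 100 : ℝ) → (2 : ℝ) ^ q ≤ m ^ ε →
  i ≤ h → h ≤ i + q → 2 ^ i * β ≤ 4 * Real.sqrt (G * m) →
  205824 * K * 2 ^ (h + 2) * Real.sqrt (ka β G m ^ 3 * 2 ^ (h + 2)) < β * de β ^ 2 * 2 ^ i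

/-- the conclusion for one digraph with small surplus -/
def T_FIN : Prop := ∀ ε : ℝ, 0 < ε → ∃ m0 : ℝ, 2 ≤ m0 ∧ ∀ (V : Type) [Fintype V]
  [DecidableEq V] (a : V → V → ℝ) (G m : ℝ), Dicut.WData a G → (∀ u v, a u v = 0 ∨ a u v = 1) →
  ∑ u, dp a u = m → m0 ≤ m → m ^ (5 / 7 - ε : ℝ) < G

def T_MAIN : Prop := ∀ ε : ℝ, 0 < ε → ∃ c : ℝ, 0 < c ∧ ∀ m : ℕ, 1 ≤ m →
  (m : ℝ) / 4 + c * (m : ℝ) ^ (5 / 7 - ε : ℝ) ≤ (Dicut.h m : ℝ)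

end Pool.Agent.HSh
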