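import Mathlib
import Pool.Agent.HSh.Targets

set_option autoImplicit false

namespace Pool.Agent.HSh

open Finset Pool.Agent.HLow

lemma FIN_nonneg {V : Type} [Fintype V] [DecidableEq V] {a : V → V → ℝ} {pos : V → ℕ}
    (h : Dg a pos) (u v : V) : 0 ≤ a u v := by
  rcases h.zo u v with e | e <;> rw [e] <;> norm_num

lemma FIN_ln {V : Type} [Fintype V] [DecidableEq V] {a : V → V → ℝ} {pos : V → ℕ}
    (h : Dg a pos) (hi : ∀ u, 1 ≤ dn a u) {z w : V} (hzw : a z w ≠ 0) : 1 ≤ ln a pos z w := by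
  have h1 := h.lt z w hzw
  have h2 := ln_add (a := a) h1
  have h3 := th_add (a := a) h1
  have := hi z
  omega

lemma FIN_Ta_one {V : Type} [Fintype V] [DecidableEq V] {a : V → V → ℝ} {pos : V → ℕ}
    (h : Dg a pos) (hi : ∀ u, 1 ≤ dn a u) : Ta a pos 1 = ∑ u, dp a u := by
  unfold Ta dp
  refine sum_congr rfl (fun z _ => sum_congr rfl (fun w _ => ?_))
  by_cases e : a z w = 0
  · simp [e]
  · rw [if_pos (FIN_ln h hi e)]

lemma FIN_Ta_nonneg {V : Type} [Fintype V] [DecidableEq V] {a : V → V → ℝ} {pos : V → ℕ}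
    (h : Dg a pos) (x : ℕ) : 0 ≤ Ta a pos x := by
  unfold Ta
  refine sum_nonneg (fun z _ => sum_nonneg (fun w _ => ?_))
  split_ifs
  · exact FIN_nonneg h z w
  · exact le_refl _

lemma FIN_Ta_anti {V : Type} [Fintype V] [DecidableEq V] {a : V → V → ℝ} {pos : V → ℕ}
    (h : Dg a pos) {x y : ℕ} (hxy : x ≤ y) : Ta a pos y ≤ Ta a pos x := by
  unfold Ta
  refine sum_le_sum (fun z _ => sum_le_sum (fun w _ => ?_))
  by_cases e : y ≤ ln a pos z w
  · rw [if_pos e, if_pos (le_trans hxy e)]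
  · rw [if_neg e]
    split_ifs
    · exact FIN_nonneg h z w
    · exact le_refl _

lemma FIN_Ta_mul {V : Type} [Fintype V] [DecidableEq V] {a : V → V → ℝ} {pos : V → ℕ}
    (h : Dg a pos) (x : ℕ) : (x : ℝ) * Ta a pos x ≤ ∑ z, ∑ w, a z w * (ln a pos z w : ℝ) := by
  unfold Ta
  rw [mul_sum]
  refine sum_le_sum (fun z _ => ?_)
  rw [mul_sum]
  refine sum_le_sum (fun w _ => ?_)
  have h0 := FIN_nonneg h z w
  split_ifs with e
  · have : (x : ℝ) ≤ (ln a pos z w : ℝ) := by exact_mod_cast e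
    nlinarith
  · have : (0 : ℝ) ≤ (ln a pos z w : ℝ) := Nat.cast_nonneg _
    rw [mul_zero]; positivity

lemma FIN_main (h1 : T_DAT) (h2 : T_LSUM) (h3 : T_KEYE) (h4 : T_SCALE) (h5 : T_EVT)
    (h6 : T_PRM) (h7 : T_CON) (ε : ℝ) (hε : 0 < ε) (hε1 : ε ≤ 1 / 10) :
    ∃ m0 : ℝ, 2 ≤ m0 ∧ ∀ (V : Type) [Fintype V] [DecidableEq V] (a : V → V → ℝ) (G m : ℝ),
      Dicut.WData a G → (∀ u v, a u v = 0 ∨ a u v = 1) → ∑ u, dp a u = m → m0 ≤ m →
      m ^ (5 / 7 - ε : ℝ) < G := by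
  set J : ℕ := ⌈2 / ε⌉₊ with hJ
  have hJε : 2 ≤ ε * J := by
    have := Nat.le_ceil (2 / ε)
    rw [div_le_iff₀ hε] at this
    linarith
  have hJ1 : 1 ≤ J := by
    by_contra hc
    have : J = 0 := by omega
    rw [this] at hJε
    norm_num at hJε
  obtain ⟨m1, hm1, H⟩ := h5 ε (ε / 100) J hε (by positivity)
  refine ⟨max m1 (2 ^ (10 * J + 100)), le_trans hm1 (le_max_left _ _), ?_⟩
  intro V _ _ a G m hW h01 hsum hm
  by_contra hcon
  push Not at hcon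
  have hmm1 : m1 ≤ m := le_trans (le_max_left _ _) hm
  have hmJ : (2 : ℝ) ^ (10 * J + 100) ≤ m := le_trans (le_max_right _ _) hm
  have hm2 : 2 ≤ m := le_trans hm1 hmm1
  have hm0 : 0 < m := by linarith
  obtain ⟨q, K, hK1, hK2, hKθ, h10, hlog, hq1, hq2, hQ⟩ := H m hmm1
  obtain ⟨h576, W, _, _, b, pos, D0, hD⟩ := h1 V a G m hW h01 hsum (by linarith)
  have hG0 : 0 < G := hD.gpos
  have hbig : (2 : ℝ) ^ 100 ≤ m := by
    refine le_trans ?_ hmJ
    exact pow_le_pow_right₀ (by norm_num) (by omega)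
  have hG1 : 1 ≤ G := by
    by_contra hc
    push Not at hc
    have e1 : G ^ 5 ≤ 1 := pow_le_one₀ hG0.le hc.le
    have e2 : (576 : ℝ) < m := lt_of_lt_of_le (by norm_num) hbig
    have e3 : m ≤ m ^ 3 := by
      have : 1 ≤ m ^ 2 := one_le_pow₀ (by linarith)
      nlinarith
    linarith
  have hGm : G ≤ m := by
    refine le_trans hcon ?_
    calc m ^ (5 / 7 - ε : ℝ) ≤ m ^ (1 : ℝ) :=
          Real.rpow_le_rpow_of_exponent_le (by linarith) (by linarith)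
      _ = m := Real.rpow_one m
  have hsq : Real.sqrt (G * m) ≤ m := by
    rw [show m = Real.sqrt (m ^ 2) from (Real.sqrt_sq hm0.le).symm]
    apply Real.sqrt_le_sqrt
    rw [Real.sqrt_sq hm0.le]
    nlinarith
  set τ : ℕ → ℝ := fun j => Ta b pos (2 ^ j) / m with hτ
  have hanti : Antitone τ := by
    intro i j hij
    simp only [hτ]
    apply div_le_div_of_nonneg_right _ hm0.le
    exact FIN_Ta_anti hD.dg (Nat.pow_le_pow_right (by norm_num) hij)
  have hτ0 : τ 0 = 1 := by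
    simp only [hτ, pow_zero]
    rw [FIN_Ta_one hD.dg hD.iso, hD.sum]
    exact div_self hm0.ne'
  have hτn : ∀ j, 0 ≤ τ j := fun j => div_nonneg (FIN_Ta_nonneg hD.dg _) hm0.le
  have hτY : ∀ j, 2 ^ j * τ j ≤ 4 * Real.sqrt (G * m) := by
    intro j
    have e1 := FIN_Ta_mul hD.dg (2 ^ j)
    have e2 := h2 W b pos D0 G m hD
    push_cast at e1
    simp only [hτ]
    rw [← mul_div_assoc, div_le_iff₀ hm0]
    nlinarith
  have hQpos : 0 < (8 * ((q : ℝ) + 1) ^ 3 * (64 * 10 ^ 7)) ^ (3 ^ J) := by positivity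
  have hY : 4 * Real.sqrt (G * m) * (8 * ((q : ℝ) + 1) ^ 3 * (64 * 10 ^ 7)) ^ (3 ^ J)
      < 2 ^ (J * q) := by
    have e1 : 4 * Real.sqrt (G * m) * (8 * ((q : ℝ) + 1) ^ 3 * (64 * 10 ^ 7)) ^ (3 ^ J)
        ≤ 4 * m * m ^ (ε / 100 : ℝ) := by
      apply mul_le_mul _ hQ hQpos.le (by positivity)
      linarith
    have e2 : m ^ 2 ≤ (2 : ℝ) ^ J * 2 ^ (J * q) := by
      calc m ^ 2 = m ^ (2 : ℝ) := by norm_cast
        _ ≤ m ^ (ε * J : ℝ) := Real.rpow_le_rpow_of_exponent_le (by linarith) hJε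
        _ = (m ^ (ε : ℝ)) ^ J := by rw [Real.rpow_mul hm0.le, Real.rpow_natCast]
        _ ≤ (2 * 2 ^ q) ^ J := pow_le_pow_left₀ (Real.rpow_nonneg hm0.le _) hq2 J
        _ = (2 : ℝ) ^ J * 2 ^ (J * q) := by rw [mul_pow, ← pow_mul, mul_comm q J]
    have e3 : m ^ (ε / 100 : ℝ) ≤ Real.sqrt m := by
      rw [Real.sqrt_eq_rpow]
      exact Real.rpow_le_rpow_of_exponent_le (by linarith) (by linarith)
    have e4 : (2 : ℝ) ^ (5 * J + 50) ≤ Real.sqrt m := by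
      apply Real.le_sqrt_of_sq_le
      rw [← pow_mul]
      convert hmJ using 2
      ring
    have e5 : Real.sqrt m * Real.sqrt m = m := Real.mul_self_sqrt hm0.le
    have e6 : 4 * (2 : ℝ) ^ J < (2 : ℝ) ^ (5 * J + 50) := by
      calc 4 * (2 : ℝ) ^ J = 2 ^ (J + 2) := by rw [pow_add]; ring
        _ < 2 ^ (5 * J + 50) := pow_lt_pow_right₀ (by norm_num) (by omega)
    have e7 : 0 < Real.sqrt m := Real.sqrt_pos.mpr hm0
    have e8 : (2 : ℝ) ^ J * (4 * m * m ^ (ε / 100 : ℝ)) < (2 : ℝ) ^ J * 2 ^ (J * q) := by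
      refine lt_of_lt_of_le ?_ e2
      have f1 : (2 : ℝ) ^ J * (4 * m * m ^ (ε / 100 : ℝ)) ≤ (4 * 2 ^ J) * m * Real.sqrt m := by
        have : (0 : ℝ) < 2 ^ J := by positivity
        calc (2 : ℝ) ^ J * (4 * m * m ^ (ε / 100 : ℝ)) = (4 * 2 ^ J) * m * m ^ (ε / 100 : ℝ) := by
              ring
          _ ≤ (4 * 2 ^ J) * m * Real.sqrt m := by gcongr
      have f2 : (4 * (2 : ℝ) ^ J) * m * Real.sqrt m < Real.sqrt m * m * Real.sqrt m := by
        have : 4 * (2 : ℝ) ^ J < Real.sqrt m := lt_of_lt_of_le e6 e4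
        gcongr
      have f3 : Real.sqrt m * m * Real.sqrt m = m ^ 2 := by
        calc Real.sqrt m * m * Real.sqrt m = (Real.sqrt m * Real.sqrt m) * m := by ring
          _ = m ^ 2 := by rw [e5]; ring
      linarith
    have e9 := lt_of_mul_lt_mul_left e8 (by positivity)
    exact lt_of_le_of_lt e1 e9
  obtain ⟨β, i, h, hβ0, hβ1, hβQ, hih, hhq, hβi, hβh⟩ := h4 q J (64 * 10 ^ 7)
    (4 * Real.sqrt (G * m)) τ hJ1 (by norm_num) hanti hτ0 hτn hτY hY
  have hβx : 1 ≤ β * m ^ (ε / 100 : ℝ) := le_trans hβQ (mul_le_mul_of_nonneg_left hQ hβ0.le)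
  have hiβ : 2 ^ i * β ≤ 4 * Real.sqrt (G * m) := by
    refine le_trans ?_ (hτY i)
    apply mul_le_mul_of_nonneg_left _ (by positivity)
    linarith [hτn (i + 1)]
  obtain ⟨hPar, hk1⟩ := h6 ε G m β K q i h hε hε1 hm2 hG1 hcon hβ0 hβ1 hβx hK1 hKθ h10 hlog hq1
    hih hhq hiβ
  have hcn := h7 ε G m β K q i h hε hε1 hm2 hG1 hcon hβ0 hβ1 hβx hK1 hKθ h10 hlog hq1
    hih hhq hiβ
  have hdn : ∀ u, dn b u < 2 ^ K := by
    intro u
    have e1 : (dn b u : ℝ) ≤ 2 * m := by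
      rw [← hD.sumdn]
      exact single_le_sum (f := fun u => (dn b u : ℝ)) (fun i _ => Nat.cast_nonneg _) (mem_univ u)
    have e2 : (dn b u : ℝ) < ((2 ^ K : ℕ) : ℝ) := by
      push_cast; linarith
    exact_mod_cast e2
  have hTa1 : Ta b pos (2 ^ (h + 1)) ≤ de β * (β * m) / 64 := by
    have e1 : Ta b pos (2 ^ (h + 1)) = τ (h + 1) * m := by
      simp only [hτ]
      rw [div_mul_cancel₀ _ hm0.ne']
    have e2 : de β * (β * m) / 64 = β ^ 3 / (64 * 10 ^ 7) * m := by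
      unfold de; ring
    rw [e1, e2]
    exact mul_le_mul_of_nonneg_right hβh hm0.le
  have hTa2 : β * m ≤ Ta b pos (2 ^ i) - Ta b pos (2 ^ (i + 1)) := by
    have e1 : Ta b pos (2 ^ i) - Ta b pos (2 ^ (i + 1)) = (τ i - τ (i + 1)) * m := by
      simp only [hτ]
      rw [sub_mul, div_mul_cancel₀ _ hm0.ne', div_mul_cancel₀ _ hm0.ne']
    rw [e1]
    exact mul_le_mul_of_nonneg_right hβi hm0.le
  have hfin := h3 W b pos D0 β G m K i h hD hPar hdn hTa1 hTa2 hk1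
  linarith

theorem p_FIN (h1 : T_DAT) (h2 : T_LSUM) (h3 : T_KEYE) (h4 : T_SCALE) (h5 : T_EVT)
    (h6 : T_PRM) (h7 : T_CON) : T_FIN := by
  intro ε hε
  obtain ⟨m0, hm0, H⟩ := FIN_main h1 h2 h3 h4 h5 h6 h7 (min ε (1 / 10))
    (lt_min hε (by norm_num)) (min_le_right _ _)
  refine ⟨m0, hm0, ?_⟩
  intro V _ _ a G m hW h01 hsum hm
  refine lt_of_le_of_lt ?_ (H V a G m hW h01 hsum hm)
  apply Real.rpow_le_rpow_of_exponent_le (by linarith)
  have := min_le_left ε (1 / 10)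
  linarith

end Pool.Agent.HSh
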