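import Mathlib
import Pool.Agent.HSh.Targets

set_option autoImplicit false

/-!
# AN: the commutator inequality without spectral data
-/

namespace Pool.Agent.HSh

open Finset Pool.Agent.HLow

variable {V : Type} [Fintype V] [DecidableEq V]

lemma AN_form (A : V → V → ℝ) (D φ : V → ℝ) :
    ∑ u, ∑ w, MM A D u w * (φ u * φ w) = ∑ u, D u * φ u ^ 2 + ∑ u, ∑ v, A u v * (φ u * φ v) := by
  rw [← sum_add_distrib]
  refine sum_congr rfl fun u _ => ?_
  have h1 : ∀ w, MM A D u w * (φ u * φ w)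
      = (if u = w then D u * (φ u * φ w) else 0) + A u w * (φ u * φ w) := by
    intro w
    unfold MM
    split_ifs <;> ring
  rw [sum_congr rfl fun w _ => h1 w, sum_add_distrib, sum_ite_eq, if_pos (mem_univ _)]
  ring

lemma AN_s2 {A : V → V → ℝ} {D s lam : V → ℝ} {v : V → V → ℝ} (h : SD A D s lam v) (u : V) :
    1 / D u ^ 2 ≤ s u ^ 2 ∧ s u ^ 2 ≤ 2 / D u ^ 2 := by
  have h1 := h.two u
  have h2 := h.sd u
  have h3 : 0 < D u ^ 2 := by positivity
  have h4 : 0 < s u ^ 2 := by have := h.spos u; positivity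
  constructor
  · rw [div_le_iff₀ h3]
    nlinarith
  · rw [le_div_iff₀ h3]
    nlinarith

theorem p_AN (h1 : T_SDE) (h2 : T_ANZ) : T_AN := by
  intro V _ _ A D g c2 ν hA hD hpos hν hφ
  obtain ⟨s, lam, v, hs⟩ := h1 V A D hA hD hpos
  have hanz := h2 V A D s lam v hs g c2 ν hν (by
    intro φ
    rw [AN_form]
    exact hφ φ)
  rcases isEmpty_or_nonempty V with hV | hV
  · simp
  have hc2 : 0 ≤ c2 := by
    obtain ⟨u0⟩ := hV
    have h3 := hφ (fun u => if u = u0 then 1 else 0)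
    have h4 : ∑ u, (if u = u0 then (1 : ℝ) else 0) * g u = g u0 := by
      simp
    have h5 : ∑ u, D u * (if u = u0 then (1 : ℝ) else 0) ^ 2 = D u0 := by
      simp
    have h6 : ∑ u, ∑ w, A u w * ((if u = u0 then (1 : ℝ) else 0) * (if w = u0 then 1 else 0))
        = 0 := by
      have h7 : ∀ u w, A u w * ((if u = u0 then (1 : ℝ) else 0) * (if w = u0 then 1 else 0))
          = 0 := by
        intro u w
        by_cases hu : u = u0
        · by_cases hw : w = u0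
          · rw [hu, hw, hA.dg u0, zero_mul]
          · rw [if_neg hw]; ring
        · rw [if_neg hu]; ring
      exact sum_eq_zero fun u _ => sum_eq_zero fun w _ => h7 u w
    rw [h4, h5, h6, add_zero] at h3
    have h8 := hD u0
    by_contra hcon
    push Not at hcon
    nlinarith [sq_nonneg (g u0)]
  have hoff : ∀ u w, u ≠ w → NN A D s u w ^ 2 = s u ^ 2 * s w ^ 2 * A u w := by
    intro u w huw
    unfold NN MM
    rw [if_neg huw, add_zero, mul_pow, mul_pow, sq (A u w), hA.sq u w]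
  -- left side
  have hL : ∑ u, ∑ w, A u w / (D u ^ 2 * D w ^ 2) * (g u - g w) ^ 2
      ≤ ∑ u, ∑ w, NN A D s u w ^ 2 * (g u - g w) ^ 2 := by
    refine sum_le_sum fun u _ => sum_le_sum fun w _ => ?_
    by_cases huw : u = w
    · subst huw
      simp
    · apply mul_le_mul_of_nonneg_right _ (sq_nonneg _)
      rw [hoff u w huw]
      have e1 := (AN_s2 hs u).1
      have e2 := (AN_s2 hs w).1
      have e3 : 1 / D u ^ 2 * (1 / D w ^ 2) ≤ s u ^ 2 * s w ^ 2 :=
        mul_le_mul e1 e2 (by positivity) (by positivity)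
      calc A u w / (D u ^ 2 * D w ^ 2) = 1 / D u ^ 2 * (1 / D w ^ 2) * A u w := by
            rw [div_mul_div_comm, one_mul, div_mul_eq_mul_div, one_mul]
        _ ≤ s u ^ 2 * s w ^ 2 * A u w := mul_le_mul_of_nonneg_right e3 (hA.nonneg u w)
  have hdiag : ∀ u, NN A D s u u ≤ 2 / D u ∧ 0 ≤ NN A D s u u := by
    intro u
    rw [hs.diag u]
    have := hD u
    constructor
    · rw [div_le_div_iff₀ (by linarith) (by linarith)]
      linarith
    · apply div_nonneg (by norm_num)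
      linarith
  have hT : ∑ u, g u ^ 2 * NN A D s u u ≤ 2 * ∑ u, g u ^ 2 / D u := by
    rw [mul_sum]
    refine sum_le_sum fun u _ => ?_
    calc g u ^ 2 * NN A D s u u ≤ g u ^ 2 * (2 / D u) :=
          mul_le_mul_of_nonneg_left (hdiag u).1 (sq_nonneg _)
      _ = 2 * (g u ^ 2 / D u) := by ring
  have hP : ∑ u, NN A D s u u ≤ 2 * ∑ u, 1 / D u := by
    rw [mul_sum]
    refine sum_le_sum fun u _ => ?_
    calc NN A D s u u ≤ 2 / D u := (hdiag u).1
      _ = 2 * (1 / D u) := by ring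
  have hQ : ∑ u, ∑ w, NN A D s u w ^ 2
      ≤ 4 * (∑ u, ∑ w, A u w / (D u ^ 2 * D w ^ 2) + ∑ u, 1 / D u ^ 2) := by
    rw [← sum_add_distrib, mul_sum]
    refine sum_le_sum fun u _ => ?_
    have e0 : ∀ w, NN A D s u w ^ 2 ≤ 4 * (A u w / (D u ^ 2 * D w ^ 2))
        + (if u = w then 4 / D u ^ 2 else 0) := by
      intro w
      by_cases huw : u = w
      · subst huw
        rw [if_pos rfl, hA.dg u, zero_div, mul_zero, zero_add]
        have e1 := hdiag u
        have e2 : NN A D s u u ^ 2 ≤ (2 / D u) ^ 2 := pow_le_pow_left₀ e1.2 e1.1 2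
        refine e2.trans (le_of_eq ?_)
        rw [div_pow]
        norm_num
      · rw [if_neg huw, add_zero, hoff u w huw]
        have e1 := (AN_s2 hs u).2
        have e2 := (AN_s2 hs w).2
        have e3 : s u ^ 2 * s w ^ 2 ≤ 2 / D u ^ 2 * (2 / D w ^ 2) :=
          mul_le_mul e1 e2 (sq_nonneg _) (by positivity)
        calc s u ^ 2 * s w ^ 2 * A u w ≤ 2 / D u ^ 2 * (2 / D w ^ 2) * A u w :=
              mul_le_mul_of_nonneg_right e3 (hA.nonneg u w)
          _ = 4 * (A u w / (D u ^ 2 * D w ^ 2)) := by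
              rw [div_mul_div_comm]
              ring
    refine (sum_le_sum fun w _ => e0 w).trans (le_of_eq ?_)
    rw [sum_add_distrib, ← mul_sum, sum_ite_eq, if_pos (mem_univ _)]
    ring
  have f1 : 72 / ν * ∑ u, g u ^ 2 * NN A D s u u ≤ 72 / ν * (2 * ∑ u, g u ^ 2 / D u) :=
    mul_le_mul_of_nonneg_left hT (by positivity)
  have f2 : ν * ∑ u, ∑ w, NN A D s u w ^ 2
      ≤ ν * (4 * (∑ u, ∑ w, A u w / (D u ^ 2 * D w ^ 2) + ∑ u, 1 / D u ^ 2)) :=
    mul_le_mul_of_nonneg_left hQ hν.le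
  have f3 : 2 * c2 * (ν * ∑ u, ∑ w, NN A D s u w ^ 2 + ∑ u, NN A D s u u)
      ≤ 2 * c2 * (ν * (4 * (∑ u, ∑ w, A u w / (D u ^ 2 * D w ^ 2) + ∑ u, 1 / D u ^ 2))
        + 2 * ∑ u, 1 / D u) :=
    mul_le_mul_of_nonneg_left (add_le_add f2 hP) (by positivity)
  calc ∑ u, ∑ w, A u w / (D u ^ 2 * D w ^ 2) * (g u - g w) ^ 2
      ≤ ∑ u, ∑ w, NN A D s u w ^ 2 * (g u - g w) ^ 2 := hL
    _ ≤ 72 / ν * ∑ u, g u ^ 2 * NN A D s u u
        + 2 * c2 * (ν * ∑ u, ∑ w, NN A D s u w ^ 2 + ∑ u, NN A D s u u) := hanz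
    _ ≤ 72 / ν * (2 * ∑ u, g u ^ 2 / D u)
        + 2 * c2 * (ν * (4 * (∑ u, ∑ w, A u w / (D u ^ 2 * D w ^ 2) + ∑ u, 1 / D u ^ 2))
        + 2 * ∑ u, 1 / D u) := add_le_add f1 f3
    _ = 144 / ν * ∑ u, g u ^ 2 / D u
        + 8 * c2 * ν * (∑ u, ∑ w, A u w / (D u ^ 2 * D w ^ 2) + ∑ u, 1 / D u ^ 2)
        + 4 * c2 * ∑ u, 1 / D u := by ring

end Pool.Agent.HSh
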