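import Mathlib
import Pool.Agent.HSh.Targets

set_option autoImplicit false
set_option linter.unusedSectionVars false

namespace Pool.Agent.HSh

open Finset Pool.Agent.HLow

section

variable {V : Type} [Fintype V] [DecidableEq V]

lemma ANU_sum (U : Finset V) (F : V → ℝ) (h : ∀ u, u ∉ U → F u = 0) :
    ∑ u, F u = ∑ u : {u // u ∈ U}, F u := by
  rw [← sum_subset (subset_univ U) (fun u _ hu => h u hu)]
  exact (sum_coe_sort U F).symm

/-- extension by zero -/
noncomputable def ANU_ext (U : Finset V) (x : {u // u ∈ U} → ℝ) (u : V) : ℝ :=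
  if h : u ∈ U then x ⟨u, h⟩ else 0

lemma ANU_ext_mem (U : Finset V) (x : {u // u ∈ U} → ℝ) (u : {u // u ∈ U}) :
    ANU_ext U x u = x u := by
  unfold ANU_ext; rw [dif_pos u.2]

lemma ANU_ext_out (U : Finset V) (x : {u // u ∈ U} → ℝ) (u : V) (h : u ∉ U) :
    ANU_ext U x u = 0 := by
  unfold ANU_ext; rw [dif_neg h]

/-- the form of an extended function -/
lemma ANU_form (U : Finset V) (A : V → V → ℝ) (D : V → ℝ) (x : {u // u ∈ U} → ℝ) :
    ∑ u, D u * ANU_ext U x u ^ 2 + ∑ u, ∑ v, A u v * (ANU_ext U x u * ANU_ext U x v)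
      = ∑ u : {u // u ∈ U}, D u * x u ^ 2
        + ∑ u : {u // u ∈ U}, ∑ v : {u // u ∈ U}, A u v * (x u * x v) := by
  congr 1
  · rw [ANU_sum U _ (fun u hu => by rw [ANU_ext_out U x u hu]; ring)]
    exact sum_congr rfl (fun u _ => by rw [ANU_ext_mem])
  · rw [ANU_sum U _ (fun u hu => by
      apply sum_eq_zero; intro v _
      rw [ANU_ext_out U x u hu]; ring)]
    apply sum_congr rfl; intro u _
    rw [ANU_sum U _ (fun v hv => by rw [ANU_ext_out U x v hv]; ring)]
    exact sum_congr rfl (fun v _ => by rw [ANU_ext_mem, ANU_ext_mem])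

end

theorem p_ANU (h : T_AN) : T_ANU := by
  intro V _ _ A D g c2 ν U hA hD hpos hν H
  have hA' : Adj (fun u v : {u // u ∈ U} => A u v) :=
    ⟨fun u v => hA.zo u v, fun u v => hA.sym u v, fun u => hA.dg u⟩
  have key := h {u // u ∈ U} (fun u v => A u v) (fun u => D u) (fun u => g u) c2 ν hA'
    (fun u => hD u u.2) ?_ hν ?_
  · have e1 : ∀ F : V → ℝ, ∑ u : {u // u ∈ U}, F u = ∑ u ∈ U, F u := fun F => sum_coe_sort U F
    rw [← e1 (fun u => g u ^ 2 / D u), ← e1 (fun u => 1 / D u ^ 2), ← e1 (fun u => 1 / D u)]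
    rw [← e1 (fun u => ∑ w ∈ U, A u w / (D u ^ 2 * D w ^ 2) * (g u - g w) ^ 2),
      ← e1 (fun u => ∑ w ∈ U, A u w / (D u ^ 2 * D w ^ 2))]
    have e2 : ∀ u : {u // u ∈ U}, ∑ w ∈ U, A u w / (D u ^ 2 * D w ^ 2) * (g u - g w) ^ 2
        = ∑ w : {u // u ∈ U}, A u w / (D u ^ 2 * D w ^ 2) * (g u - g w) ^ 2 := fun u => by
      rw [← e1 (fun w => A u w / (D u ^ 2 * D w ^ 2) * (g u - g w) ^ 2)]
    have e3 : ∀ u : {u // u ∈ U}, ∑ w ∈ U, A u w / (D u ^ 2 * D w ^ 2)
        = ∑ w : {u // u ∈ U}, A u w / (D u ^ 2 * D w ^ 2) := fun u => by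
      rw [← e1 (fun w => A u w / (D u ^ 2 * D w ^ 2))]
    rw [sum_congr rfl (fun u _ => e2 u), sum_congr rfl (fun u _ => e3 u)]
    exact key
  · intro x hx
    have h1 := hpos (ANU_ext U x) (fun u hu => ANU_ext_out U x u hu) (by
      intro h0
      apply hx
      funext u
      have := congrFun h0 (u : V)
      rw [ANU_ext_mem] at this
      exact this)
    rw [ANU_form] at h1
    exact h1
  · intro φ
    have h1 := H (ANU_ext U φ) (fun u hu => ANU_ext_out U φ u hu)
    rw [ANU_form] at h1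
    have h2 : ∑ u, ANU_ext U φ u * g u = ∑ u : {u // u ∈ U}, φ u * g u := by
      rw [ANU_sum U _ (fun u hu => by rw [ANU_ext_out U φ u hu]; ring)]
      exact sum_congr rfl (fun u _ => by rw [ANU_ext_mem])
    rw [h2] at h1
    exact h1

end Pool.Agent.HSh
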