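import Mathlib
import Pool.Agent.HSh.Targets

set_option autoImplicit false
set_option linter.unusedSectionVars false

namespace Pool.Agent.HSh

open Finset Pool.Agent.HLow

/-- elementary inequality, first case -/
lemma ANZ_aux (a b ν : ℝ) (ha : 0 < a) (hb : 0 < b) (hν : 0 < ν) (hab : b ≤ a) :
    (a - b) ^ 2 ≤ 4 / ν * ((a - b) ^ 2 * (a * b) / (a + b) ^ 2)
      + (a ^ 2 * (ν * a + 1) / (b + 1) + b ^ 2 * (ν * b + 1) / (a + 1)) := by
  have hs : 0 < a + b := add_pos ha hb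
  have h1 : 0 ≤ 4 / ν * ((a - b) ^ 2 * (a * b) / (a + b) ^ 2) := by positivity
  have h2 : 0 ≤ b ^ 2 * (ν * b + 1) / (a + 1) := by positivity
  have h3 : 0 ≤ a ^ 2 * (ν * a + 1) / (b + 1) := by positivity
  by_cases hc : ν * (a + b) ^ 2 ≤ 4 * (a * b)
  · have e1 : 4 / ν * ((a - b) ^ 2 * (a * b) / (a + b) ^ 2)
        = (a - b) ^ 2 * (4 * (a * b) / (ν * (a + b) ^ 2)) := by
      field_simp
    have e2 : 1 ≤ 4 * (a * b) / (ν * (a + b) ^ 2) := by
      rw [le_div_iff₀ (by positivity)]; linarith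
    have e3 : (a - b) ^ 2 * 1 ≤ (a - b) ^ 2 * (4 * (a * b) / (ν * (a + b) ^ 2)) :=
      mul_le_mul_of_nonneg_left e2 (sq_nonneg _)
    rw [e1]; linarith
  · push Not at hc
    have e1 : (a + b) ^ 2 ≤ 4 * a ^ 2 := by nlinarith
    have e2 : 4 * (a * b) < ν * (4 * a ^ 2) :=
      lt_of_lt_of_le hc (mul_le_mul_of_nonneg_left e1 hν.le)
    have e3 : b < ν * a := by
      by_contra hcon
      push Not at hcon
      nlinarith
    have e4 : a ^ 2 ≤ a ^ 2 * (ν * a + 1) / (b + 1) := by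
      rw [le_div_iff₀ (by linarith)]
      exact mul_le_mul_of_nonneg_left (by linarith) (sq_nonneg _)
    have e5 : (a - b) ^ 2 ≤ a ^ 2 := by nlinarith
    linarith

lemma ANZ_ineq (a b ν : ℝ) (ha : 0 < a) (hb : 0 < b) (hν : 0 < ν) :
    (a - b) ^ 2 ≤ 4 / ν * ((a - b) ^ 2 * (a * b) / (a + b) ^ 2)
      + (a ^ 2 * (ν * a + 1) / (b + 1) + b ^ 2 * (ν * b + 1) / (a + 1)) := by
  rcases le_total b a with h | h
  · exact ANZ_aux a b ν ha hb hν h
  · have h1 := ANZ_aux b a ν hb ha hν h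
    have e1 : (b - a) ^ 2 = (a - b) ^ 2 := by ring
    have e2 : (b - a) ^ 2 * (b * a) / (b + a) ^ 2 = (a - b) ^ 2 * (a * b) / (a + b) ^ 2 := by
      rw [e1, add_comm b a, mul_comm b a]
    rw [e2, e1] at h1
    linarith

theorem p_ANZ (h1 : T_T1) (h2 : T_T2) (h3 : T_CMM) (h4 : T_TRC) : T_ANZ := by
  intro V _ _ A D s lam v hS g c2 ν hν H
  obtain ⟨t1, t2, _⟩ := h4 V A D s lam v hS
  have k1 := h1 V A D s lam v hS g
  have k2 := h2 V A D s lam v hS g c2 H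
  have k3 := h3 V A D s lam v hS g
  have hpos := hS.pos
  rw [← k3]
  have e1 : ∑ i, ∑ j, gm v g i j ^ 2 * (lam i - lam j) ^ 2
      ≤ ∑ i, ∑ j, (4 / ν * (gm v g i j ^ 2
          * ((lam i - lam j) ^ 2 * (lam i * lam j) / (lam i + lam j) ^ 2))
        + (gm v g i j ^ 2 * (lam i ^ 2 * (ν * lam i + 1) / (lam j + 1))
          + gm v g i j ^ 2 * (lam j ^ 2 * (ν * lam j + 1) / (lam i + 1)))) := by
    apply sum_le_sum; intro i _
    apply sum_le_sum; intro j _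
    have h := mul_le_mul_of_nonneg_left (ANZ_ineq (lam i) (lam j) ν (hpos i) (hpos j) hν)
      (sq_nonneg (gm v g i j))
    refine le_trans h (le_of_eq (by ring))
  have e2 : ∑ i, ∑ j, (4 / ν * (gm v g i j ^ 2
          * ((lam i - lam j) ^ 2 * (lam i * lam j) / (lam i + lam j) ^ 2))
        + (gm v g i j ^ 2 * (lam i ^ 2 * (ν * lam i + 1) / (lam j + 1))
          + gm v g i j ^ 2 * (lam j ^ 2 * (ν * lam j + 1) / (lam i + 1))))
      = 4 / ν * ∑ i, ∑ j, gm v g i j ^ 2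
          * ((lam i - lam j) ^ 2 * (lam i * lam j) / (lam i + lam j) ^ 2)
        + (∑ i, ∑ j, gm v g i j ^ 2 * (lam i ^ 2 * (ν * lam i + 1) / (lam j + 1))
          + ∑ i, ∑ j, gm v g i j ^ 2 * (lam j ^ 2 * (ν * lam j + 1) / (lam i + 1))) := by
    rw [mul_sum, ← sum_add_distrib, ← sum_add_distrib]
    apply sum_congr rfl; intro i _
    rw [mul_sum, ← sum_add_distrib, ← sum_add_distrib]
  have e3 : ∑ i, ∑ j, gm v g i j ^ 2 * (lam j ^ 2 * (ν * lam j + 1) / (lam i + 1))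
      = ∑ i, ∑ j, gm v g i j ^ 2 * (lam i ^ 2 * (ν * lam i + 1) / (lam j + 1)) := by
    rw [sum_comm]
    apply sum_congr rfl; intro i _
    apply sum_congr rfl; intro j _
    rw [gm_symm v g j i]
  have e4 : ∑ i, ∑ j, gm v g i j ^ 2 * (lam i ^ 2 * (ν * lam i + 1) / (lam j + 1))
      ≤ c2 * (ν * ∑ i, lam i ^ 2 + ∑ i, lam i) := by
    have e5 : c2 * (ν * ∑ i, lam i ^ 2 + ∑ i, lam i) = ∑ i, lam i * (ν * lam i + 1) * c2 := by
      rw [mul_sum, ← sum_add_distrib, mul_sum]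
      exact sum_congr rfl (fun i _ => by ring)
    rw [e5]
    apply sum_le_sum; intro i _
    have e6 : ∑ j, gm v g i j ^ 2 * (lam i ^ 2 * (ν * lam i + 1) / (lam j + 1))
        = lam i * (ν * lam i + 1) * (lam i * ∑ j, gm v g i j ^ 2 / (lam j + 1)) := by
      rw [mul_sum, mul_sum]
      exact sum_congr rfl (fun j _ => by ring)
    rw [e6]
    have hi := hpos i
    exact mul_le_mul_of_nonneg_left (k2 i) (by positivity)
  have e7 : 4 / ν * ∑ i, ∑ j, gm v g i j ^ 2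
          * ((lam i - lam j) ^ 2 * (lam i * lam j) / (lam i + lam j) ^ 2)
      ≤ 72 / ν * ∑ u, g u ^ 2 * NN A D s u u := by
    have h := mul_le_mul_of_nonneg_left k1 (show (0 : ℝ) ≤ 4 / ν by positivity)
    refine le_trans h (le_of_eq (by ring))
  rw [t1, t2] at e4
  rw [e2, e3] at e1
  linarith

end Pool.Agent.HSh
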