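import Mathlib
import Pool.Agent.HSh.Targets

set_option autoImplicit false
set_option linter.unusedSectionVars false

namespace Pool.Agent.HSh

open Finset Pool.Agent.HLow

/-- ARC, from T_GOOD, T_BIG, T_SHP, T_SHM -/
theorem p_ARC : T_GOOD → T_BIG → T_SHP → T_SHM → T_ARC := by
  intro hGOOD hBIG hSHP hSHM V _ _ a pos D0 β G m K i h hD hP hK hT hbm
  classical
  have g1 := hGOOD V a pos D0 β G m K i h hD hP hK hT
  have g2 := hBIG V a pos D0 β G m K i h hD hP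
  have g3 := hSHP V a pos D0 β G m K i h hD hP
  have g4 := hSHM V a pos D0 β G m K i h hD hP
  have g5 : ∑ z, ∑ w, ((if z ∉ Gd a pos D0 β G m h then a z w else 0) +
      (if w ∉ Gd a pos D0 β G m h then a z w else 0)) =
      ∑ u ∈ univ.filter (fun u => u ∉ Gd a pos D0 β G m h), (dn a u : ℝ) := by
    rw [sum_filter]
    have h1 : ∀ u, (if u ∉ Gd a pos D0 β G m h then (dn a u : ℝ) else 0) =
        (∑ w, if u ∉ Gd a pos D0 β G m h then a u w else 0) +
        ∑ z, if u ∉ Gd a pos D0 β G m h then a z u else 0 := by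
      intro u
      by_cases hu : u ∉ Gd a pos D0 β G m h
      · simp only [if_pos hu]
        rw [dn_cast hD.dg u]
        rfl
      · simp only [if_neg hu]
        simp
    rw [sum_congr rfl fun u _ => h1 u, sum_add_distrib]
    have h2 : ∑ u, ∑ z, (if u ∉ Gd a pos D0 β G m h then a z u else 0) =
        ∑ z, ∑ w, (if w ∉ Gd a pos D0 β G m h then a z w else 0) := sum_comm
    rw [h2, ← sum_add_distrib]
    exact sum_congr rfl fun z _ => sum_add_distrib
  have g6 : ((GA a pos D0 β G m i h).card : ℝ) =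
      ∑ z, ∑ w, (if (z, w) ∈ GA a pos D0 β G m i h then (1 : ℝ) else 0) := by
    rw [← Fintype.sum_prod_type' (f := fun z w =>
      (if (z, w) ∈ GA a pos D0 β G m i h then (1 : ℝ) else 0))]
    simp
  have g7 : Ta a pos (2 ^ i) - Ta a pos (2 ^ (i + 1)) ≤
      ∑ z, ∑ w, ((if (z, w) ∈ GA a pos D0 β G m i h then (1 : ℝ) else 0) +
      ((if z ∉ Gd a pos D0 β G m h then a z w else 0) +
      (if w ∉ Gd a pos D0 β G m h then a z w else 0)) +
      (if ln a pos z w < 2 ^ (i + 1) ∧ dlo β G m ≤ dn a z ∧ dlo β G m ≤ dn a w ∧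
        (2 ^ i < 16 * dn a z ∨ 2 ^ i < 16 * dn a w) then a z w else 0) +
      (if ln a pos z w < 2 ^ (i + 1) ∧ 16 * dn a z ≤ 2 ^ i ∧ 16 * dn a w ≤ 2 ^ i ∧
        D0 z ≤ ka β G m * dn a z ∧ D0 w ≤ ka β G m * dn a w ∧ Fp a pos i z < de β * dn a z
        then a z w else 0) +
      (if ln a pos z w < 2 ^ (i + 1) ∧ 16 * dn a z ≤ 2 ^ i ∧ 16 * dn a w ≤ 2 ^ i ∧
        D0 z ≤ ka β G m * dn a z ∧ D0 w ≤ ka β G m * dn a w ∧ Fm a pos i w < de β * dn a w
        then a z w else 0)) := by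
    unfold Ta
    rw [← sum_sub_distrib]
    apply sum_le_sum
    intro z _
    rw [← sum_sub_distrib]
    apply sum_le_sum
    intro w _
    have hnn := hD.dg.nonneg z w
    have t0 : ∀ (p : Prop) [Decidable p], 0 ≤ (if p then a z w else 0) := by
      intro p _
      split_ifs <;> linarith
    have t1 : (0 : ℝ) ≤ (if (z, w) ∈ GA a pos D0 β G m i h then (1 : ℝ) else 0) := by
      split_ifs <;> norm_num
    have tz := t0 (z ∉ Gd a pos D0 β G m h)
    have tw := t0 (w ∉ Gd a pos D0 β G m h)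
    have t2 := t0 (ln a pos z w < 2 ^ (i + 1) ∧ dlo β G m ≤ dn a z ∧ dlo β G m ≤ dn a w ∧
        (2 ^ i < 16 * dn a z ∨ 2 ^ i < 16 * dn a w))
    have t3 := t0 (ln a pos z w < 2 ^ (i + 1) ∧ 16 * dn a z ≤ 2 ^ i ∧ 16 * dn a w ≤ 2 ^ i ∧
        D0 z ≤ ka β G m * dn a z ∧ D0 w ≤ ka β G m * dn a w ∧ Fp a pos i z < de β * dn a z)
    have t4 := t0 (ln a pos z w < 2 ^ (i + 1) ∧ 16 * dn a z ≤ 2 ^ i ∧ 16 * dn a w ≤ 2 ^ i ∧
        D0 z ≤ ka β G m * dn a z ∧ D0 w ≤ ka β G m * dn a w ∧ Fm a pos i w < de β * dn a w)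
    by_cases h0 : a z w = 0
    · have s1 : (if 2 ^ i ≤ ln a pos z w then a z w else 0) = 0 := by
        rw [h0]; simp
      have s2 : (if 2 ^ (i + 1) ≤ ln a pos z w then a z w else 0) = 0 := by
        rw [h0]; simp
      rw [s1, s2]
      linarith
    have h1 : a z w = 1 := (hD.dg.zo z w).resolve_left h0
    by_cases c1 : 2 ^ i ≤ ln a pos z w
    swap
    · rw [if_neg c1]
      have := t0 (2 ^ (i + 1) ≤ ln a pos z w)
      linarith
    rw [if_pos c1]
    by_cases c2 : 2 ^ (i + 1) ≤ ln a pos z w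
    · rw [if_pos c2]
      linarith
    rw [if_neg c2]
    push Not at c2
    by_cases cz : z ∈ Gd a pos D0 β G m h
    swap
    · rw [if_pos cz] at tz ⊢
      linarith
    by_cases cw : w ∈ Gd a pos D0 β G m h
    swap
    · rw [if_pos cw] at tw ⊢
      linarith
    have cz' := cz
    have cw' := cw
    unfold Gd at cz' cw'
    rw [mem_filter] at cz' cw'
    obtain ⟨_, z1, z2, z3, z4, z5⟩ := cz'
    obtain ⟨_, w1, w2, w3, w4, w5⟩ := cw'
    by_cases c3 : 16 * dn a z ≤ 2 ^ i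
    swap
    · have e : ln a pos z w < 2 ^ (i + 1) ∧ dlo β G m ≤ dn a z ∧ dlo β G m ≤ dn a w ∧
        (2 ^ i < 16 * dn a z ∨ 2 ^ i < 16 * dn a w) := ⟨c2, z2, w2, Or.inl (by omega)⟩
      rw [if_pos e] at t2 ⊢
      linarith
    by_cases c4 : 16 * dn a w ≤ 2 ^ i
    swap
    · have e : ln a pos z w < 2 ^ (i + 1) ∧ dlo β G m ≤ dn a z ∧ dlo β G m ≤ dn a w ∧
        (2 ^ i < 16 * dn a z ∨ 2 ^ i < 16 * dn a w) := ⟨c2, z2, w2, Or.inr (by omega)⟩
      rw [if_pos e] at t2 ⊢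
      linarith
    by_cases c5 : Fp a pos i z < de β * dn a z
    · have e : ln a pos z w < 2 ^ (i + 1) ∧ 16 * dn a z ≤ 2 ^ i ∧ 16 * dn a w ≤ 2 ^ i ∧
        D0 z ≤ ka β G m * dn a z ∧ D0 w ≤ ka β G m * dn a w ∧ Fp a pos i z < de β * dn a z :=
        ⟨c2, c3, c4, z1, w1, c5⟩
      rw [if_pos e] at t3 ⊢
      linarith
    by_cases c6 : Fm a pos i w < de β * dn a w
    · have e : ln a pos z w < 2 ^ (i + 1) ∧ 16 * dn a z ≤ 2 ^ i ∧ 16 * dn a w ≤ 2 ^ i ∧
        D0 z ≤ ka β G m * dn a z ∧ D0 w ≤ ka β G m * dn a w ∧ Fm a pos i w < de β * dn a w :=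
        ⟨c2, c3, c4, z1, w1, c6⟩
      rw [if_pos e] at t4 ⊢
      linarith
    push Not at c5 c6
    have c7 : (z, w) ∈ GA a pos D0 β G m i h := by
      unfold GA
      rw [mem_filter]
      exact ⟨mem_univ _, h0, c1, c2, cz, cw, c3, c4, c5, c6⟩
    rw [if_pos c7, h1]
    rw [h1] at tz tw t2 t3 t4
    linarith
  simp only [sum_add_distrib] at g7 g5
  rw [← g6] at g7
  linarith

end Pool.Agent.HSh
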