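import Pool.Agent.HSh.Targets

set_option autoImplicit false

/-!
# Few short arcs at vertices of big degree
-/

namespace Pool.Agent.HSh

open Finset Pool.Agent.HLow

lemma BIG_out {V : Type} [Fintype V] [DecidableEq V] {a : V → V → ℝ} {pos : V → ℕ}
    (h : Dg a pos) (x : V) (L : ℕ) (δ : ℝ) (hδ : 0 < δ) :
    ∑ w, (if ln a pos x w < L ∧ δ ≤ dn a w then a x w else 0) ≤ L / δ := by
  classical
  rw [le_div_iff₀ hδ, sum_mul]
  set S := univ.filter (fun w => th a pos x ≤ th a pos w ∧ th a pos w + dn a w ≤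
    th a pos x + L) with hS
  have h1 : ∀ w ∈ (univ : Finset V), (if ln a pos x w < L ∧ δ ≤ dn a w then a x w else 0) * δ ≤
      if w ∈ S then (dn a w : ℝ) else 0 := by
    intro w _
    have h0 : (0 : ℝ) ≤ if w ∈ S then (dn a w : ℝ) else 0 := by
      by_cases hw : w ∈ S
      · rw [if_pos hw]; positivity
      · rw [if_neg hw]
    by_cases c : ln a pos x w < L ∧ δ ≤ dn a w
    · rw [if_pos c]
      rcases h.zo x w with e | e
      · rw [e, zero_mul]
        exact h0
      · have hlt := h.lt x w (by rw [e]; exact one_ne_zero)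
        have h2 := th_add (a := a) hlt
        have h3 := ln_add (a := a) hlt
        have hw : w ∈ S := by
          rw [hS, mem_filter]
          refine ⟨mem_univ _, by omega, ?_⟩
          have := c.1
          omega
        rw [if_pos hw, e, one_mul]
        exact c.2
    · rw [if_neg c, zero_mul]
      exact h0
  have h2 := mass (a := a) h.inj (th a pos x) (th a pos x + L)
  have h3 : ((∑ u ∈ S, dn a u : ℕ) : ℝ) ≤ (L : ℝ) := by
    have : th a pos x + L - th a pos x = L := by omega
    rw [this] at h2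
    exact_mod_cast h2
  calc _ ≤ ∑ w, (if w ∈ S then (dn a w : ℝ) else 0) := sum_le_sum h1
    _ = ∑ w ∈ S, (dn a w : ℝ) := by simp
    _ ≤ L := by push_cast at h3; exact h3

lemma BIG_in {V : Type} [Fintype V] [DecidableEq V] {a : V → V → ℝ} {pos : V → ℕ}
    (h : Dg a pos) (x : V) (L : ℕ) (δ : ℝ) (hδ : 0 < δ) :
    ∑ z, (if ln a pos z x < L ∧ δ ≤ dn a z then a z x else 0) ≤ L / δ := by
  classical
  rw [le_div_iff₀ hδ, sum_mul]
  set S := univ.filter (fun w => th a pos x + dn a x - L ≤ th a pos w ∧ th a pos w + dn a w ≤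
    th a pos x + dn a x) with hS
  have h1 : ∀ w ∈ (univ : Finset V), (if ln a pos w x < L ∧ δ ≤ dn a w then a w x else 0) * δ ≤
      if w ∈ S then (dn a w : ℝ) else 0 := by
    intro w _
    have h0 : (0 : ℝ) ≤ if w ∈ S then (dn a w : ℝ) else 0 := by
      by_cases hw : w ∈ S
      · rw [if_pos hw]; positivity
      · rw [if_neg hw]
    by_cases c : ln a pos w x < L ∧ δ ≤ dn a w
    · rw [if_pos c]
      rcases h.zo w x with e | e
      · rw [e, zero_mul]
        exact h0
      · have hlt := h.lt w x (by rw [e]; exact one_ne_zero)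
        have h2 := th_add (a := a) hlt
        have h3 := ln_add (a := a) hlt
        have hw : w ∈ S := by
          rw [hS, mem_filter]
          refine ⟨mem_univ _, ?_, by omega⟩
          have := c.1
          omega
        rw [if_pos hw, e, one_mul]
        exact c.2
    · rw [if_neg c, zero_mul]
      exact h0
  have h2 := mass (a := a) h.inj (th a pos x + dn a x - L) (th a pos x + dn a x)
  have h3 : ((∑ u ∈ S, dn a u : ℕ) : ℝ) ≤ (L : ℝ) := by
    have h4 : th a pos x + dn a x - (th a pos x + dn a x - L) ≤ L := by omega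
    exact_mod_cast h2.trans h4
  calc _ ≤ ∑ w, (if w ∈ S then (dn a w : ℝ) else 0) := sum_le_sum h1
    _ = ∑ w ∈ S, (dn a w : ℝ) := by simp
    _ ≤ L := by push_cast at h3; exact h3

theorem p_BIG : T_BIG := by
  intro V _ _ a pos D0 β G m K i h hd hp
  classical
  have hm : 0 < m := by have := hp.m2; linarith
  have hG := hd.gpos
  have hb := hp.b0
  have hb1 := hp.b1
  set δ := dlo β G m with hδ
  have hδ0 : 0 < δ := by
    rw [hδ]
    unfold dlo
    positivity
  -- lower bound for the degree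
  have hδ1 : 2048 ≤ β * δ := by
    have h1 := hp.im
    have hK : (1 : ℝ) ≤ K := by exact_mod_cast hp.K1
    have h2 : 256 * G ≤ 256 * (K : ℝ) * G := by nlinarith
    have h3 : de β ^ 2 * (β * m) ≤ β ^ 2 * m / (384 * 10 ^ 0 * 1024) := by
      unfold de
      have h4 : β ^ 2 ≤ 1 := pow_le_one₀ hb.le hb1
      have h5 : β ^ 3 ≤ 1 := pow_le_one₀ hb.le hb1
      have h6 : (β ^ 2 / 10 ^ 7) ^ 2 * (β * m) = (β ^ 3) * (β ^ 2 * m) / 10 ^ 14 := by ring
      rw [h6]
      have h7 : 0 ≤ β ^ 2 * m := by positivity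
      have h8 : β ^ 3 * (β ^ 2 * m) ≤ 1 * (β ^ 2 * m) := mul_le_mul_of_nonneg_right h5 h7
      rw [div_le_div_iff₀ (by positivity) (by positivity)]
      nlinarith
    have h9 : 98304 * G ≤ β ^ 2 * m := by
      have h10 : 256 * G ≤ β ^ 2 * m / (384 * 10 ^ 0 * 1024) := by linarith
      rw [le_div_iff₀ (by positivity)] at h10
      nlinarith
    rw [hδ]
    unfold dlo
    rw [mul_div_assoc', le_div_iff₀ (by positivity)]
    nlinarith
  set X := univ.filter (fun x => 2 ^ i < 16 * dn a x) with hX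
  have hXc : (X.card : ℝ) * 2 ^ i ≤ 32 * m := by
    have h1 : ∑ x ∈ X, ((2 : ℝ) ^ i) ≤ ∑ x ∈ X, 16 * (dn a x : ℝ) := by
      apply sum_le_sum
      intro x hx
      rw [hX, mem_filter] at hx
      exact_mod_cast hx.2.le
    have h2 : ∑ x ∈ X, 16 * (dn a x : ℝ) ≤ ∑ x, 16 * (dn a x : ℝ) :=
      sum_le_sum_of_subset_of_nonneg (filter_subset _ _) (fun x _ _ => by positivity)
    rw [← mul_sum, ← mul_sum, hd.sumdn] at h2
    rw [sum_const, nsmul_eq_mul, ← mul_sum] at h1
    linarith
  have hterm : ∀ z ∈ (univ : Finset V), ∀ w ∈ (univ : Finset V),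
      (if ln a pos z w < 2 ^ (i + 1) ∧ δ ≤ dn a z ∧ δ ≤ dn a w ∧
        (2 ^ i < 16 * dn a z ∨ 2 ^ i < 16 * dn a w) then a z w else 0) ≤
      (if z ∈ X then (if ln a pos z w < 2 ^ (i + 1) ∧ δ ≤ dn a w then a z w else 0) else 0) +
      (if w ∈ X then (if ln a pos z w < 2 ^ (i + 1) ∧ δ ≤ dn a z then a z w else 0) else 0) := by
    intro z _ w _
    have ha : 0 ≤ a z w := by rcases hd.dg.zo z w with e | e <;> rw [e] <;> norm_num
    have t1 : 0 ≤ (if z ∈ X then
        (if ln a pos z w < 2 ^ (i + 1) ∧ δ ≤ dn a w then a z w else 0) else 0) := by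
      split_ifs <;> first | exact ha | exact le_rfl
    have t2 : 0 ≤ (if w ∈ X then
        (if ln a pos z w < 2 ^ (i + 1) ∧ δ ≤ dn a z then a z w else 0) else 0) := by
      split_ifs <;> first | exact ha | exact le_rfl
    by_cases hc : ln a pos z w < 2 ^ (i + 1) ∧ δ ≤ dn a z ∧ δ ≤ dn a w ∧
        (2 ^ i < 16 * dn a z ∨ 2 ^ i < 16 * dn a w)
    · rw [if_pos hc]
      obtain ⟨c1, c2, c3, c4⟩ := hc
      rcases c4 with c4 | c4
      · have hz : z ∈ X := by rw [hX, mem_filter]; exact ⟨mem_univ _, c4⟩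
        have e5 : (if z ∈ X then
          (if ln a pos z w < 2 ^ (i + 1) ∧ δ ≤ dn a w then a z w else 0) else 0) = a z w := by
          rw [if_pos hz, if_pos (And.intro c1 c3)]
        rw [e5]
        linarith
      · have hz : w ∈ X := by rw [hX, mem_filter]; exact ⟨mem_univ _, c4⟩
        have e5 : (if w ∈ X then
          (if ln a pos z w < 2 ^ (i + 1) ∧ δ ≤ dn a z then a z w else 0) else 0) = a z w := by
          rw [if_pos hz, if_pos (And.intro c1 c2)]
        rw [e5]
        linarith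
    · rw [if_neg hc]
      linarith
  have hL : ((2 ^ (i + 1) : ℕ) : ℝ) = 2 * 2 ^ i := by push_cast; ring
  have hs1 : ∑ z, ∑ w, (if z ∈ X then
      (if ln a pos z w < 2 ^ (i + 1) ∧ δ ≤ dn a w then a z w else 0) else 0) ≤
      X.card * (2 * 2 ^ i / δ) := by
    have e1 : ∀ z, ∑ w, (if z ∈ X then
      (if ln a pos z w < 2 ^ (i + 1) ∧ δ ≤ dn a w then a z w else 0) else 0) =
      if z ∈ X then ∑ w, (if ln a pos z w < 2 ^ (i + 1) ∧ δ ≤ dn a w then a z w else 0)
        else 0 := by
      intro z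
      by_cases hz : z ∈ X
      · simp only [hz, if_true]
      · simp only [hz, if_false, sum_const_zero]
    rw [sum_congr rfl (fun z _ => e1 z), ← sum_filter, ← nsmul_eq_mul]
    have e2 : univ.filter (fun z => z ∈ X) = X := by ext z; simp
    rw [e2]
    apply sum_le_card_nsmul
    intro z _
    have := BIG_out hd.dg z (2 ^ (i + 1)) δ hδ0
    rw [hL] at this
    exact this
  have hs2 : ∑ z, ∑ w, (if w ∈ X then
      (if ln a pos z w < 2 ^ (i + 1) ∧ δ ≤ dn a z then a z w else 0) else 0) ≤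
      X.card * (2 * 2 ^ i / δ) := by
    rw [sum_comm]
    have e1 : ∀ w, ∑ z, (if w ∈ X then
      (if ln a pos z w < 2 ^ (i + 1) ∧ δ ≤ dn a z then a z w else 0) else 0) =
      if w ∈ X then ∑ z, (if ln a pos z w < 2 ^ (i + 1) ∧ δ ≤ dn a z then a z w else 0)
        else 0 := by
      intro z
      by_cases hz : z ∈ X
      · simp only [hz, if_true]
      · simp only [hz, if_false, sum_const_zero]
    rw [sum_congr rfl (fun z _ => e1 z), ← sum_filter, ← nsmul_eq_mul]
    have e2 : univ.filter (fun z => z ∈ X) = X := by ext z; simp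
    rw [e2]
    apply sum_le_card_nsmul
    intro z _
    have := BIG_in hd.dg z (2 ^ (i + 1)) δ hδ0
    rw [hL] at this
    exact this
  have hfin : 2 * (X.card * (2 * 2 ^ i / δ)) ≤ 1 / 16 * (β * m) := by
    have e1 : 2 * ((X.card : ℝ) * (2 * 2 ^ i / δ)) = 4 * (X.card * 2 ^ i) / δ := by ring
    rw [e1, div_le_iff₀ hδ0]
    have e2 : 128 * m ≤ 1 / 16 * m * (β * δ) := by nlinarith
    nlinarith
  calc _ ≤ ∑ z, ∑ w, ((if z ∈ X then
        (if ln a pos z w < 2 ^ (i + 1) ∧ δ ≤ dn a w then a z w else 0) else 0) +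
      (if w ∈ X then
        (if ln a pos z w < 2 ^ (i + 1) ∧ δ ≤ dn a z then a z w else 0) else 0)) :=
        sum_le_sum fun z hz => sum_le_sum fun w hw => hterm z hz w hw
    _ ≤ 2 * (X.card * (2 * 2 ^ i / δ)) := by
        simp only [sum_add_distrib]
        linarith
    _ ≤ _ := hfin

end Pool.Agent.HSh
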