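import Pool.Agent.HSh.Targets

set_option autoImplicit false

/-!
# Norm of the commutator
-/

namespace Pool.Agent.HSh

open Finset Pool.Agent.HLow

theorem p_CMM : T_CMM := by
  intro V _ _ A D s lam v h g
  set c : V → V → ℝ := fun i j => (lam i - lam j) * gm v g i j with hc
  have key : ∀ u w, NN A D s u w * (g w - g u) = ∑ i, (∑ j, c i j * v j w) * v i u := by
    intro u w
    have h1 : ∀ i, (∑ j, c i j * v j w) =
        lam i * (g w * v i w) - ∑ j, lam j * gm v g i j * v j w := by
      intro i
      rw [← h.gexp g i w, mul_sum, ← sum_sub_distrib]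
      exact sum_congr rfl (fun j _ => by simp only [hc]; ring)
    have h2 : ∑ i, lam i * (g w * v i w) * v i u = g w * NN A D s u w := by
      rw [h.dec u w, mul_sum]
      exact sum_congr rfl (fun i _ => by ring)
    have h3 : ∑ i, (∑ j, lam j * gm v g i j * v j w) * v i u = g u * NN A D s u w := by
      have e1 : ∀ i, (∑ j, lam j * gm v g i j * v j w) * v i u =
          ∑ j, lam j * v j w * (gm v g j i * v i u) := by
        intro i
        rw [sum_mul]
        exact sum_congr rfl (fun j _ => by rw [gm_symm v g i j]; ring)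
      rw [sum_congr rfl (fun i _ => e1 i), sum_comm]
      have e2 : ∀ j, ∑ i, lam j * v j w * (gm v g j i * v i u) =
          lam j * v j w * (g u * v j u) := by
        intro j
        rw [← mul_sum, h.gexp g j u]
      rw [sum_congr rfl (fun j _ => e2 j), h.dec u w, mul_sum]
      exact sum_congr rfl (fun j _ => by ring)
    have h4 : ∀ i, (∑ j, c i j * v j w) * v i u =
        lam i * (g w * v i w) * v i u - (∑ j, lam j * gm v g i j * v j w) * v i u := by
      intro i
      rw [h1 i]
      ring
    rw [sum_congr rfl (fun i _ => h4 i), sum_sub_distrib, h2, h3]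
    ring
  have h5 : ∀ u w, NN A D s u w ^ 2 * (g u - g w) ^ 2 =
      (∑ i, (∑ j, c i j * v j w) * v i u) ^ 2 := by
    intro u w
    rw [← key u w]
    ring
  have h6 : ∑ u, ∑ w, NN A D s u w ^ 2 * (g u - g w) ^ 2 = ∑ i, ∑ j, c i j ^ 2 := by
    rw [sum_congr rfl (fun u _ => sum_congr rfl (fun w _ => h5 u w)), sum_comm]
    rw [sum_congr rfl (fun w _ => h.pars (fun i => ∑ j, c i j * v j w)), sum_comm]
    exact sum_congr rfl (fun i _ => h.pars (fun j => c i j))
  rw [h6]
  exact sum_congr rfl (fun i _ => sum_congr rfl (fun j _ => by simp only [hc]; ring))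

end Pool.Agent.HSh
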