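import Mathlib
import Pool.Agent.HSh.Targets

set_option autoImplicit false

namespace Pool.Agent.HSh

open Finset Pool.Agent.HLow

namespace CON_

/-- everything in terms of `x = m ^ (ε / 100)` -/
lemma core {ε G m β : ℝ} {q i h : ℕ} (hm : 2 ≤ m) (hG : 1 ≤ G)
    (hGm : G ≤ m ^ (5 / 7 - ε : ℝ)) (hβ : 0 < β) (hβx : 1 ≤ β * m ^ (ε / 100 : ℝ))
    (hx40 : (10 : ℝ) ^ 40 ≤ m ^ (ε / 100 : ℝ))
    (hlog : 16 * (8 * Real.log m + 10) ≤ m ^ (ε / 100 : ℝ)) (hq : (2 : ℝ) ^ q ≤ m ^ ε)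
    (hhq : h ≤ i + q) (hiβ : 2 ^ i * β ≤ 4 * Real.sqrt (G * m)) :
    0 ≤ ka β G m ∧ (2 : ℝ) ^ (h + 2) ≤ 4 * (m ^ (ε / 100 : ℝ)) ^ 100 * 2 ^ i ∧
      ka β G m ^ 3 * 2 ^ (h + 2) * (m ^ (ε / 100 : ℝ)) ^ 242 ≤ 16 := by
  have hm0 : 0 < m := by linarith
  set x : ℝ := m ^ (ε / 100 : ℝ) with hx
  have hxpos : 0 < x := Real.rpow_pos_of_pos hm0 _
  have hx1 : 1 ≤ x := le_trans (by norm_num) hx40
  have hM : m ^ ε = x ^ 100 := by
    rw [hx, ← Real.rpow_natCast, ← Real.rpow_mul hm0.le]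
    congr 1; push_cast; ring
  have hG7 : G ^ 7 * x ^ 700 ≤ m ^ 5 := by
    have h1 : G ^ 7 ≤ (m ^ (5 / 7 - ε : ℝ)) ^ 7 := pow_le_pow_left₀ (by linarith) hGm 7
    have h2 : (m ^ (5 / 7 - ε : ℝ)) ^ 7 * x ^ 700 = m ^ 5 := by
      have e1 : (m ^ (5 / 7 - ε : ℝ)) ^ 7 = m ^ ((5 / 7 - ε) * 7 : ℝ) := by
        rw [← Real.rpow_natCast, ← Real.rpow_mul hm0.le]; norm_num
      have e2 : x ^ 700 = m ^ (ε / 100 * 700 : ℝ) := by
        rw [hx, ← Real.rpow_natCast, ← Real.rpow_mul hm0.le]; norm_num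
      have e3 : m ^ 5 = m ^ (5 : ℝ) := by
        rw [← Real.rpow_natCast]; norm_num
      rw [e1, e2, e3, ← Real.rpow_add hm0]
      congr 1; ring
    calc G ^ 7 * x ^ 700 ≤ (m ^ (5 / 7 - ε : ℝ)) ^ 7 * x ^ 700 :=
          mul_le_mul_of_nonneg_right h1 (by positivity)
      _ = m ^ 5 := h2
  set S : ℝ := Real.sqrt (G * m) with hS
  have hGm0 : 0 < G * m := by positivity
  have hS0 : 0 < S := Real.sqrt_pos.2 hGm0
  have hS2 : S ^ 2 = G * m := Real.sq_sqrt hGm0.le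
  have hlogm : 0 ≤ Real.log m := Real.log_nonneg (by linarith)
  have hR0 : 0 ≤ R0 G m := by unfold R0; positivity
  have hR : R0 G m ≤ (8 * Real.log m + 10) * G := by unfold R0; nlinarith
  have hk0 : 0 ≤ ka β G m := by unfold ka; positivity
  have hk : ka β G m ≤ x ^ 2 * G / m := by
    unfold ka
    rw [div_le_div_iff₀ (by positivity) hm0]
    have h1 : 16 * R0 G m ≤ x * G := by
      calc 16 * R0 G m ≤ 16 * ((8 * Real.log m + 10) * G) := by linarith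
        _ = (16 * (8 * Real.log m + 10)) * G := by ring
        _ ≤ x * G := mul_le_mul_of_nonneg_right hlog (by linarith)
    have h2 : x * G * m ≤ x ^ 2 * G * (β * m) := by
      have : x * G * m * 1 ≤ x * G * m * (β * x) :=
        mul_le_mul_of_nonneg_left hβx (by positivity)
      nlinarith
    nlinarith
  -- the length
  have hT : (0 : ℝ) < 2 ^ i := by positivity
  have hL : (2 : ℝ) ^ (h + 2) ≤ 4 * x ^ 100 * 2 ^ i := by
    have h1 : (2 : ℝ) ^ (h + 2) ≤ 2 ^ (i + q + 2) := pow_le_pow_right₀ (by norm_num) (by omega)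
    have h2 : (2 : ℝ) ^ (i + q + 2) = 4 * 2 ^ q * 2 ^ i := by rw [pow_add, pow_add]; ring
    rw [h2] at h1
    refine h1.trans ?_
    rw [hM] at hq
    have := mul_le_mul_of_nonneg_right hq hT.le
    nlinarith
  have hTi : (2 : ℝ) ^ i ≤ 4 * S * x := by
    have h1 : (2 : ℝ) ^ i * 1 ≤ 2 ^ i * (β * x) := mul_le_mul_of_nonneg_left hβx hT.le
    have h2 : (2 : ℝ) ^ i * β * x ≤ 4 * S * x := mul_le_mul_of_nonneg_right hiβ hxpos.le
    nlinarith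
  -- the main bound
  have hgs : G ^ 3 * S / m ^ 3 * x ^ 350 ≤ 1 := by
    have h0 : 0 ≤ G ^ 3 * S / m ^ 3 * x ^ 350 := by positivity
    have h1 : (G ^ 3 * S / m ^ 3 * x ^ 350) ^ 2 ≤ 1 := by
      have e : (G ^ 3 * S / m ^ 3 * x ^ 350) ^ 2 = G ^ 7 * x ^ 700 / m ^ 5 := by
        have : (G ^ 3 * S / m ^ 3 * x ^ 350) ^ 2 = G ^ 6 * S ^ 2 / m ^ 6 * x ^ 700 := by ring
        rw [this, hS2]
        field_simp
      rw [e, div_le_one (by positivity)]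
      exact hG7
    nlinarith
  refine ⟨hk0, hL, ?_⟩
  have hk3 : ka β G m ^ 3 ≤ (x ^ 2 * G / m) ^ 3 := pow_le_pow_left₀ hk0 hk 3
  have hL2 : (2 : ℝ) ^ (h + 2) ≤ 4 * x ^ 100 * (4 * S * x) :=
    hL.trans (mul_le_mul_of_nonneg_left hTi (by positivity))
  have h5 : ka β G m ^ 3 * 2 ^ (h + 2) ≤ (x ^ 2 * G / m) ^ 3 * (4 * x ^ 100 * (4 * S * x)) :=
    mul_le_mul hk3 hL2 (by positivity) (by positivity)
  have h6 : (x ^ 2 * G / m) ^ 3 * (4 * x ^ 100 * (4 * S * x)) * x ^ 242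
      = 16 * (G ^ 3 * S / m ^ 3 * x ^ 349) := by
    field_simp
    ring
  have h7 : G ^ 3 * S / m ^ 3 * x ^ 349 ≤ 1 := by
    refine le_trans ?_ hgs
    apply mul_le_mul_of_nonneg_left _ (by positivity)
    exact pow_le_pow_right₀ hx1 (by norm_num)
  calc ka β G m ^ 3 * 2 ^ (h + 2) * x ^ 242
      ≤ (x ^ 2 * G / m) ^ 3 * (4 * x ^ 100 * (4 * S * x)) * x ^ 242 :=
        mul_le_mul_of_nonneg_right h5 (by positivity)
    _ = 16 * (G ^ 3 * S / m ^ 3 * x ^ 349) := h6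
    _ ≤ 16 * 1 := mul_le_mul_of_nonneg_left h7 (by norm_num)
    _ = 16 := by norm_num

end CON_

open CON_ in
theorem p_CON : T_CON := by
  intro ε G m β K q i h hε hε1 hm hG hGm hβ hβ1 hβx hK hKx hx40 hlog hq hih hhq hiβ
  obtain ⟨hk0, hL, hW⟩ := core hm hG hGm hβ hβx hx40 hlog hq hhq hiβ
  set x : ℝ := m ^ (ε / 100 : ℝ) with hx
  have hxpos : 0 < x := Real.rpow_pos_of_pos (by linarith) _
  have hT : (0 : ℝ) < 2 ^ i := by positivity
  have hsq : Real.sqrt (ka β G m ^ 3 * 2 ^ (h + 2)) ≤ 4 / x ^ 121 := by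
    rw [Real.sqrt_le_left (by positivity), div_pow, le_div_iff₀ (by positivity)]
    calc ka β G m ^ 3 * 2 ^ (h + 2) * (x ^ 121) ^ 2 = ka β G m ^ 3 * 2 ^ (h + 2) * x ^ 242 := by
          ring
      _ ≤ 4 ^ 2 := by linarith
  have hL1 : 205824 * (K : ℝ) * 2 ^ (h + 2) * Real.sqrt (ka β G m ^ 3 * 2 ^ (h + 2))
      ≤ 205824 * x * (4 * x ^ 100 * 2 ^ i) * (4 / x ^ 121) := by
    apply mul_le_mul _ hsq (Real.sqrt_nonneg _) (by positivity)
    apply mul_le_mul _ hL (by positivity) (by positivity)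
    linarith
  have hL2 : 205824 * x * (4 * x ^ 100 * 2 ^ i) * (4 / x ^ 121) = 3293184 / x ^ 20 * 2 ^ i := by
    field_simp
    ring
  have hbx : (1 : ℝ) / x ≤ β := by rw [div_le_iff₀ hxpos]; exact hβx
  have hR : (1 / x) ^ 5 / 10 ^ 14 * 2 ^ i ≤ β * de β ^ 2 * 2 ^ i := by
    apply mul_le_mul_of_nonneg_right _ hT.le
    have h1 : (1 / x) ^ 5 ≤ β ^ 5 := pow_le_pow_left₀ (by positivity) hbx 5
    have h2 : β * de β ^ 2 = β ^ 5 / 10 ^ 14 := by unfold de; ring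
    rw [h2]
    exact div_le_div_of_nonneg_right h1 (by norm_num)
  refine lt_of_le_of_lt (hL1.trans_eq hL2) (lt_of_lt_of_le ?_ hR)
  apply mul_lt_mul_of_pos_right _ hT
  rw [one_div, inv_pow, div_lt_div_iff₀ (by positivity) (by norm_num), inv_mul_eq_div,
    lt_div_iff₀ (by positivity)]
  have h15 : (10 : ℝ) ^ 40 ≤ x ^ 15 := by
    calc (10 : ℝ) ^ 40 ≤ x := hx40
      _ = x ^ 1 := (pow_one x).symm
      _ ≤ x ^ 15 := pow_le_pow_right₀ (le_trans (by norm_num) hx40) (by norm_num)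
  have e : x ^ 20 = x ^ 15 * x ^ 5 := by ring
  rw [e]
  apply mul_lt_mul_of_pos_right _ (by positivity)
  refine lt_of_lt_of_le ?_ h15
  norm_num

end Pool.Agent.HSh
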