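import Pool.Agent.HSh.Targets

set_option autoImplicit false
set_option linter.unusedSectionVars false

namespace Pool.Agent.HSh

open Finset Pool.Agent.HLow

section CRS

variable {V : Type} [Fintype V] [DecidableEq V]

lemma CRS_swap (F : V → V → V → ℝ) :
    ∑ i, ∑ u, ∑ w, F i u w = ∑ u, ∑ w, ∑ i, F i u w := by
  rw [sum_comm]
  exact sum_congr rfl (fun u _ => sum_comm)

/-- factorisation of a fourfold sum -/
lemma CRS_fac (M : V → V → ℝ) (f g : V → V → V → ℝ) :
    ∑ i, ∑ j, ∑ u, ∑ w, M u w * (f j u w * g i u w)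
      = ∑ u, ∑ w, M u w * ((∑ j, f j u w) * ∑ i, g i u w) := by
  rw [sum_congr rfl (fun i _ => CRS_swap (fun j u w => M u w * (f j u w * g i u w))),
    CRS_swap (fun i u w => ∑ j, M u w * (f j u w * g i u w))]
  refine sum_congr rfl (fun u _ => sum_congr rfl (fun w _ => ?_))
  rw [sum_mul_sum, mul_sum, sum_comm]
  exact sum_congr rfl (fun j _ => by rw [mul_sum])

lemma CRS_one {A : V → V → ℝ} {D s lam : V → ℝ} {v : V → V → ℝ}
    (hk : ∀ i p q j : V, ∑ k, lam k * (tt s v i p k * tt s v q j k)
      = ∑ u, ∑ w, MM A D u w * ((v i u * v p u) * (v q w * v j w)))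
    (S W P : V → V → ℝ) (hP : ∀ j p, lam j * S j p = P j p) (i j : V) :
    ∑ k, lam i * lam j * lam k
      * ((∑ p, S j p * tt s v i p k) * (∑ q, W i q * tt s v q j k))
    = ∑ u, ∑ w, MM A D u w * ((∑ p, P j p * (v p u * v j w))
        * ∑ q, lam i * W i q * (v i u * v q w)) := by
  have h1 : ∀ k, lam i * lam j * lam k
      * ((∑ p, S j p * tt s v i p k) * (∑ q, W i q * tt s v q j k))
      = ∑ q, ∑ p, (P j p * (lam i * W i q)) * (lam k * (tt s v i p k * tt s v q j k)) := by
    intro k
    rw [sum_mul_sum]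
    simp only [mul_sum]
    rw [sum_comm]
    refine sum_congr rfl (fun q _ => ?_)
    refine sum_congr rfl (fun p _ => ?_)
    rw [← hP j p]
    ring
  rw [sum_congr rfl (fun k _ => h1 k),
    CRS_swap (fun k q p => (P j p * (lam i * W i q)) * (lam k * (tt s v i p k * tt s v q j k))),
    ← CRS_fac]
  refine sum_congr rfl (fun q _ => sum_congr rfl (fun p _ => ?_))
  rw [← mul_sum, hk i p q j, mul_sum]
  refine sum_congr rfl (fun u _ => ?_)
  rw [mul_sum]
  refine sum_congr rfl (fun w _ => ?_)
  ring

end CRS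

theorem p_CRS (h1 : T_KSUM) : T_CRS := by
  intro V _ _ A D s lam v h g S W P hP hsym hW
  have hk := h1 V A D s lam v h
  set B : V → V → ℝ := fun u w => ∑ j, ∑ p, P j p * (v p u * v j w) with hB
  set C : V → V → ℝ := fun u w => ∑ i, ∑ q, lam i * W i q * (v i u * v q w) with hC
  -- first step
  have e1 : ∑ i, ∑ j, ∑ k, lam i * lam j * lam k
      * ((∑ p, S j p * tt s v i p k) * (∑ q, W i q * tt s v q j k))
      = ∑ u, ∑ w, MM A D u w * (B u w * C u w) := by
    rw [sum_congr rfl (fun i _ => sum_congr rfl (fun j _ => CRS_one hk S W P hP i j))]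
    exact CRS_fac (MM A D) (fun j u w => ∑ p, P j p * (v p u * v j w))
      (fun i u w => ∑ q, lam i * W i q * (v i u * v q w))
  -- symmetry of `B`
  have e2 : ∀ u w, B w u = B u w := by
    intro u w
    rw [hB]
    simp only
    rw [sum_comm]
    refine sum_congr rfl (fun j _ => sum_congr rfl (fun p _ => ?_))
    rw [hsym p j]
    ring
  -- `C + C^T`
  have e3 : ∀ u w, C u w + C w u = NN A D s u w * (g u + g w) := by
    intro u w
    have e31 : C w u = ∑ i, ∑ q, lam q * W q i * (v i u * v q w) := by
      rw [hC]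
      simp only
      rw [sum_comm]
      exact sum_congr rfl (fun i _ => sum_congr rfl (fun q _ => by ring))
    have e32 : C u w + C w u = ∑ i, ∑ q, (lam i * gm v g i q * (v i u * v q w)
        + lam q * gm v g i q * (v i u * v q w)) := by
      rw [e31, hC, ← sum_add_distrib]
      refine sum_congr rfl (fun i _ => ?_)
      rw [← sum_add_distrib]
      refine sum_congr rfl (fun q _ => ?_)
      have := hW i q
      linear_combination (v i u * v q w) * this
    have e33 : ∑ i, ∑ q, lam i * gm v g i q * (v i u * v q w) = NN A D s u w * g w := by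
      rw [h.dec, sum_mul]
      refine sum_congr rfl (fun i _ => ?_)
      have : ∀ q, lam i * gm v g i q * (v i u * v q w)
          = lam i * v i u * (gm v g i q * v q w) := fun q => by ring
      rw [sum_congr rfl (fun q _ => this q), ← mul_sum, h.gexp]
      ring
    have e34 : ∑ i, ∑ q, lam q * gm v g i q * (v i u * v q w) = NN A D s u w * g u := by
      rw [h.dec, sum_mul, sum_comm]
      refine sum_congr rfl (fun q _ => ?_)
      have : ∀ i, lam q * gm v g i q * (v i u * v q w)
          = lam q * v q w * (gm v g q i * v i u) := fun i => by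
        rw [gm_symm v g i q]; ring
      rw [sum_congr rfl (fun i _ => this i), ← mul_sum, h.gexp]
      ring
    rw [e32, sum_congr rfl (fun i _ => sum_add_distrib), sum_add_distrib, e33, e34]
    ring
  -- averaging
  have e4 : ∑ u, ∑ w, MM A D u w * (B u w * C u w)
      = ∑ u, ∑ w, MM A D u w * (B u w * C w u) := by
    rw [sum_comm]
    refine sum_congr rfl (fun w _ => sum_congr rfl (fun u _ => ?_))
    rw [MM_symm h.adj D u w, e2 w u]
  have e5 : 2 * ∑ u, ∑ w, MM A D u w * (B u w * C u w)
      = ∑ u, ∑ w, (NN A D s u w * (B u w * g u) + NN A D s u w * (B u w * g w))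
        + ∑ u, 2 * (B u u * g u) := by
    have e51 : 2 * ∑ u, ∑ w, MM A D u w * (B u w * C u w)
        = ∑ u, ∑ w, MM A D u w * (B u w * C u w) + ∑ u, ∑ w, MM A D u w * (B u w * C w u) := by
      rw [← e4]; ring
    rw [e51, ← sum_add_distrib, ← sum_add_distrib]
    refine sum_congr rfl (fun u _ => ?_)
    rw [← sum_add_distrib]
    have e52 : ∀ w, MM A D u w * (B u w * C u w) + MM A D u w * (B u w * C w u)
        = (NN A D s u w * (B u w * g u) + NN A D s u w * (B u w * g w))
          + if u = w then B u w * (g u + g w) else 0 := by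
      intro w
      have e53 := h.MN u w
      have e54 := e3 u w
      have e55 : MM A D u w * (B u w * C u w) + MM A D u w * (B u w * C w u)
          = (MM A D u w * NN A D s u w) * (B u w * (g u + g w)) := by
        linear_combination (MM A D u w * B u w) * e54
      rw [e55, e53]
      split_ifs <;> ring
    rw [sum_congr rfl (fun w _ => e52 w), sum_add_distrib]
    congr 1
    simp
    ring
  -- the three terms
  have e6 : ∑ u, ∑ w, NN A D s u w * (B u w * g u)
      = ∑ j, ∑ p, P j p * (lam j * gm v g p j) := by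
    have e61 : ∀ u w, NN A D s u w * (B u w * g u)
        = ∑ j, ∑ p, (P j p * (g u * v p u)) * (NN A D s u w * v j w) := by
      intro u w
      rw [hB]
      simp only [mul_sum, sum_mul]
      exact sum_congr rfl (fun j _ => sum_congr rfl (fun p _ => by ring))
    rw [sum_congr rfl (fun u _ => sum_congr rfl (fun w _ => e61 u w))]
    have e62 : ∀ u, ∑ w, ∑ j, ∑ p, (P j p * (g u * v p u)) * (NN A D s u w * v j w)
        = ∑ j, ∑ p, P j p * (lam j * (g u * (v p u * v j u))) := by
      intro u
      rw [CRS_swap (fun w j p => (P j p * (g u * v p u)) * (NN A D s u w * v j w))]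
      refine sum_congr rfl (fun j _ => sum_congr rfl (fun p _ => ?_))
      rw [← mul_sum, h.eig]
      ring
    rw [sum_congr rfl (fun u _ => e62 u),
      CRS_swap (fun u j p => P j p * (lam j * (g u * (v p u * v j u))))]
    refine sum_congr rfl (fun j _ => sum_congr rfl (fun p _ => ?_))
    rw [← mul_sum, ← mul_sum]
    rfl
  have e7 : ∑ u, ∑ w, NN A D s u w * (B u w * g w)
      = ∑ j, ∑ p, P j p * (lam j * gm v g p j) := by
    rw [sum_comm, ← e6]
    refine sum_congr rfl (fun w _ => sum_congr rfl (fun u _ => ?_))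
    rw [NN_symm h.adj D s u w, e2 w u]
  have e8 : ∑ u, 2 * (B u u * g u) = ∑ j, ∑ p, P j p * (2 * gm v g p j) := by
    have e81 : ∀ u, 2 * (B u u * g u)
        = ∑ j, ∑ p, P j p * (2 * (g u * (v p u * v j u))) := by
      intro u
      rw [hB]
      simp only [mul_sum, sum_mul]
      exact sum_congr rfl (fun j _ => sum_congr rfl (fun p _ => by ring))
    rw [sum_congr rfl (fun u _ => e81 u),
      CRS_swap (fun u j p => P j p * (2 * (g u * (v p u * v j u))))]
    refine sum_congr rfl (fun j _ => sum_congr rfl (fun p _ => ?_))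
    rw [← mul_sum, ← mul_sum]
    rfl
  -- symmetrisation
  have e9 : ∑ j, ∑ p, P j p * (lam j * gm v g p j) = ∑ j, ∑ p, P j p * (lam p * gm v g p j) := by
    rw [sum_comm]
    refine sum_congr rfl (fun j _ => sum_congr rfl (fun p _ => ?_))
    rw [hsym p j, gm_symm v g j p]
  have e10 : ∑ u, ∑ w, MM A D u w * (B u w * C u w)
      = ∑ i, ∑ j, P i j * ((lam i + lam j) / 2 + 1) * gm v g i j := by
    have e11 : 2 * ∑ u, ∑ w, MM A D u w * (B u w * C u w)
        = ∑ j, ∑ p, P j p * (lam j * gm v g p j) + ∑ j, ∑ p, P j p * (lam p * gm v g p j)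
          + ∑ j, ∑ p, P j p * (2 * gm v g p j) := by
      rw [e5, sum_congr rfl (fun u _ => sum_add_distrib), sum_add_distrib, e7, e6, e8]
      rw [← e9]
    have e12 : ∑ j, ∑ p, P j p * (lam j * gm v g p j) + ∑ j, ∑ p, P j p * (lam p * gm v g p j)
          + ∑ j, ∑ p, P j p * (2 * gm v g p j)
        = 2 * ∑ i, ∑ j, P i j * ((lam i + lam j) / 2 + 1) * gm v g i j := by
      rw [← sum_add_distrib, ← sum_add_distrib, mul_sum]
      refine sum_congr rfl (fun j _ => ?_)
      rw [← sum_add_distrib, ← sum_add_distrib, mul_sum]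
      refine sum_congr rfl (fun p _ => ?_)
      rw [gm_symm v g p j]
      ring
    linarith
  rw [e1, e10]

end Pool.Agent.HSh
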