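import Mathlib
import Pool.Agent.HSh.Targets

set_option autoImplicit false

namespace Pool.Agent.HSh

open Finset Pool.Agent.HLow

theorem p_CSF : T_CSF := by
  intro V _ _ A D hs hQ φ y
  set B : ℝ := ∑ u, φ u * (∑ x, A u x * y x + D u * y u) with hB
  set Qy : ℝ := ∑ u, D u * y u ^ 2 + ∑ u, ∑ v, A u v * (y u * y v) with hQy
  set Qφ : ℝ := ∑ u, D u * φ u ^ 2 + ∑ u, ∑ v, A u v * (φ u * φ v) with hQφ
  have hB2 : B = ∑ u, ∑ v, A u v * (φ u * y v) + ∑ u, D u * (φ u * y u) := by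
    rw [hB, ← sum_add_distrib]
    apply sum_congr rfl
    intro u _
    rw [mul_add, mul_sum]
    congr 1
    · exact sum_congr rfl (fun v _ => by ring)
    · ring
  have hB3 : ∑ u, ∑ v, A u v * (y u * φ v) = ∑ u, ∑ v, A u v * (φ u * y v) := by
    rw [sum_comm]
    refine sum_congr rfl (fun u _ => sum_congr rfl (fun v _ => ?_))
    rw [hs v u]; ring
  have hexp : ∀ s : ℝ, 0 ≤ Qy * (s * s) + (2 * B) * s + Qφ := by
    intro s
    have h := hQ (fun u => φ u + s * y u)
    have e1 : ∑ u, D u * (φ u + s * y u) ^ 2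
        = ∑ u, D u * φ u ^ 2 + 2 * s * ∑ u, D u * (φ u * y u) + s * s * ∑ u, D u * y u ^ 2 := by
      rw [mul_sum, mul_sum, ← sum_add_distrib, ← sum_add_distrib]
      exact sum_congr rfl (fun u _ => by ring)
    have e2 : ∑ u, ∑ v, A u v * ((φ u + s * y u) * (φ v + s * y v))
        = ∑ u, ∑ v, A u v * (φ u * φ v) + s * ∑ u, ∑ v, A u v * (φ u * y v)
          + s * ∑ u, ∑ v, A u v * (y u * φ v) + s * s * ∑ u, ∑ v, A u v * (y u * y v) := by
      simp only [mul_sum, ← sum_add_distrib]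
      exact sum_congr rfl (fun u _ => sum_congr rfl (fun v _ => by ring))
    have h' : 0 ≤ ∑ u, D u * (φ u + s * y u) ^ 2
        + ∑ u, ∑ v, A u v * ((φ u + s * y u) * (φ v + s * y v)) := h
    rw [e1, e2, hB3] at h'
    rw [hB2, hQy, hQφ]
    linarith
  have h := discrim_le_zero hexp
  unfold discrim at h
  linarith

end Pool.Agent.HSh
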