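import Mathlib
import Pool.Agent.HSh.Targets

set_option autoImplicit false

namespace Pool.Agent.HSh

open Finset Pool.Agent.HLow

open Classical in
lemma CT_ep {V : Type} [Fintype V] [DecidableEq V] (a : V → V → ℝ) (pos : V → ℕ) (h t : ℕ)
    (u : V) : |ep a pos h t u| ≤ if win a pos h t u then 1 else 0 := by
  unfold ep
  split_ifs <;> norm_num

open Classical in
lemma CT_count {V : Type} [Fintype V] [DecidableEq V] (a : V → V → ℝ) (pos : V → ℕ) (h N : ℕ)
    (u : V) (hu : 1 ≤ dn a u) :
    ∑ t ∈ range N, (if win a pos h t u then (1 : ℝ) else 0) ≤ 2 * 2 ^ (h + 2) := by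
  rw [← sum_filter, sum_const, nsmul_eq_mul, mul_one]
  have h1 : (range N).filter (fun t => win a pos h t u)
      ⊆ Icc (th a pos u + dn a u - 2 ^ (h + 2)) (th a pos u + 2 ^ (h + 2)) := by
    intro t ht
    rw [mem_filter] at ht
    have h2 := ht.2
    unfold win at h2
    rw [mem_Icc]
    omega
  have h2 := card_le_card h1
  rw [Nat.card_Icc] at h2
  have h3 : ((range N).filter (fun t => win a pos h t u)).card ≤ 2 * 2 ^ (h + 2) := by omega
  exact_mod_cast h3

open Classical in
lemma CT_le {V : Type} [Fintype V] [DecidableEq V] {a : V → V → ℝ} {pos : V → ℕ} {D0 : V → ℝ}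
    {G m : ℝ} (hD : Dat a pos D0 G m) (h t : ℕ) :
    ct a pos D0 h t ≤ ∑ u, (D0 u + dn a u) * (if win a pos h t u then (1 : ℝ) else 0) := by
  unfold ct
  rw [← sum_add_distrib]
  apply sum_le_sum
  intro u _
  have hu := CT_ep a pos h t u
  have h1 : ∀ v, |ep a pos h t v| ≤ 1 := by
    intro v
    refine le_trans (CT_ep a pos h t v) ?_
    split_ifs <;> norm_num
  have h2 : D0 u * ep a pos h t u ^ 2 ≤ D0 u * (if win a pos h t u then (1 : ℝ) else 0) := by
    apply mul_le_mul_of_nonneg_left _ (hD.d0 u)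
    rw [← sq_abs]
    split_ifs at hu ⊢
    · exact pow_le_one₀ (abs_nonneg _) hu
    · have : |ep a pos h t u| = 0 := le_antisymm hu (abs_nonneg _)
      rw [this]; norm_num
  have h3 : ∑ v, sy a u v * (ep a pos h t u * ep a pos h t v)
      ≤ (dn a u : ℝ) * (if win a pos h t u then (1 : ℝ) else 0) := by
    rw [dn_cast hD.dg, ← sy_deg, sum_mul]
    apply sum_le_sum
    intro v _
    apply mul_le_mul_of_nonneg_left _ (hD.dg.adj.nonneg u v)
    calc ep a pos h t u * ep a pos h t v ≤ |ep a pos h t u * ep a pos h t v| := le_abs_self _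
      _ = |ep a pos h t u| * |ep a pos h t v| := abs_mul _ _
      _ ≤ |ep a pos h t u| * 1 := mul_le_mul_of_nonneg_left (h1 v) (abs_nonneg _)
      _ ≤ _ := by rw [mul_one]; exact hu
  linarith

theorem p_CT : T_CT := by
  intro V _ _ a pos D0 β G m K i h N hD hP
  classical
  have hm : 0 < m := by linarith [hD.m1]
  have hβ := hP.b0
  have hR : R0 G m ≤ m := by
    have h1 := hP.kd
    unfold ka de at h1
    rw [div_le_iff₀ (by positivity)] at h1
    have h2 : β ^ 2 / 10 ^ 7 * (β * m) ≤ m := by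
      have : β ^ 3 ≤ 1 := pow_le_one₀ hβ.le hP.b1
      have h' : β ^ 2 / 10 ^ 7 * (β * m) = β ^ 3 * m / 10 ^ 7 := by ring
      rw [h', div_le_iff₀ (by positivity)]
      nlinarith
    have h3 : 0 ≤ R0 G m := by
      unfold R0
      have : 0 ≤ Real.log m := Real.log_nonneg hD.m1
      have := hD.gpos
      positivity
    linarith
  have hsum : ∑ u, (D0 u + dn a u) ≤ 3 * m := by
    rw [sum_add_distrib, hD.sumdn]
    have := hD.dsum
    unfold R0 at hR
    linarith
  calc ∑ t ∈ range N, ct a pos D0 h t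
      ≤ ∑ t ∈ range N, ∑ u, (D0 u + dn a u) * (if win a pos h t u then (1 : ℝ) else 0) :=
        sum_le_sum (fun t _ => CT_le hD h t)
    _ = ∑ u, (D0 u + dn a u) * ∑ t ∈ range N, (if win a pos h t u then (1 : ℝ) else 0) := by
        rw [sum_comm]
        exact sum_congr rfl (fun u _ => by rw [mul_sum])
    _ ≤ ∑ u, (D0 u + dn a u) * (2 * 2 ^ (h + 2)) := by
        apply sum_le_sum
        intro u _
        apply mul_le_mul_of_nonneg_left (CT_count a pos h N u (hD.iso u))
        have := hD.d0 u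
        positivity
    _ = (∑ u, (D0 u + dn a u)) * (2 * 2 ^ (h + 2)) := by rw [sum_mul]
    _ ≤ 3 * m * (2 * 2 ^ (h + 2)) := mul_le_mul_of_nonneg_right hsum (by positivity)
    _ = 6 * m * 2 ^ (h + 2) := by ring

end Pool.Agent.HSh
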