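import Mathlib
import Pool.Agent.HSh.Targets

set_option autoImplicit false

namespace Pool.Agent.HSh

open Finset Pool.Agent.HLow

lemma DAT_sum {V : Type} [Fintype V] [DecidableEq V] (U : Finset V) (f : V → ℝ)
    (hf : ∀ u, u ∉ U → f u = 0) : ∑ u : {x // x ∈ U}, f u = ∑ u, f u := by
  rw [Finset.sum_coe_sort U f]
  apply Finset.sum_subset (Finset.subset_univ U)
  intro x _ hx
  exact hf x hx

lemma DAT_sum2 {V : Type} [Fintype V] [DecidableEq V] (U : Finset V) (g : V → V → ℝ)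
    (hl : ∀ u v, u ∉ U → g u v = 0) (hr : ∀ u v, v ∉ U → g u v = 0) :
    ∑ u : {x // x ∈ U}, ∑ v : {x // x ∈ U}, g u v = ∑ u, ∑ v, g u v := by
  rw [← DAT_sum U (fun u => ∑ v, g u v) (fun u hu => sum_eq_zero (fun v _ => hl u v hu))]
  exact sum_congr rfl (fun u _ => DAT_sum U (fun v => g u v) (fun v hv => hr u v hv))

theorem p_DAT (h1 : Pool.Agent.HLow.T_LEN) (h2 : Pool.Agent.HLow.T_IMB)
    (h3 : Pool.Agent.HLow.T_ROUND) (h4 : Pool.Agent.HLow.T_DUAL) : T_DAT := by
  intro V _ _ a G m D h01 hm hm1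
  have hm0 : 0 < m := by linarith
  have hm' : ∑ v, ∑ u, a u v = m := by
    rw [sum_comm]; exact hm
  have hm'' : ∑ u, ∑ v, a u v = m := hm
  obtain ⟨hG0, hfin⟩ := Dicut.final_ineq D m hm' hm1
  refine ⟨hfin, ?_⟩
  obtain ⟨pos, hp0, hp1, hp2⟩ := Dicut.exists_pos D
  have hcard := Dicut.card_UU_le D
  have hlen := h1 V a G pos D h01 hp0 hp1 hp2 (by rw [hm]; exact hm0)
  set U := Dicut.UU a with hU
  have hl : ∀ u v, u ∉ U → a u v = 0 := by
    intro u v hu
    by_contra hne
    exact hu (Dicut.mem_UU_left hne)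
  have hr : ∀ u v, v ∉ U → a u v = 0 := by
    intro u v hv
    by_contra hne
    exact hv (Dicut.mem_UU_right hne)
  set b : {x // x ∈ U} → {x // x ∈ U} → ℝ := fun u v => a u v with hb
  have hDg : Dg b (fun u => pos u) :=
    ⟨fun u v => h01 u v, fun u v huv => hp0 u v huv,
      fun u v huv => Subtype.ext (hp2 u u.2 v v.2 huv)⟩
  have hsum : ∑ u, dp b u = m := by
    unfold dp
    rw [hb, DAT_sum2 U a hl hr]
    exact hm
  have hc : (Fintype.card {x // x ∈ U} : ℝ) ≤ 3 * G := by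
    rw [Fintype.card_coe]; exact hcard
  have hbH : ∀ x : {x // x ∈ U} → ℝ, (∀ v, |x v| ≤ 1) → Dicut.Gf b x ≤ G := by
    intro x hx
    have hx' : ∀ v, |(if hv : v ∈ U then x ⟨v, hv⟩ else 0 : ℝ)| ≤ 1 := by
      intro v
      by_cases hv : v ∈ U
      · simp only [hv, dif_pos]; exact hx _
      · simp only [hv, dif_neg, not_false_iff]; norm_num
    have h1 := D.H (fun v => if hv : v ∈ U then x ⟨v, hv⟩ else 0) hx'
    refine le_trans (le_of_eq ?_) h1
    unfold Dicut.Gf
    rw [← DAT_sum2 U (fun u v => a u v * ((if hv : u ∈ U then x ⟨u, hv⟩ else 0)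
      - (if hv : v ∈ U then x ⟨v, hv⟩ else 0)
      - (if hv : u ∈ U then x ⟨u, hv⟩ else 0) * (if hv : v ∈ U then x ⟨v, hv⟩ else 0)))
      (fun u v hu => by rw [hl u v hu]; ring) (fun u v hv => by rw [hr u v hv]; ring)]
    refine sum_congr rfl (fun u _ => sum_congr rfl (fun v _ => ?_))
    simp [hb, u.2, v.2]
  have hlog : 0 ≤ Real.log m := Real.log_nonneg hm1
  have hγ : 0 ≤ (8 * Real.log m + 2) * G + 8 := by positivity
  obtain ⟨D0, hD0, hDs, hDp⟩ := h4 {x // x ∈ U} (sy b) ((8 * Real.log m + 2) * G + 8)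
    (sy_symm b) hγ (fun B hB => h3 {x // x ∈ U} b G m (fun u v => h01 u v) hbH hG0.le hsum hm1 B hB)
  have hdp : ∀ u : {x // x ∈ U}, dp b u = dp a u := by
    intro u
    unfold dp
    exact DAT_sum U (fun v => a u v) (fun v hv => hr u v hv)
  have hdm : ∀ u : {x // x ∈ U}, dm b u = dm a u := by
    intro u
    unfold dm
    exact DAT_sum U (fun v => a v u) (fun v hv => hl v u hv)
  refine ⟨{x // x ∈ U}, inferInstance, inferInstance, b, fun u => pos u, D0, ?_⟩
  refine ⟨hDg, ?_, hm1, hsum, hG0, hc, ?_, ?_, ?_, hD0, hDs, hDp⟩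
  · intro u
    have hu : ∃ w, a w u.1 ≠ 0 ∨ a u.1 w ≠ 0 := by
      have h := u.2
      simp only [hU, Dicut.UU, mem_filter] at h
      exact h.2
    obtain ⟨w, hw⟩ := hu
    have hwU : w ∈ U := by
      rcases hw with e | e
      · exact Dicut.mem_UU_left e
      · exact Dicut.mem_UU_right e
    unfold dn
    rw [Nat.one_le_iff_ne_zero]
    apply card_ne_zero_of_mem (a := ⟨w, hwU⟩)
    rw [mem_nb]
    unfold sy
    have e1 := D.nonneg u w
    have e2 := D.nonneg w u
    simp only [hb]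
    rcases hw with e | e
    · have : 0 < a w u := lt_of_le_of_ne e2 (Ne.symm e)
      linarith
    · have : 0 < a u w := lt_of_le_of_ne e1 (Ne.symm e)
      linarith
  · intro p
    apply Real.le_sqrt_of_sq_le
    have e1 := Dicut.prefix_sq D pos hp0 m hm' hm0 p
    rw [sum_comm] at e1
    rw [← DAT_sum2 U (fun u v => if pos u ≤ p ∧ p < pos v then a u v else 0)
      (fun u v hu => by rw [hl u v hu]; simp) (fun u v hv => by rw [hr u v hv]; simp)] at e1
    exact e1
  · rw [hm] at hlen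
    calc ∑ u, (dn b u : ℝ) ^ 2 = ∑ u : {x // x ∈ U}, (dp a u + dm a u) ^ 2 := by
          apply sum_congr rfl
          intro u _
          rw [dn_cast hDg u, hdp, hdm]
      _ ≤ ∑ u, (dp a u + dm a u) ^ 2 := by
          rw [Finset.sum_coe_sort U (fun u => (dp a u + dm a u) ^ 2)]
          apply sum_le_sum_of_subset_of_nonneg (subset_univ _)
          intro u _ _
          positivity
      _ ≤ 8 * (U.card : ℝ) * Real.sqrt (G * m) := hlen
      _ ≤ 24 * G * Real.sqrt (G * m) := by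
          apply mul_le_mul_of_nonneg_right _ (Real.sqrt_nonneg _)
          linarith
  · intro Δ hΔ
    have e1 := h2 {x // x ∈ U} b G Δ (fun u v => h01 u v) hbH hΔ
    convert e1 using 4
    rw [dn_cast hDg]

end Pool.Agent.HSh
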