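import Mathlib
import Pool.Agent.HSh.Targets

set_option autoImplicit false
set_option linter.unusedSectionVars false
set_option linter.unusedVariables false

namespace Pool.Agent.HSh

open Finset Pool.Agent.HLow

section

variable {V : Type} [Fintype V] [DecidableEq V]

lemma DIFF_nn {a : V → V → ℝ} {pos : V → ℕ} (h : Dg a pos) (u v : V) : 0 ≤ a u v := by
  rcases h.zo u v with e | e
  · rw [e]
  · rw [e]; norm_num

lemma DIFF_ep_ge (a : V → V → ℝ) (pos : V → ℕ) (h t : ℕ) (x : V) : -1 ≤ ep a pos h t x := by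
  unfold ep
  split_ifs <;> norm_num

lemma DIFF_ep_le (a : V → V → ℝ) (pos : V → ℕ) (h t : ℕ) (x : V) : ep a pos h t x ≤ 1 := by
  unfold ep
  split_ifs <;> norm_num

lemma DIFF_ep_one {a : V → V → ℝ} {pos : V → ℕ} {h t : ℕ} {x : V} (hw : win a pos h t x)
    (ht : th a pos x < t) : ep a pos h t x = 1 := by
  unfold ep
  rw [if_pos hw, if_pos ht]

lemma DIFF_ep_neg {a : V → V → ℝ} {pos : V → ℕ} {h t : ℕ} {x : V} (hw : win a pos h t x)
    (ht : t ≤ th a pos x) : ep a pos h t x = -1 := by
  unfold ep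
  rw [if_pos hw, if_neg (not_lt.mpr ht)]

lemma DIFF_ep_nonneg {a : V → V → ℝ} {pos : V → ℕ} {h t : ℕ} {x : V}
    (ht : th a pos x < t) : 0 ≤ ep a pos h t x := by
  unfold ep
  rw [if_pos ht]
  split_ifs <;> norm_num

lemma DIFF_ep_nonpos {a : V → V → ℝ} {pos : V → ℕ} {h t : ℕ} {x : V}
    (ht : t ≤ th a pos x) : ep a pos h t x ≤ 0 := by
  unfold ep
  rw [if_neg (not_lt.mpr ht)]
  split_ifs <;> norm_num

/-- lower bound at the tail -/
lemma DIFF_tail {a : V → V → ℝ} {pos : V → ℕ} {D0 : V → ℝ} {i h t : ℕ} {z : V}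
    (hd : Dg a pos) (iso : ∀ u, 1 ≤ dn a u) (hD : 0 ≤ D0 z) (hih : i ≤ h)
    (h1 : 8 * th a pos z + 2 ^ i ≤ 8 * t) (h2 : t < th a pos z + 2 ^ (i + 1))
    (h3 : 16 * dn a z ≤ 2 ^ i) :
    win a pos h t z ∧
    dm a z - dp a z + 2 * Fp a pos i z - (∑ x, if 2 ^ (h + 1) ≤ ln a pos x z then a x z else 0)
      ≤ gt a pos D0 h t z := by
  have e1 : 2 ^ (i + 1) ≤ 2 ^ (h + 1) := Nat.pow_le_pow_right (by norm_num) (by omega)
  have e2 : 2 ^ (h + 2) = 2 * 2 ^ (h + 1) := by ring
  have e3 : 2 ^ (i + 1) = 2 * 2 ^ i := by ring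
  have p0 : 0 < 2 ^ i := by positivity
  have hwz : win a pos h t z := by
    constructor <;> omega
  refine ⟨hwz, ?_⟩
  have hz1 : ep a pos h t z = 1 := DIFF_ep_one hwz (by omega)
  have hA : ∀ x, a x z - (if 2 ^ (h + 1) ≤ ln a pos x z then a x z else 0)
      ≤ a x z * ep a pos h t x := by
    intro x
    by_cases hx : a x z = 0
    · rw [hx]; simp
    · have hp := arc_pos hd hx
      have q1 := th_add (a := a) hp
      have q2 := ln_add (a := a) hp
      have q3 := DIFF_nn hd x z
      have q4 : th a pos x < t := by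
        have := iso x
        omega
      by_cases hl : 2 ^ (h + 1) ≤ ln a pos x z
      · rw [if_pos hl]
        have := DIFF_ep_nonneg (h := h) q4
        have := mul_nonneg q3 this
        linarith
      · rw [if_neg hl]
        have hw : win a pos h t x := by
          constructor <;> omega
        rw [DIFF_ep_one hw q4]
        linarith
  have hB : ∀ x, -a z x + 2 * (if 8 * ln a pos z x ≤ 2 ^ i then a z x else 0)
      ≤ a z x * ep a pos h t x := by
    intro x
    by_cases hx : a z x = 0
    · rw [hx]; simp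
    · have hp := arc_pos hd hx
      have q1 := th_add (a := a) hp
      have q2 := ln_add (a := a) hp
      have q3 := DIFF_nn hd z x
      by_cases hl : 8 * ln a pos z x ≤ 2 ^ i
      · rw [if_pos hl]
        have q5 := iso x
        have q4 : th a pos x < t := by omega
        have hw : win a pos h t x := by
          constructor <;> omega
        rw [DIFF_ep_one hw q4]
        linarith
      · rw [if_neg hl]
        have := DIFF_ep_ge a pos h t x
        nlinarith
  have hsA := sum_le_sum (fun x (_ : x ∈ univ) => hA x)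
  have hsB := sum_le_sum (fun x (_ : x ∈ univ) => hB x)
  rw [sum_sub_distrib] at hsA
  rw [sum_add_distrib, sum_neg_distrib, ← mul_sum] at hsB
  have hg : gt a pos D0 h t z
      = ∑ x, a z x * ep a pos h t x + ∑ x, a x z * ep a pos h t x + D0 z := by
    unfold gt sy
    rw [hz1, mul_one, ← sum_add_distrib]
    congr 1
    exact sum_congr rfl (fun x _ => by ring)
  rw [hg]
  unfold dm dp Fp
  linarith

/-- upper bound at the head -/
lemma DIFF_head {a : V → V → ℝ} {pos : V → ℕ} {D0 : V → ℝ} {i h t : ℕ} {w : V}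
    (hd : Dg a pos) (iso : ∀ u, 1 ≤ dn a u) (hD : 0 ≤ D0 w) (hih : i ≤ h)
    (h1 : 8 * t + 2 ^ i ≤ 8 * (th a pos w + dn a w)) (h2 : th a pos w + dn a w < t + 2 ^ (i + 1))
    (h3 : 16 * dn a w ≤ 2 ^ i) :
    win a pos h t w ∧
    gt a pos D0 h t w
      ≤ dm a w - dp a w - 2 * Fm a pos i w
        + ∑ x, if 2 ^ (h + 1) ≤ ln a pos w x then a w x else 0 := by
  have e1 : 2 ^ (i + 1) ≤ 2 ^ (h + 1) := Nat.pow_le_pow_right (by norm_num) (by omega)
  have e2 : 2 ^ (h + 2) = 2 * 2 ^ (h + 1) := by ring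
  have e3 : 2 ^ (i + 1) = 2 * 2 ^ i := by ring
  have p0 : 0 < 2 ^ i := by positivity
  have hww : win a pos h t w := by
    constructor <;> omega
  refine ⟨hww, ?_⟩
  have hw1 : ep a pos h t w = -1 := DIFF_ep_neg hww (by omega)
  have hA : ∀ x, a w x * ep a pos h t x
      ≤ -a w x + (if 2 ^ (h + 1) ≤ ln a pos w x then a w x else 0) := by
    intro x
    by_cases hx : a w x = 0
    · rw [hx]; simp
    · have hp := arc_pos hd hx
      have q1 := th_add (a := a) hp
      have q2 := ln_add (a := a) hp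
      have q3 := DIFF_nn hd w x
      have q4 : t ≤ th a pos x := by omega
      by_cases hl : 2 ^ (h + 1) ≤ ln a pos w x
      · rw [if_pos hl]
        have := DIFF_ep_nonpos (a := a) (h := h) q4
        have := mul_nonneg q3 (neg_nonneg.mpr this)
        linarith
      · rw [if_neg hl]
        have hw : win a pos h t x := by
          constructor <;> omega
        rw [DIFF_ep_neg hw q4]
        linarith
  have hB : ∀ x, a x w * ep a pos h t x
      ≤ a x w - 2 * (if 8 * ln a pos x w ≤ 2 ^ i then a x w else 0) := by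
    intro x
    by_cases hx : a x w = 0
    · rw [hx]; simp
    · have hp := arc_pos hd hx
      have q1 := th_add (a := a) hp
      have q2 := ln_add (a := a) hp
      have q3 := DIFF_nn hd x w
      by_cases hl : 8 * ln a pos x w ≤ 2 ^ i
      · rw [if_pos hl]
        have q5 := iso x
        have q4 : t ≤ th a pos x := by omega
        have hw : win a pos h t x := by
          constructor <;> omega
        rw [DIFF_ep_neg hw q4]
        linarith
      · rw [if_neg hl]
        have := DIFF_ep_le a pos h t x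
        nlinarith
  have hsA := sum_le_sum (fun x (_ : x ∈ univ) => hA x)
  have hsB := sum_le_sum (fun x (_ : x ∈ univ) => hB x)
  rw [sum_add_distrib, sum_neg_distrib] at hsA
  rw [sum_sub_distrib, ← mul_sum] at hsB
  have hg : gt a pos D0 h t w
      = ∑ x, a w x * ep a pos h t x + ∑ x, a x w * ep a pos h t x - D0 w := by
    unfold gt sy
    rw [hw1, ← sum_add_distrib]
    have : ∀ x, (a w x + a x w) * ep a pos h t x
      = a w x * ep a pos h t x + a x w * ep a pos h t x := fun x => by ring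
    rw [sum_congr rfl (fun x _ => this x)]
    ring
  rw [hg]
  unfold dm dp Fm
  linarith

end

theorem p_DIFF : T_DIFF := by
  intro V _ _ a pos D0 β G m K i h t z w hdat hpar hmem h1 h2
  unfold GA at hmem
  rw [mem_filter] at hmem
  obtain ⟨_, hne, hl1, hl2, hz, hw, hz16, hw16, hFp, hFm⟩ := hmem
  dsimp only at hne hl1 hl2 hz hw hz16 hw16 hFp hFm
  have hp := arc_pos hdat.dg hne
  have q1 := th_add (a := a) hp
  have q2 := ln_add (a := a) hp
  have p0 : 0 < 2 ^ i := by positivity
  obtain ⟨wz, gz⟩ := DIFF_tail (D0 := D0) hdat.dg hdat.iso (hdat.d0 z) hpar.ih h1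
    (by omega) hz16
  obtain ⟨ww, gw⟩ := DIFF_head (D0 := D0) hdat.dg hdat.iso (hdat.d0 w) hpar.ih h2
    (by omega) hw16
  refine ⟨wz, ww, ?_⟩
  unfold Gd at hz hw
  rw [mem_filter] at hz hw
  obtain ⟨_, _, _, _, z1, z2⟩ := hz
  obtain ⟨_, _, _, _, w1, w2⟩ := hw
  unfold Fa at z2 w2
  have n1 : 0 ≤ ∑ x, if 2 ^ (h + 1) ≤ ln a pos z x then a z x else 0 :=
    sum_nonneg (fun x _ => by
      have := DIFF_nn hdat.dg z x
      split_ifs <;> linarith)
  have n2 : 0 ≤ ∑ x, if 2 ^ (h + 1) ≤ ln a pos x w then a x w else 0 :=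
    sum_nonneg (fun x _ => by
      have := DIFF_nn hdat.dg x w
      split_ifs <;> linarith)
  have a1 := le_abs_self (dp a z - dm a z)
  have a2 := neg_abs_le (dp a w - dm a w)
  linarith

end Pool.Agent.HSh
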