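import Pool.Agent.HSh.Targets

namespace Pool.Agent.HSh

open Filter Asymptotics

theorem EVT_ev (a b δ : ℝ) (hδ : 0 < δ) :
    ∀ᶠ m : ℝ in atTop, a * Real.log m + b ≤ m ^ δ := by
  have h1 : (fun m : ℝ => Real.log m) =o[atTop] (fun m : ℝ => m ^ δ) :=
    isLittleO_log_rpow_atTop hδ
  have h2 : (fun m : ℝ => a * Real.log m) =o[atTop] (fun m : ℝ => m ^ δ) :=
    h1.const_mul_left a
  have h3 : (fun _ : ℝ => b) =o[atTop] (fun m : ℝ => m ^ δ) := by
    apply Asymptotics.isLittleO_const_left.2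
    right
    exact tendsto_norm_atTop_atTop.comp (tendsto_rpow_atTop hδ)
  have h4 := (h2.add h3).bound (c := 1) one_pos
  filter_upwards [h4, eventually_ge_atTop (0 : ℝ)] with m hm hm0
  have h5 : ‖m ^ δ‖ = m ^ δ := by
    rw [Real.norm_eq_abs, abs_of_nonneg (Real.rpow_nonneg hm0 δ)]
  rw [h5, one_mul] at hm
  exact (le_abs_self _).trans hm

theorem EVT_pow (m δ : ℝ) (hm : 1 ≤ m) (N : ℕ) :
    (m ^ δ) ^ N = m ^ (δ * N) := by
  rw [Real.rpow_mul (by linarith), Real.rpow_natCast]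

theorem p_EVT : T_EVT := by
  intro ε θ J hε hθ
  set N : ℕ := 3 ^ J with hN
  have hNpos : (0 : ℝ) < (N : ℝ) := by
    rw [hN]
    positivity
  have hδ : 0 < θ / (6 * N) := by positivity
  have hδ2 : 0 < θ / (2 * N) := by positivity
  have hl2 : 0 < Real.log 2 := Real.log_pos (by norm_num)
  have e1 := EVT_ev (1 / Real.log 2) 2 θ hθ
  have e2 := EVT_ev 0 ((10 : ℝ) ^ 40) θ hθ
  have e3 := EVT_ev (16 * 8) (16 * 10) θ hθ
  have e4 := EVT_ev (ε / Real.log 2) 1 (θ / (6 * N)) hδ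
  have e5 := EVT_ev 0 (8 * (64 * 10 ^ 7)) (θ / (2 * N)) hδ2
  have e := (((e1.and e2).and (e3.and e4)).and e5).and (eventually_ge_atTop (2 : ℝ))
  obtain ⟨m1, hm1⟩ := Filter.eventually_atTop.1 e
  refine ⟨max 2 m1, le_max_left _ _, ?_⟩
  intro m hm
  obtain ⟨⟨⟨⟨f1, f2⟩, f3, f4⟩, f5⟩, f6⟩ := hm1 m ((le_max_right _ _).trans hm)
  have hm0 : (0 : ℝ) < m := by linarith
  have hlog : 0 ≤ Real.log m := Real.log_nonneg (by linarith)
  have hA : 0 ≤ Real.log m / Real.log 2 := by positivity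
  have hB : 0 ≤ ε * Real.log m / Real.log 2 := by positivity
  have k1 : (⌊Real.log m / Real.log 2⌋₊ : ℝ) ≤ Real.log m / Real.log 2 := Nat.floor_le hA
  have k2 : Real.log m / Real.log 2 < (⌊Real.log m / Real.log 2⌋₊ : ℝ) + 1 :=
    Nat.lt_floor_add_one _
  have q1 : (⌊ε * Real.log m / Real.log 2⌋₊ : ℝ) ≤ ε * Real.log m / Real.log 2 :=
    Nat.floor_le hB
  have q2 : ε * Real.log m / Real.log 2 < (⌊ε * Real.log m / Real.log 2⌋₊ : ℝ) + 1 :=
    Nat.lt_floor_add_one _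
  have hexp : ∀ n : ℕ, (2 : ℝ) ^ n = Real.exp (n * Real.log 2) := by
    intro n
    rw [mul_comm, Real.exp_mul, Real.exp_log (by norm_num : (0 : ℝ) < 2), Real.rpow_natCast]
  have hme : m ^ ε = Real.exp (ε * Real.log m) := by
    rw [Real.rpow_def_of_pos hm0, mul_comm]
  refine ⟨⌊ε * Real.log m / Real.log 2⌋₊, ⌊Real.log m / Real.log 2⌋₊ + 2, by omega, ?_, ?_, ?_,
    ?_, ?_, ?_, ?_⟩
  · have h1 : m < 2 ^ (⌊Real.log m / Real.log 2⌋₊ + 1) := by
      rw [hexp]
      calc m = Real.exp (Real.log m) := (Real.exp_log hm0).symm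
        _ < _ := by
          apply Real.exp_lt_exp.2
          rw [div_lt_iff₀ hl2] at k2
          push_cast
          linarith
    calc 2 * m < 2 * 2 ^ (⌊Real.log m / Real.log 2⌋₊ + 1) := by linarith
      _ = 2 ^ (⌊Real.log m / Real.log 2⌋₊ + 2) := by ring
  · push_cast
    have : 1 / Real.log 2 * Real.log m = Real.log m / Real.log 2 := by ring
    linarith
  · linarith
  · linarith
  · rw [hexp, hme]
    apply Real.exp_le_exp.2
    rw [le_div_iff₀ hl2] at q1
    exact q1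
  · rw [hme]
    have h1 : Real.exp (ε * Real.log m) ≤
        2 ^ (⌊ε * Real.log m / Real.log 2⌋₊ + 1) := by
      rw [hexp]
      apply Real.exp_le_exp.2
      rw [div_lt_iff₀ hl2] at q2
      push_cast
      linarith
    calc _ ≤ _ := h1
      _ = _ := by ring
  · set x : ℝ := (⌊ε * Real.log m / Real.log 2⌋₊ : ℝ) + 1 with hx
    have hx0 : 0 ≤ x := by positivity
    have hx1 : x ≤ m ^ (θ / (6 * N)) := by
      have : ε / Real.log 2 * Real.log m = ε * Real.log m / Real.log 2 := by ring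
      linarith
    have hx3 : x ^ 3 ≤ m ^ (θ / (2 * N)) := by
      calc x ^ 3 ≤ (m ^ (θ / (6 * N))) ^ 3 := pow_le_pow_left₀ hx0 hx1 3
        _ = m ^ (θ / (6 * N) * (3 : ℕ)) := EVT_pow m _ (by linarith) 3
        _ = m ^ (θ / (2 * N)) := by
          congr 1
          push_cast
          field_simp
          norm_num
    have h5 : 8 * (64 * 10 ^ 7) ≤ m ^ (θ / (2 * N)) := by linarith
    have hb : 8 * x ^ 3 * (64 * 10 ^ 7) ≤ m ^ (θ / N) := by
      calc 8 * x ^ 3 * (64 * 10 ^ 7) = (8 * (64 * 10 ^ 7)) * x ^ 3 := by ring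
        _ ≤ m ^ (θ / (2 * N)) * m ^ (θ / (2 * N)) :=
          mul_le_mul h5 hx3 (by positivity) (by positivity)
        _ = m ^ (θ / (2 * N) + θ / (2 * N)) := (Real.rpow_add hm0 _ _).symm
        _ = m ^ (θ / N) := by
          congr 1
          field_simp
          norm_num
    calc (8 * x ^ 3 * (64 * 10 ^ 7)) ^ N ≤ (m ^ (θ / N)) ^ N :=
          pow_le_pow_left₀ (by positivity) hb N
      _ = m ^ (θ / N * N) := EVT_pow m _ (by linarith) N
      _ = m ^ θ := by
        congr 1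
        field_simp

end Pool.Agent.HSh
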