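import Mathlib
import Pool.Agent.HSh.Targets

set_option autoImplicit false
set_option linter.unusedSectionVars false

namespace Pool.Agent.HSh

open Finset Pool.Agent.HLow

namespace GOOD_

variable {V : Type} [Fintype V] [DecidableEq V]

lemma sumFa (a : V → V → ℝ) (pos : V → ℕ) (j : ℕ) :
    ∑ u, Fa a pos j u = 2 * Ta a pos (2 ^ j) := by
  unfold Fa Ta
  rw [sum_add_distrib]
  have h1 : ∑ u, ∑ x, (if 2 ^ j ≤ ln a pos x u then a x u else 0) =
      ∑ z, ∑ w, (if 2 ^ j ≤ ln a pos z w then a z w else 0) := sum_comm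
  rw [h1]
  ring

lemma Fa_nonneg {a : V → V → ℝ} {pos : V → ℕ} (h : Dg a pos) (j : ℕ) (u : V) :
    0 ≤ Fa a pos j u := by
  unfold Fa
  apply add_nonneg
  · apply sum_nonneg
    intro x _
    have := h.nonneg u x
    split_ifs <;> linarith
  · apply sum_nonneg
    intro x _
    have := h.nonneg x u
    split_ifs <;> linarith

end GOOD_

/-- GOOD, from T_IMBD -/
theorem p_GOOD : T_IMBD → T_GOOD := by
  intro hI V _ _ a pos D0 β G m K i h hD hP hK hT
  obtain ⟨hb0, hb1, hm2, hK1, hih, hkd, him, hkk⟩ := hP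
  have hG := hD.gpos
  have hm0 : 0 < m := by linarith
  have hbm : 0 < β * m := mul_pos hb0 hm0
  have hR : 0 < R0 G m := by
    unfold R0
    have h1 : 0 < Real.log m := Real.log_pos (by linarith)
    positivity
  have hka : 0 < ka β G m := by
    unfold ka
    positivity
  have hde : 0 < de β := by
    unfold de
    positivity
  have hsq : 0 < Real.sqrt (G * m) := Real.sqrt_pos.mpr (mul_pos hG hm0)
  have hdhi : 0 < dhi β G m := by
    unfold dhi
    positivity
  have hdlo : 0 < dlo β G m := by
    unfold dlo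
    positivity
  -- the five parts
  have e1 : ∑ u, (D0 u / ka β G m) ≤ 1 / 16 * (β * m) := by
    rw [← sum_div, div_le_iff₀ hka]
    calc ∑ u, D0 u ≤ R0 G m := hD.dsum
      _ = 1 / 16 * (β * m) * ka β G m := by
        unfold ka
        field_simp
  have e2 : ∑ _u : V, dlo β G m ≤ 1 / 16 * (β * m) := by
    rw [sum_const, card_univ, nsmul_eq_mul]
    calc (Fintype.card V : ℝ) * dlo β G m ≤ 3 * G * dlo β G m :=
          mul_le_mul_of_nonneg_right hD.card hdlo.le
      _ = 1 / 16 * (β * m) := by
        unfold dlo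
        field_simp
        norm_num
  have e3 : ∑ u, ((dn a u : ℝ) ^ 2 / dhi β G m) ≤ 1 / 16 * (β * m) := by
    rw [← sum_div, div_le_iff₀ hdhi]
    calc ∑ u, (dn a u : ℝ) ^ 2 ≤ 24 * G * Real.sqrt (G * m) := hD.len2
      _ = 1 / 16 * (β * m) * dhi β G m := by
        unfold dhi
        field_simp
        norm_num
  have e4 : ∑ u ∈ univ.filter (fun u => de β * dn a u < 2 * |dp a u - dm a u|), (dn a u : ℝ)
      ≤ 1 / 16 * (β * m) := by
    refine (hI V a pos D0 G m (de β) K hD hK hde).trans ?_
    rw [div_le_iff₀ (by positivity)]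
    nlinarith
  have e5 : ∑ u, (2 * Fa a pos (h + 1) u / de β) ≤ 1 / 16 * (β * m) := by
    rw [← sum_div, ← mul_sum, GOOD_.sumFa, div_le_iff₀ hde]
    nlinarith
  rw [sum_filter] at e4 ⊢
  have key : ∀ u, (if u ∉ Gd a pos D0 β G m h then (dn a u : ℝ) else 0) ≤
      D0 u / ka β G m + dlo β G m + (dn a u : ℝ) ^ 2 / dhi β G m +
      (if de β * dn a u < 2 * |dp a u - dm a u| then (dn a u : ℝ) else 0) +
      2 * Fa a pos (h + 1) u / de β := by
    intro u
    have n0 : (0 : ℝ) ≤ dn a u := Nat.cast_nonneg _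
    have n1 : 0 ≤ D0 u / ka β G m := div_nonneg (hD.d0 u) hka.le
    have n3 : 0 ≤ (dn a u : ℝ) ^ 2 / dhi β G m := div_nonneg (sq_nonneg _) hdhi.le
    have n4 : 0 ≤ (if de β * dn a u < 2 * |dp a u - dm a u| then (dn a u : ℝ) else 0) := by
      split_ifs <;> linarith
    have n5 : 0 ≤ 2 * Fa a pos (h + 1) u / de β :=
      div_nonneg (mul_nonneg (by norm_num) (GOOD_.Fa_nonneg hD.dg _ _)) hde.le
    by_cases hu : u ∈ Gd a pos D0 β G m h
    · rw [if_neg (by simpa using hu)]
      linarith
    · rw [if_pos hu]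
      unfold Gd at hu
      rw [mem_filter] at hu
      by_cases c1 : D0 u ≤ ka β G m * dn a u
      · by_cases c2 : dlo β G m ≤ dn a u
        · by_cases c3 : (dn a u : ℝ) ≤ dhi β G m
          · by_cases c4 : 2 * |dp a u - dm a u| ≤ de β * dn a u
            · by_cases c5 : 2 * Fa a pos (h + 1) u ≤ de β * dn a u
              · exact absurd ⟨mem_univ _, c1, c2, c3, c4, c5⟩ hu
              · push Not at c5
                have : (dn a u : ℝ) ≤ 2 * Fa a pos (h + 1) u / de β := by
                  rw [le_div_iff₀ hde]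
                  linarith
                linarith
            · push Not at c4
              rw [if_pos c4] at n4 ⊢
              linarith
          · push Not at c3
            have : (dn a u : ℝ) ≤ (dn a u : ℝ) ^ 2 / dhi β G m := by
              rw [le_div_iff₀ hdhi, sq]
              exact mul_le_mul_of_nonneg_left c3.le n0
            linarith
        · push Not at c2
          linarith
      · push Not at c1
        have : (dn a u : ℝ) ≤ D0 u / ka β G m := by
          rw [le_div_iff₀ hka]
          linarith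
        linarith
  calc _ ≤ ∑ u, (D0 u / ka β G m + dlo β G m + (dn a u : ℝ) ^ 2 / dhi β G m +
      (if de β * dn a u < 2 * |dp a u - dm a u| then (dn a u : ℝ) else 0) +
      2 * Fa a pos (h + 1) u / de β) := sum_le_sum fun u _ => key u
    _ = ∑ u, (D0 u / ka β G m) + ∑ _u : V, dlo β G m + ∑ u, ((dn a u : ℝ) ^ 2 / dhi β G m) +
      ∑ u, (if de β * dn a u < 2 * |dp a u - dm a u| then (dn a u : ℝ) else 0) +
      ∑ u, (2 * Fa a pos (h + 1) u / de β) := by
        simp only [sum_add_distrib]
    _ ≤ 5 / 16 * (β * m) := by linarith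

end Pool.Agent.HSh
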