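import Mathlib
import Pool.Agent.HSh.Targets

set_option autoImplicit false
set_option linter.unusedSectionVars false
set_option linter.unusedVariables false

namespace Pool.Agent.HSh

open Finset Pool.Agent.HLow

/-- the bad vertices of one dyadic class -/
lemma IMBD_class {V : Type} [Fintype V] [DecidableEq V] {a : V → V → ℝ} {pos : V → ℕ}
    {D0 : V → ℝ} {G m δ : ℝ} (hd : Dat a pos D0 G m) (hδ : 0 < δ) (j : ℕ) (S : Finset V)
    (hS : ∀ u ∈ S, δ * dn a u < 2 * |dp a u - dm a u| ∧ 2 ^ j ≤ dn a u ∧ dn a u < 2 ^ (j + 1)) :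
    ∑ u ∈ S, (dn a u : ℝ) ≤ 16 * G / δ ^ 2 := by
  have hp : (0 : ℝ) < 2 ^ j := by positivity
  have h1 : ∀ u ∈ S, (dn a u : ℝ) ≤ 4 / (δ ^ 2 * 2 ^ j) * (dp a u - dm a u) ^ 2 := by
    intro u hu
    obtain ⟨b1, b2, _⟩ := hS u hu
    have b3 : ((2 : ℝ)) ^ j ≤ dn a u := by exact_mod_cast b2
    have b4 : (0 : ℝ) < dn a u := lt_of_lt_of_le hp b3
    have b5 : (δ * dn a u) ^ 2 ≤ (2 * |dp a u - dm a u|) ^ 2 :=
      pow_le_pow_left₀ (by positivity) b1.le 2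
    rw [mul_pow, mul_pow, sq_abs] at b5
    rw [div_mul_eq_mul_div, le_div_iff₀ (by positivity)]
    have b6 : (dn a u : ℝ) * (δ ^ 2 * 2 ^ j) ≤ δ ^ 2 * (dn a u : ℝ) ^ 2 := by
      have := mul_le_mul_of_nonneg_left b3 (show 0 ≤ δ ^ 2 * (dn a u : ℝ) by positivity)
      nlinarith
    linarith
  have h2 : ∑ u ∈ S, (dp a u - dm a u) ^ 2
      ≤ ∑ u ∈ univ.filter (fun u => (dn a u : ℝ) ≤ 2 ^ (j + 1)), (dp a u - dm a u) ^ 2 := by
    apply sum_le_sum_of_subset_of_nonneg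
    · intro u hu
      rw [mem_filter]
      obtain ⟨_, _, b3⟩ := hS u hu
      refine ⟨mem_univ _, ?_⟩
      exact_mod_cast b3.le
    · intro u _ _
      positivity
  have h3 := hd.imb (2 ^ (j + 1)) (by positivity)
  calc ∑ u ∈ S, (dn a u : ℝ) ≤ ∑ u ∈ S, 4 / (δ ^ 2 * 2 ^ j) * (dp a u - dm a u) ^ 2 :=
        sum_le_sum h1
    _ = 4 / (δ ^ 2 * 2 ^ j) * ∑ u ∈ S, (dp a u - dm a u) ^ 2 := by rw [mul_sum]
    _ ≤ 4 / (δ ^ 2 * 2 ^ j) * (2 * 2 ^ (j + 1) * G) :=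
        mul_le_mul_of_nonneg_left (h2.trans h3) (by positivity)
    _ = 16 * G / δ ^ 2 := by
        rw [pow_succ]
        field_simp
        ring

theorem p_IMBD : T_IMBD := by
  intro V _ _ a pos D0 G m δ K hd hK hδ
  set S := univ.filter (fun u => δ * dn a u < 2 * |dp a u - dm a u|) with hS
  have hmap : ∀ u ∈ S, Nat.log 2 (dn a u) ∈ range K := by
    intro u _
    rw [mem_range]
    have h1 := hd.iso u
    exact Nat.log_lt_of_lt_pow (by omega) (hK u)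
  rw [← sum_fiberwise_of_maps_to hmap]
  have hb : ∀ j ∈ range K, ∑ u ∈ S.filter (fun u => Nat.log 2 (dn a u) = j), (dn a u : ℝ)
      ≤ 16 * G / δ ^ 2 := by
    intro j _
    apply IMBD_class hd hδ j
    intro u hu
    rw [mem_filter, hS, mem_filter] at hu
    obtain ⟨⟨_, h1⟩, h2⟩ := hu
    have h3 := hd.iso u
    refine ⟨h1, ?_, ?_⟩
    · rw [← h2]
      exact Nat.pow_log_le_self 2 (by omega)
    · rw [← h2]
      exact Nat.lt_pow_succ_log_self (by norm_num) _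
  refine (sum_le_sum hb).trans (le_of_eq ?_)
  rw [sum_const, card_range, nsmul_eq_mul]
  ring

end Pool.Agent.HSh
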