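import Mathlib
import Pool.Agent.HSh.Targets

set_option autoImplicit false

namespace Pool.Agent.HSh

open Finset Pool.Agent.HLow

open Classical in
lemma KEYE_pigeon {V : Type} [Fintype V] [DecidableEq V] (S : Finset (V × V)) (f : V × V → ℕ)
    (K : ℕ) (hf0 : ∀ e ∈ S, 1 ≤ f e) (hf : ∀ e ∈ S, f e < 2 ^ K) (hK : 1 ≤ K) :
    ∃ k < K, (S.card : ℝ) ≤ K * ((S.filter (fun e => 2 ^ k ≤ f e ∧ f e < 2 ^ (k + 1))).card : ℝ) := by
  by_contra hcon
  push Not at hcon
  have h1 : S.card = ∑ k ∈ range K, (S.filter (fun e => 2 ^ k ≤ f e ∧ f e < 2 ^ (k + 1))).card := by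
    rw [card_eq_sum_card_fiberwise (f := fun e => Nat.log 2 (f e)) (t := range K)]
    · apply sum_congr rfl
      intro k _
      congr 1
      apply filter_congr
      intro e he
      have h0 := hf0 e he
      constructor
      · intro hk
        rw [← hk]
        exact ⟨Nat.pow_log_le_self 2 (by omega), Nat.lt_pow_succ_log_self (by norm_num) _⟩
      · rintro ⟨hk1, hk2⟩
        exact Nat.log_eq_of_pow_le_of_lt_pow hk1 hk2
    · intro e he
      simp only [coe_range, Set.mem_Iio]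
      have h0 := hf0 e he
      exact Nat.log_lt_of_lt_pow (by omega) (hf e he)
  have h2 : (K : ℝ) * (S.card : ℝ) < K * (S.card : ℝ) := by
    calc (K : ℝ) * (S.card : ℝ)
        = K * ∑ k ∈ range K, ((S.filter (fun e => 2 ^ k ≤ f e ∧ f e < 2 ^ (k + 1))).card : ℝ) := by
          rw [h1]; push_cast; rfl
      _ = ∑ k ∈ range K, K * ((S.filter (fun e => 2 ^ k ≤ f e ∧ f e < 2 ^ (k + 1))).card : ℝ) := by
          rw [mul_sum]
      _ < ∑ k ∈ range K, (S.card : ℝ) := by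
          apply sum_lt_sum_of_nonempty
          · exact ⟨0, mem_range.mpr (by omega)⟩
          · intro k hk
            exact hcon k (mem_range.mp hk)
      _ = K * (S.card : ℝ) := by rw [sum_const, card_range, nsmul_eq_mul]
  exact lt_irrefl _ h2

lemma KEYE_num (m d0 L s β δ K c P kc : ℝ) (hm : 0 < m) (hd : 0 < d0) (hL : 0 < L) (hs : 0 < s)
    (hs1 : s ≤ 1) (hK : 0 < K) (hc : β * m ≤ 2 * (K * c)) (hP : 0 ≤ P) (hkc : kc * L = s ^ 2)
    (H : c * (3 / 4 * P) * (δ ^ 2 / (4 * d0 ^ 2))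
      ≤ 2 * m * (9216 * kc * L / (s / L * d0 ^ 2))
        + 6 * m * L * (L * (80 * (s / L * d0 ^ 2) / d0 ^ 4 + 64 * kc / d0 ^ 2))) :
    β * δ ^ 2 * P ≤ 205824 * K * L * s := by
  have e1 : 2 * m * (9216 * kc * L / (s / L * d0 ^ 2))
        + 6 * m * L * (L * (80 * (s / L * d0 ^ 2) / d0 ^ 4 + 64 * kc / d0 ^ 2))
      = (18432 * m * s * L + 480 * m * L * s + 384 * m * L * s ^ 2) / d0 ^ 2 := by
    have f1 : 9216 * kc * L = 9216 * s ^ 2 := by rw [mul_assoc, hkc]
    have f2 : L * (L * (80 * (s / L * d0 ^ 2) / d0 ^ 4 + 64 * kc / d0 ^ 2))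
        = L * (80 * s + 64 * (kc * L)) / d0 ^ 2 := by
      field_simp
    rw [f1]
    have f3 : 6 * m * L * (L * (80 * (s / L * d0 ^ 2) / d0 ^ 4 + 64 * kc / d0 ^ 2))
        = 6 * m * (L * (80 * s + 64 * (kc * L)) / d0 ^ 2) := by
      rw [← f2]; ring
    rw [f3, hkc]
    field_simp
    ring
  rw [e1] at H
  have e2 : c * (3 / 4 * P) * (δ ^ 2 / (4 * d0 ^ 2)) = (3 / 16 * c * P * δ ^ 2) / d0 ^ 2 := by
    field_simp
    ring
  rw [e2, div_le_div_iff_of_pos_right (by positivity)] at H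
  have e3 : 384 * m * L * s ^ 2 ≤ 384 * m * L * s := by
    have : s ^ 2 ≤ s := by nlinarith
    have h' : 0 ≤ 384 * m * L := by positivity
    nlinarith
  have e4 : 3 / 16 * c * P * δ ^ 2 ≤ 19296 * m * L * s := by linarith
  have e5 : β * m * (P * δ ^ 2) ≤ 2 * (K * c) * (P * δ ^ 2) :=
    mul_le_mul_of_nonneg_right hc (by positivity)
  have e6 : β * m * (P * δ ^ 2) ≤ 205824 * K * L * s * m := by
    have : 2 * (K * c) * (P * δ ^ 2) = (32 / 3 * K) * (3 / 16 * c * P * δ ^ 2) := by ring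
    rw [this] at e5
    have h' : (32 / 3 * K) * (3 / 16 * c * P * δ ^ 2) ≤ (32 / 3 * K) * (19296 * m * L * s) :=
      mul_le_mul_of_nonneg_left e4 (by positivity)
    linarith
  have e7 : (β * δ ^ 2 * P) * m ≤ (205824 * K * L * s) * m := by linarith
  exact le_of_mul_le_mul_right e7 hm

theorem p_KEYE (h1 : T_ARC) (h2 : T_CT) (h3 : T_PT) (h4 : T_LB) : T_KEYE := by
  intro V _ _ a pos D0 β G m K i h hD hP hdn hTa1 hTa2 hk1
  classical
  have harc := h1 V a pos D0 β G m K i h hD hP hdn hTa1 hTa2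
  have hm : 0 < m := by linarith [hD.m1]
  have hβ := hP.b0
  have hK : (0 : ℝ) < K := by
    have := hP.K1
    exact_mod_cast (by omega : 0 < K)
  have hR : 0 < R0 G m := by
    unfold R0
    have : 0 ≤ Real.log m := Real.log_nonneg hD.m1
    have := hD.gpos
    positivity
  have hk0 : 0 < ka β G m := by unfold ka; positivity
  set L : ℝ := 2 ^ (h + 2) with hL
  have hL0 : 0 < L := by rw [hL]; positivity
  set s : ℝ := Real.sqrt (ka β G m ^ 3 * L) with hs
  have hs0 : 0 < s := Real.sqrt_pos.mpr (by positivity)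
  have hs1 : s ≤ 1 := by
    rw [hs]
    calc Real.sqrt (ka β G m ^ 3 * L) ≤ Real.sqrt 1 := Real.sqrt_le_sqrt hk1
      _ = 1 := Real.sqrt_one
  have hs2 : ka β G m ^ 3 * L = s ^ 2 := by rw [hs, Real.sq_sqrt (by positivity)]
  obtain ⟨k, hkK, hk⟩ := KEYE_pigeon (GA a pos D0 β G m i h)
    (fun e => min (dn a e.1) (dn a e.2)) K
    (fun e _ => le_min (hD.iso _) (hD.iso _)) (fun e _ => lt_of_le_of_lt (min_le_left _ _) (hdn _))
    hP.K1
  set d0 : ℝ := 2 ^ k with hd0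
  have hd00 : 0 < d0 := by rw [hd0]; positivity
  set ν : ℝ := s / L * d0 ^ 2 with hν
  have hν0 : 0 < ν := by rw [hν]; positivity
  have hLB := h4 V a pos D0 β G m K i h k hD hP
  have hPT : ∀ t, Lt a pos D0 β G m h k t ≤ 9216 * ka β G m ^ 3 * L / ν
      + ct a pos D0 h t * (L * (80 * ν / d0 ^ 4 + 64 * ka β G m ^ 3 / d0 ^ 2)) :=
    fun t => h3 V a pos D0 β G m ν K i h k t hD hP hν0
  have hCT := h2 V a pos D0 β G m K i h (∑ u, dn a u) hD hP
  have hN : ((∑ u, dn a u : ℕ) : ℝ) = 2 * m := by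
    push_cast
    exact hD.sumdn
  have hsum : ∑ t ∈ range (∑ u, dn a u), Lt a pos D0 β G m h k t
      ≤ 2 * m * (9216 * ka β G m ^ 3 * L / ν)
        + 6 * m * L * (L * (80 * ν / d0 ^ 4 + 64 * ka β G m ^ 3 / d0 ^ 2)) := by
    refine le_trans (sum_le_sum (fun t _ => hPT t)) ?_
    rw [sum_add_distrib, sum_const, card_range, nsmul_eq_mul, hN, ← sum_mul]
    have : 0 ≤ L * (80 * ν / d0 ^ 4 + 64 * ka β G m ^ 3 / d0 ^ 2) := by positivity
    have := mul_le_mul_of_nonneg_right hCT this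
    linarith
  refine KEYE_num m d0 L s β (de β) K
    (((GA a pos D0 β G m i h).filter (fun e => 2 ^ k ≤ min (dn a e.1) (dn a e.2) ∧
      min (dn a e.1) (dn a e.2) < 2 ^ (k + 1))).card : ℝ) (2 ^ i) (ka β G m ^ 3)
    hm hd00 hL0 hs0 hs1 hK ?_ (by positivity) hs2 ?_
  · linarith
  · exact le_trans hLB hsum

end Pool.Agent.HSh
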