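import Mathlib
import Pool.Agent.HSh.Targets

set_option autoImplicit false
set_option linter.unusedSectionVars false

namespace Pool.Agent.HSh

open Finset Pool.Agent.HLow

theorem p_KSUM : T_KSUM := by
  intro V _ _ A D s lam v hS i p q j
  have e1 : ∀ k, lam k * (tt s v i p k * tt s v q j k)
      = ∑ u, ∑ w, ((s u)⁻¹ * (s w)⁻¹ * ((v i u * v p u) * (v q w * v j w)))
        * (lam k * (v k u * v k w)) := by
    intro k
    unfold tt
    rw [sum_mul_sum, mul_sum]
    apply sum_congr rfl; intro u _
    rw [mul_sum]
    exact sum_congr rfl (fun w _ => by ring)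
  rw [sum_congr rfl (fun k _ => e1 k), sum_comm]
  apply sum_congr rfl; intro u _
  rw [sum_comm]
  apply sum_congr rfl; intro w _
  rw [← mul_sum, ← hS.dec u w]
  have hu := (hS.spos u).ne'
  have hw := (hS.spos w).ne'
  unfold NN
  field_simp

end Pool.Agent.HSh
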