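import Mathlib
import Pool.Agent.HSh.Targets

/-! LB: lower bound of the sum of the commutator sums. -/

set_option autoImplicit false
set_option linter.unusedSectionVars false

namespace Pool.Agent.HSh

open Finset Pool.Agent.HLow

section

variable {V : Type} [Fintype V] [DecidableEq V]

/-- number of admissible times -/
lemma LB_count {X Y l i dz N : ℕ} (h1 : X + l = Y) (h2 : 2 ^ i ≤ l) (h3 : 16 * dz ≤ 2 ^ i)
    (h4 : 1 ≤ dz) (hN : Y ≤ N) :
    (3 / 4 * 2 ^ i : ℝ) ≤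
      (((range N).filter (fun t => 8 * X + 2 ^ i ≤ 8 * t ∧ 8 * t + 2 ^ i ≤ 8 * Y)).card : ℝ) := by
  have hi : 4 ≤ i := by
    by_contra hcon
    have h5 : 2 ^ i ≤ 2 ^ 3 := Nat.pow_le_pow_right (by norm_num) (by omega)
    omega
  obtain ⟨q, hq⟩ : ∃ q : ℕ, 2 ^ i = 8 * q := by
    refine ⟨2 ^ (i - 3), ?_⟩
    have : i = (i - 3) + 3 := by omega
    conv_lhs => rw [this, pow_add]
    ring
  have hq1 : 1 ≤ q := by omega
  have hsub : Icc (X + q) (Y - q) ⊆
      (range N).filter (fun t => 8 * X + 2 ^ i ≤ 8 * t ∧ 8 * t + 2 ^ i ≤ 8 * Y) := by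
    intro t ht
    rw [mem_Icc] at ht
    rw [mem_filter, mem_range]
    omega
  have hcard : 6 * q ≤ (Icc (X + q) (Y - q)).card := by
    rw [Nat.card_Icc]
    omega
  have h6 := le_trans hcard (card_le_card hsub)
  have h7 : ((6 * q : ℕ) : ℝ) ≤
      (((range N).filter (fun t => 8 * X + 2 ^ i ≤ 8 * t ∧ 8 * t + 2 ^ i ≤ 8 * Y)).card : ℝ) := by
    exact_mod_cast h6
  have h8 : (2 : ℝ) ^ i = 8 * q := by exact_mod_cast hq
  refine le_trans (le_of_eq ?_) h7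
  rw [h8]
  push_cast
  ring

/-- one term -/
lemma LB_term {x y P δ g : ℝ} (hx : 0 < x) (hy : 0 < y) (hδ : 0 ≤ δ)
    (hmin : min x y ≤ 2 * P) (hg : δ * (x + y) ≤ g) :
    δ ^ 2 / (4 * P ^ 2) ≤ 1 / (x ^ 2 * y ^ 2) * g ^ 2 := by
  have hP : 0 < P := by
    have : 0 < min x y := lt_min hx hy
    linarith
  have h1 : (δ * (x + y)) ^ 2 ≤ g ^ 2 := pow_le_pow_left₀ (by positivity) hg 2
  have h2 : x * y ≤ 2 * P * (x + y) := by
    rcases min_le_iff.mp hmin with h | h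
    · nlinarith
    · nlinarith
  have h3 : (x * y) ^ 2 ≤ (2 * P * (x + y)) ^ 2 := pow_le_pow_left₀ (by positivity) h2 2
  rw [one_div, ← div_eq_inv_mul, div_le_div_iff₀ (by positivity) (by positivity)]
  calc δ ^ 2 * (x ^ 2 * y ^ 2) = δ ^ 2 * (x * y) ^ 2 := by ring
    _ ≤ δ ^ 2 * (2 * P * (x + y)) ^ 2 := mul_le_mul_of_nonneg_left h3 (sq_nonneg _)
    _ = (δ * (x + y)) ^ 2 * (4 * P ^ 2) := by ring
    _ ≤ g ^ 2 * (4 * P ^ 2) := mul_le_mul_of_nonneg_right h1 (by positivity)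

end

theorem p_LB (hDIFF : T_DIFF) : T_LB := by
  intro V _ _ a pos D0 β G m K i h k hD hP
  classical
  obtain ⟨E, hE⟩ : ∃ E, E = (GA a pos D0 β G m i h).filter
      (fun e => 2 ^ k ≤ min (dn a e.1) (dn a e.2) ∧
        min (dn a e.1) (dn a e.2) < 2 ^ (k + 1)) := ⟨_, rfl⟩
  obtain ⟨N, hN⟩ : ∃ N, N = ∑ u, dn a u := ⟨_, rfl⟩
  obtain ⟨c, hc⟩ : ∃ c : ℝ, c = de β ^ 2 / (4 * (2 ^ k) ^ 2) := ⟨_, rfl⟩
  have hc0 : 0 ≤ c := by rw [hc]; positivity
  have hde : 0 ≤ de β := by unfold de; positivity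
  -- membership
  have hmem : ∀ e ∈ E, a e.1 e.2 ≠ 0 ∧ 2 ^ i ≤ ln a pos e.1 e.2 ∧
      e.1 ∈ Gd a pos D0 β G m h ∧ e.2 ∈ Gd a pos D0 β G m h ∧ 16 * dn a e.1 ≤ 2 ^ i ∧
      2 ^ k ≤ dn a e.1 ∧ 2 ^ k ≤ dn a e.2 ∧ min (dn a e.1) (dn a e.2) < 2 ^ (k + 1) ∧
      (e.1, e.2) ∈ GA a pos D0 β G m i h := by
    intro e he
    rw [hE, mem_filter] at he
    obtain ⟨he1, he2, he3⟩ := he
    have he1' := he1
    unfold GA at he1
    rw [mem_filter] at he1
    obtain ⟨-, g1, g2, -, g4, g5, g6, -, -, -⟩ := he1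
    rw [le_min_iff] at he2
    exact ⟨g1, g2, g4, g5, g6, he2.1, he2.2, he3, he1'⟩
  -- one window
  have hone : ∀ t, ∑ e ∈ E, (if 8 * th a pos e.1 + 2 ^ i ≤ 8 * t ∧
      8 * t + 2 ^ i ≤ 8 * (th a pos e.2 + dn a e.2) then c else 0) ≤ Lt a pos D0 β G m h k t := by
    intro t
    rw [← sum_filter]
    unfold Lt
    rw [← sum_product']
    refine le_trans (sum_le_sum (g := fun e : V × V => sy a e.1 e.2 /
      ((dn a e.1 : ℝ) ^ 2 * (dn a e.2 : ℝ) ^ 2) *
        (gt a pos D0 h t e.1 - gt a pos D0 h t e.2) ^ 2) ?_)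
      (sum_le_sum_of_subset_of_nonneg ?_ ?_)
    · intro e he
      rw [mem_filter] at he
      obtain ⟨he, ht1, ht2⟩ := he
      obtain ⟨g1, g2, g3, g4, g5, g6, g7, g8, g9⟩ := hmem e he
      obtain ⟨-, -, hg⟩ := hDIFF V a pos D0 β G m K i h t e.1 e.2 hD hP g9 ht1 ht2
      have hsy : sy a e.1 e.2 = 1 := by
        have h0 : a e.2 e.1 = 0 := hD.dg.anti e.1 e.2 g1
        unfold sy
        rcases hD.dg.zo e.1 e.2 with h1 | h1
        · exact absurd h1 g1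
        · rw [h0, h1]; norm_num
      rw [hsy, hc]
      apply LB_term
      · exact_mod_cast lt_of_lt_of_le (by positivity) g6
      · exact_mod_cast lt_of_lt_of_le (by positivity) g7
      · exact hde
      · have h2 : (min (dn a e.1) (dn a e.2) : ℕ) ≤ 2 * 2 ^ k := by
          rw [pow_succ] at g8
          omega
        exact_mod_cast h2
      · exact hg
    · intro e he
      rw [mem_filter] at he
      obtain ⟨he, ht1, ht2⟩ := he
      obtain ⟨g1, g2, g3, g4, g5, g6, g7, g8, g9⟩ := hmem e he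
      obtain ⟨hw1, hw2, -⟩ := hDIFF V a pos D0 β G m K i h t e.1 e.2 hD hP g9 ht1 ht2
      unfold Uk
      rw [mem_product, mem_filter, mem_filter]
      exact ⟨⟨g3, g6, hw1⟩, ⟨g4, g7, hw2⟩⟩
    · intro e _ _
      have hs : 0 ≤ sy a e.1 e.2 := by
        unfold sy
        have := hD.dg.nonneg e.1 e.2
        have := hD.dg.nonneg e.2 e.1
        linarith
      positivity
  -- sum over the windows
  have hall := sum_le_sum (s := range N) fun t _ => hone t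
  rw [sum_comm] at hall
  have hlow : ∀ e ∈ E, 3 / 4 * 2 ^ i * c ≤ ∑ t ∈ range N,
      (if 8 * th a pos e.1 + 2 ^ i ≤ 8 * t ∧
        8 * t + 2 ^ i ≤ 8 * (th a pos e.2 + dn a e.2) then c else 0) := by
    intro e he
    obtain ⟨g1, g2, g3, g4, g5, g6, g7, g8, g9⟩ := hmem e he
    rw [← sum_filter, sum_const, nsmul_eq_mul]
    refine mul_le_mul_of_nonneg_right ?_ hc0
    have hpos := arc_pos hD.dg g1
    refine LB_count (ln_add hpos) g2 g5 (hD.iso e.1) ?_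
    rw [hN]
    unfold th
    have hnot : e.2 ∉ univ.filter (fun w => pos w < pos e.2) := by simp
    rw [add_comm, ← sum_insert hnot]
    exact sum_le_sum_of_subset (subset_univ _)
  have hfin := le_trans (sum_le_sum hlow) hall
  rw [sum_const, nsmul_eq_mul] at hfin
  rw [← hE, ← hN, ← hc]
  calc (E.card : ℝ) * (3 / 4 * 2 ^ i) * c = (E.card : ℝ) * (3 / 4 * 2 ^ i * c) := by ring
    _ ≤ _ := hfin

end Pool.Agent.HSh
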