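import Mathlib
import Pool.Agent.HSh.Targets

set_option autoImplicit false
set_option linter.unusedSectionVars false

namespace Pool.Agent.HSh

open Finset Pool.Agent.HLow

namespace LSUM_

variable {V : Type} [Fintype V] [DecidableEq V]

/-- length of an arc is at most the sum of the degrees over its position interval -/
lemma ln_le {a : V → V → ℝ} {pos : V → ℕ} {z w : V} (hzw : pos z < pos w) :
    ln a pos z w ≤ ∑ x, (if pos z ≤ pos x ∧ pos x ≤ pos w then dn a x else 0) := by
  have h1 := ln_add (a := a) hzw
  have h2 : th a pos w + dn a w ≤ ∑ x ∈ univ.filter (fun x => pos x ≤ pos w), dn a x := by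
    unfold th
    have hu : w ∉ univ.filter (fun x => pos x < pos w) := by simp
    rw [add_comm, ← sum_insert hu]
    apply sum_le_sum_of_subset
    intro x hx
    rw [mem_insert] at hx
    rcases hx with rfl | hx
    · simp
    · rw [mem_filter] at hx ⊢
      exact ⟨mem_univ _, le_of_lt hx.2⟩
  have h3 : ∑ x ∈ univ.filter (fun x => pos x ≤ pos w), dn a x ≤ th a pos z +
      ∑ x, (if pos z ≤ pos x ∧ pos x ≤ pos w then dn a x else 0) := by
    unfold th
    rw [sum_filter, sum_filter, ← sum_add_distrib]
    apply sum_le_sum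
    intro x _
    by_cases h4 : pos x < pos z
    · rw [if_pos h4]
      split_ifs <;> omega
    · rw [if_neg h4]
      by_cases h5 : pos x ≤ pos w
      · rw [if_pos h5, if_pos ⟨by omega, h5⟩]
        omega
      · rw [if_neg h5]
        exact Nat.zero_le _
  omega

lemma ovr {a : V → V → ℝ} {pos : V → ℕ} {D0 : V → ℝ} {G m : ℝ} (h : Dat a pos D0 G m) (x : V) :
    ∑ z, ∑ w, (if pos z ≤ pos x ∧ pos x ≤ pos w then a z w else 0) ≤ 2 * Real.sqrt (G * m) := by
  have h1 := h.cut (pos x)
  have h2 := h.cut (pos x - 1)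
  have h3 : ∑ z, ∑ w, (if pos z ≤ pos x ∧ pos x ≤ pos w then a z w else 0) ≤
      (∑ u, ∑ v, (if pos u ≤ pos x ∧ pos x < pos v then a u v else 0)) +
      ∑ u, ∑ v, (if pos u ≤ pos x - 1 ∧ pos x - 1 < pos v then a u v else 0) := by
    rw [← sum_add_distrib]
    apply sum_le_sum
    intro z _
    rw [← sum_add_distrib]
    apply sum_le_sum
    intro w _
    have hnn := h.dg.nonneg z w
    by_cases h0 : a z w = 0
    · rw [h0]; simp
    · have hlt := h.dg.lt z w h0
      by_cases h4 : pos z ≤ pos x ∧ pos x ≤ pos w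
      · rw [if_pos h4]
        by_cases h5 : pos x < pos w
        · rw [if_pos ⟨h4.1, h5⟩]
          split_ifs <;> linarith
        · rw [if_neg (by tauto), if_pos (by omega)]
          linarith
      · rw [if_neg h4]
        apply add_nonneg
        · split_ifs <;> linarith
        · split_ifs <;> linarith
  linarith

end LSUM_

theorem p_LSUM : T_LSUM := by
  intro V _ _ a pos D0 G m h
  have h1 : ∀ z w, a z w * (ln a pos z w : ℝ) ≤
      ∑ x, (dn a x : ℝ) * (if pos z ≤ pos x ∧ pos x ≤ pos w then a z w else 0) := by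
    intro z w
    by_cases h0 : a z w = 0
    · rw [h0]; simp
    · have hlt := h.dg.lt z w h0
      have h2 := LSUM_.ln_le (a := a) hlt
      have h3 : (ln a pos z w : ℝ) ≤
          ∑ x, (if pos z ≤ pos x ∧ pos x ≤ pos w then (dn a x : ℝ) else 0) := by
        calc (ln a pos z w : ℝ) ≤
            ((∑ x, (if pos z ≤ pos x ∧ pos x ≤ pos w then dn a x else 0) : ℕ) : ℝ) := by
              exact_mod_cast h2
          _ = _ := by
              rw [Nat.cast_sum]
              apply sum_congr rfl
              intro x _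
              split_ifs <;> simp
      calc a z w * (ln a pos z w : ℝ) ≤ a z w *
            ∑ x, (if pos z ≤ pos x ∧ pos x ≤ pos w then (dn a x : ℝ) else 0) :=
            mul_le_mul_of_nonneg_left h3 (h.dg.nonneg z w)
        _ = _ := by
            rw [mul_sum]
            apply sum_congr rfl
            intro x _
            split_ifs <;> ring
  calc ∑ z, ∑ w, a z w * (ln a pos z w : ℝ) ≤
      ∑ z, ∑ w, ∑ x, (dn a x : ℝ) * (if pos z ≤ pos x ∧ pos x ≤ pos w then a z w else 0) :=
        sum_le_sum fun z _ => sum_le_sum fun w _ => h1 z w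
    _ = ∑ x, (dn a x : ℝ) *
        ∑ z, ∑ w, (if pos z ≤ pos x ∧ pos x ≤ pos w then a z w else 0) := by
        have h4 : ∀ z, ∑ w, ∑ x, (dn a x : ℝ) *
            (if pos z ≤ pos x ∧ pos x ≤ pos w then a z w else 0) =
            ∑ x, ∑ w, (dn a x : ℝ) *
            (if pos z ≤ pos x ∧ pos x ≤ pos w then a z w else 0) := fun z => sum_comm
        rw [sum_congr rfl fun z _ => h4 z, sum_comm]
        apply sum_congr rfl
        intro x _
        rw [mul_sum]
        apply sum_congr rfl
        intro z _
        rw [mul_sum]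
    _ ≤ ∑ x, (dn a x : ℝ) * (2 * Real.sqrt (G * m)) :=
        sum_le_sum fun x _ => mul_le_mul_of_nonneg_left (LSUM_.ovr h x) (Nat.cast_nonneg _)
    _ = 4 * m * Real.sqrt (G * m) := by
        rw [← sum_mul, h.sumdn]
        ring

end Pool.Agent.HSh
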