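import Mathlib
import Pool.Agent.HSh.Targets
import Pool.Agent.HLow.MAIN

set_option autoImplicit false

namespace Pool.Agent.HSh

open Finset Pool.Agent.HLow

lemma MAIN_cut (ε : ℝ) (hε : 0 < ε) (h : T_FIN) : ∃ c : ℝ, 0 < c ∧ ∀ (V : Type) [Fintype V]
    [DecidableEq V] (a : V → V → ℝ) (m : ℝ), (∀ u v, a u v = 0 ∨ a u v = 1) →
    Dicut.Acyclic (fun u v => a u v ≠ 0) → ∑ u, ∑ v, a u v = m → 1 ≤ m →
    ∃ X : Finset V, m / 4 + c * m ^ (5 / 7 - ε : ℝ) ≤ Dicut.dicutWeight a X := by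
  obtain ⟨M, hM1, hk⟩ := h ε hε
  have hMδ : 0 < M ^ (4 / 35 : ℝ) := Real.rpow_pos_of_pos (by linarith) _
  refine ⟨min (1 / 4) (1 / 16 / M ^ (4 / 35 : ℝ)), lt_min (by norm_num) (by positivity), ?_⟩
  intro V _ _ a m h01 hac hm hm1
  have hm0' : 0 < m := by linarith
  have hw : ∀ u v, a u v = 0 ∨ 1 ≤ a u v := by
    intro u v
    rcases h01 u v with e | e
    · left; exact e
    · right; rw [e]
  by_cases hcase : m ≤ M
  · obtain ⟨X, hX⟩ := Dicut.lower_weight hw hac m hm hm1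
    refine ⟨X, le_trans ?_ hX⟩
    have h1 : m ^ (4 / 35 : ℝ) ≤ M ^ (4 / 35 : ℝ) :=
      Real.rpow_le_rpow hm0'.le hcase (by norm_num)
    have h2 : 0 < m ^ (3 / 5 : ℝ) := Real.rpow_pos_of_pos hm0' _
    have h3 : 0 < m ^ (4 / 35 : ℝ) := Real.rpow_pos_of_pos hm0' _
    have hpow : m ^ (5 / 7 - ε : ℝ) ≤ m ^ (3 / 5 : ℝ) * m ^ (4 / 35 : ℝ) := by
      rw [← Real.rpow_add hm0']
      apply Real.rpow_le_rpow_of_exponent_le hm1
      linarith
    have h0 : 0 ≤ m ^ (5 / 7 - ε : ℝ) := Real.rpow_nonneg hm0'.le _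
    have h4 : min (1 / 4) (1 / 16 / M ^ (4 / 35 : ℝ)) * m ^ (5 / 7 - ε : ℝ)
        ≤ 1 / 16 / M ^ (4 / 35 : ℝ) * (m ^ (3 / 5 : ℝ) * m ^ (4 / 35 : ℝ)) := by
      apply mul_le_mul (min_le_right _ _) hpow h0
      positivity
    have h5 : 1 / 16 / M ^ (4 / 35 : ℝ) * (m ^ (3 / 5 : ℝ) * m ^ (4 / 35 : ℝ))
        ≤ 1 / 16 * m ^ (3 / 5 : ℝ) := by
      rw [div_mul_eq_mul_div, div_le_iff₀ hMδ]
      nlinarith
    linarith
  · push Not at hcase
    obtain ⟨X, _, hX⟩ := (univ : Finset (Finset V)).exists_max_image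
      (fun X => Dicut.dicutWeight a X) ⟨∅, mem_univ _⟩
    refine ⟨X, ?_⟩
    by_contra hcon
    push Not at hcon
    have hloop : ∀ v, a v v = 0 := by
      intro v
      by_contra hne
      exact hac v (Relation.TransGen.single hne)
    have hpos : 0 ≤ m ^ (5 / 7 - ε : ℝ) := Real.rpow_nonneg hm0'.le _
    have h4 : min (1 / 4) (1 / 16 / M ^ (4 / 35 : ℝ)) * m ^ (5 / 7 - ε : ℝ)
        ≤ 1 / 4 * m ^ (5 / 7 - ε : ℝ) := mul_le_mul_of_nonneg_right (min_le_left _ _) hpos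
    have D : Dicut.WData a (m ^ (5 / 7 - ε : ℝ)) :=
      ⟨hw, hac, fun x hx => Dicut.Gf_le a hloop _ (by
        intro Y
        rw [hm]
        have := hX Y (mem_univ _)
        linarith) x hx⟩
    exact absurd (hk V a _ m D h01 (by unfold dp; exact hm) hcase.le) (lt_irrefl _)

theorem p_MAIN (h : T_FIN) : T_MAIN := by
  intro ε hε
  obtain ⟨c, hc, H⟩ := MAIN_cut ε hε h
  refine ⟨c, hc, ?_⟩
  intro m hm
  have hm1 : (1 : ℝ) ≤ m := by exact_mod_cast hm
  refine le_trans (Nat.le_ceil _) ?_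
  have hh : ⌈(m : ℝ) / 4 + c * (m : ℝ) ^ (5 / 7 - ε : ℝ)⌉₊ ≤ Dicut.h m := by
    unfold Dicut.h
    apply le_csSup
    · obtain ⟨A, hA, hcard⟩ := MAIN_ex m
      refine ⟨m, ?_⟩
      intro k hk
      obtain ⟨X, hX⟩ := hk (Fin (m + 1)) A hA hcard
      refine le_trans hX ?_
      unfold Dicut.dicutSize
      exact le_trans (card_filter_le _ _) (le_of_eq hcard)
    · intro V _ _ A hac hcard
      set a : V → V → ℝ := fun u v => if (u, v) ∈ A then 1 else 0 with ha
      have h01 : ∀ u v, a u v = 0 ∨ a u v = 1 := by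
        intro u v
        simp only [ha]
        split_ifs
        · right; rfl
        · left; rfl
      have hac' : Dicut.Acyclic (fun u v => a u v ≠ 0) := by
        have : (fun u v => a u v ≠ 0) = (fun u v => (u, v) ∈ A) := by
          ext u v
          simp [ha]
        rw [this]; exact hac
      have htot : ∑ u, ∑ v, a u v = m := by
        rw [← hcard, ← sum_product']
        simp [ha]
      obtain ⟨X, hX⟩ := H V a m h01 hac' htot hm1
      refine ⟨X, ?_⟩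
      apply Nat.ceil_le.mpr
      refine le_trans hX (le_of_eq ?_)
      have e1 : A.filter (fun e => e.1 ∈ X ∧ e.2 ∉ X) = (X ×ˢ Xᶜ).filter (fun e => (e.1, e.2) ∈ A) := by
        ext e
        simp only [mem_filter, mem_product, mem_compl]
        tauto
      unfold Dicut.dicutWeight Dicut.dicutSize
      rw [e1, card_filter, ← sum_product']
      push_cast
      rfl
  exact_mod_cast hh

end Pool.Agent.HSh
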