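import Mathlib
import Pool.Agent.HSh.Targets

set_option autoImplicit false
set_option linter.unusedSectionVars false

namespace Pool.Agent.HSh

open Finset Pool.Agent.HLow

theorem p_NRM (h1 : T_ORT) : T_NRM := by
  intro V _ _ A D s lam v hS Z
  apply sum_congr rfl; intro i _
  have e1 : ∀ j k, lam i * lam j * lam k * (∑ p, Z i p * tt s v p j k) ^ 2
      = ∑ p, ∑ p', (lam i * (Z i p * Z i p'))
        * (lam j * lam k * (tt s v p j k * tt s v p' j k)) := by
    intro j k
    rw [sq, sum_mul_sum, mul_sum]
    apply sum_congr rfl; intro p _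
    rw [mul_sum]
    exact sum_congr rfl (fun p' _ => by ring)
  rw [sum_congr rfl (fun j _ => sum_congr rfl (fun k _ => e1 j k))]
  have e2 : ∑ j, ∑ k, ∑ p, ∑ p', (lam i * (Z i p * Z i p'))
        * (lam j * lam k * (tt s v p j k * tt s v p' j k))
      = ∑ p, ∑ p', (lam i * (Z i p * Z i p'))
        * ∑ j, ∑ k, lam j * lam k * (tt s v p j k * tt s v p' j k) := by
    have e3 : ∀ j, ∑ k, ∑ p, ∑ p', (lam i * (Z i p * Z i p'))
          * (lam j * lam k * (tt s v p j k * tt s v p' j k))
        = ∑ p, ∑ p', (lam i * (Z i p * Z i p'))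
          * ∑ k, lam j * lam k * (tt s v p j k * tt s v p' j k) := by
      intro j
      rw [sum_comm]
      apply sum_congr rfl; intro p _
      rw [sum_comm]
      apply sum_congr rfl; intro p' _
      rw [mul_sum]
    rw [sum_congr rfl (fun j _ => e3 j), sum_comm]
    apply sum_congr rfl; intro p _
    rw [sum_comm]
    apply sum_congr rfl; intro p' _
    rw [mul_sum]
  rw [e2]
  apply sum_congr rfl; intro p _
  have e4 : ∀ p', (lam i * (Z i p * Z i p'))
        * ∑ j, ∑ k, lam j * lam k * (tt s v p j k * tt s v p' j k)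
      = if p = p' then (lam i * (Z i p * Z i p')) * (lam p + 1) else 0 := by
    intro p'
    rw [h1 V A D s lam v hS p p']
    split_ifs <;> ring
  rw [sum_congr rfl (fun p' _ => e4 p')]
  simp
  ring

end Pool.Agent.HSh
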