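import Mathlib
import Pool.Agent.HSh.Targets

set_option autoImplicit false
set_option linter.unusedSectionVars false

namespace Pool.Agent.HSh

open Finset Pool.Agent.HLow

theorem p_ORT (h1 : T_KSUM) : T_ORT := by
  intro V _ _ A D s lam v hS i i'
  have e1 : ∀ j, ∑ k, lam j * lam k * (tt s v i j k * tt s v i' j k)
      = ∑ u, ∑ w, (MM A D u w * (v i u * v i' w)) * (lam j * (v j u * v j w)) := by
    intro j
    have h := h1 V A D s lam v hS i j i' j
    have e2 : ∀ k, lam j * lam k * (tt s v i j k * tt s v i' j k)
        = lam j * (lam k * (tt s v i j k * tt s v i' j k)) := fun k => by ring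
    rw [sum_congr rfl (fun k _ => e2 k), ← mul_sum, h, mul_sum]
    apply sum_congr rfl; intro u _
    rw [mul_sum]
    exact sum_congr rfl (fun w _ => by ring)
  rw [sum_congr rfl (fun j _ => e1 j), sum_comm]
  have e3 : ∀ u, ∑ j, ∑ w, (MM A D u w * (v i u * v i' w)) * (lam j * (v j u * v j w))
      = v i u * (lam i' * v i' u) + v i u * v i' u := by
    intro u
    rw [sum_comm]
    have e4 : ∀ w, ∑ j, (MM A D u w * (v i u * v i' w)) * (lam j * (v j u * v j w))
        = v i u * (NN A D s u w * v i' w) + if u = w then v i u * v i' w else 0 := by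
      intro w
      rw [← mul_sum, ← hS.dec u w]
      have := hS.MN u w
      have e5 : MM A D u w * (v i u * v i' w) * NN A D s u w
          = (MM A D u w * NN A D s u w) * (v i u * v i' w) := by ring
      rw [e5, this]
      split_ifs <;> ring
    rw [sum_congr rfl (fun w _ => e4 w), sum_add_distrib, ← mul_sum, hS.eig i' u]
    congr 1
    simp
  rw [sum_congr rfl (fun u _ => e3 u)]
  have e6 : ∀ u, v i u * (lam i' * v i' u) + v i u * v i' u = (lam i' + 1) * (v i u * v i' u) :=
    fun u => by ring
  rw [sum_congr rfl (fun u _ => e6 u), ← mul_sum, hS.row i i']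
  by_cases e : i = i'
  · rw [if_pos e, if_pos e, e]; ring
  · rw [if_neg e, if_neg e]; ring

end Pool.Agent.HSh
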