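import Pool.Agent.HSh.Targets

set_option autoImplicit false

/-!
# PRM: the parameters are in the allowed range
-/

namespace Pool.Agent.HSh

/-- the real powers in terms of `y = m ^ (1 / 7)` and `x = m ^ (ε / 100)` -/
private theorem PRM_pow (ε G m : ℝ) (hm : 2 ≤ m) (hG : G ≤ m ^ (5 / 7 - ε : ℝ)) :
    ∃ y : ℝ, 1 ≤ y ∧ m = y ^ 7 ∧ m ^ ε = (m ^ (ε / 100 : ℝ)) ^ 100 ∧
      G * (m ^ (ε / 100 : ℝ)) ^ 100 ≤ y ^ 5 := by
  have hm0 : 0 < m := by linarith
  have hx : (m ^ (ε / 100 : ℝ)) ^ 100 = m ^ ε := by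
    rw [← Real.rpow_natCast, ← Real.rpow_mul hm0.le]
    congr 1
    push_cast
    ring
  refine ⟨m ^ (1 / 7 : ℝ), Real.one_le_rpow (by linarith) (by norm_num), ?_, hx.symm, ?_⟩
  · rw [← Real.rpow_natCast, ← Real.rpow_mul hm0.le]
    norm_num
  · rw [hx, ← Real.rpow_natCast, ← Real.rpow_mul hm0.le]
    have h5 : m ^ (1 / 7 * ((5 : ℕ) : ℝ) : ℝ) = m ^ (5 / 7 - ε : ℝ) * m ^ ε := by
      rw [← Real.rpow_add hm0]
      congr 1
      push_cast
      ring
    rw [h5]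
    exact mul_le_mul_of_nonneg_right hG (Real.rpow_nonneg hm0.le _)

/-- the basic estimates -/
private theorem PRM_base (G m β x y : ℝ) (q i h : ℕ) (hm : 2 ≤ m) (hG1 : 1 ≤ G)
    (hβ : 0 < β) (hβx : 1 ≤ β * x) (hx : 10 ^ 40 ≤ x) (hlog : 16 * (8 * Real.log m + 10) ≤ x)
    (hy : 1 ≤ y) (hmy : m = y ^ 7) (hGy : G * x ^ 100 ≤ y ^ 5) (hq : (2 : ℝ) ^ q ≤ x ^ 100)
    (hh : h ≤ i + q) (hi : 2 ^ i * β ≤ 4 * Real.sqrt (G * m)) :
    0 ≤ ka β G m ∧ ka β G m * (x ^ 98 * y ^ 2) ≤ 1 ∧ Real.sqrt (G * m) * x ^ 50 ≤ y ^ 6 ∧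
      (2 : ℝ) ^ (h + 2) ≤ 16 * (x ^ 51 * y ^ 6) := by
  have hx0 : 0 < x := lt_of_lt_of_le (by norm_num) hx
  have hx1 : 1 ≤ x := le_trans (by norm_num) hx
  have hy0 : 0 < y := by linarith
  have hm0 : 0 < m := by linarith
  have hlm : 0 ≤ Real.log m := Real.log_nonneg (by linarith)
  have hR0 : 0 ≤ R0 G m := by unfold R0; positivity
  have hR : 16 * R0 G m ≤ x * G := by
    have h1 : R0 G m ≤ (8 * Real.log m + 10) * G := by
      unfold R0
      nlinarith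
    nlinarith
  have hbm : 0 < β * m := by positivity
  have hka : ka β G m * (x ^ 98 * y ^ 2) ≤ 1 := by
    unfold ka
    rw [div_mul_eq_mul_div, div_le_one hbm]
    calc 16 * R0 G m * (x ^ 98 * y ^ 2) ≤ x * G * (x ^ 98 * y ^ 2) :=
          mul_le_mul_of_nonneg_right hR (by positivity)
      _ = G * x ^ 99 * y ^ 2 * 1 := by ring
      _ ≤ G * x ^ 99 * y ^ 2 * (β * x) :=
          mul_le_mul_of_nonneg_left hβx (by positivity)
      _ = (G * x ^ 100) * (y ^ 2 * β) := by ring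
      _ ≤ y ^ 5 * (y ^ 2 * β) := mul_le_mul_of_nonneg_right hGy (by positivity)
      _ = β * m := by rw [hmy]; ring
  have hs : Real.sqrt (G * m) * x ^ 50 ≤ y ^ 6 := by
    have h1 : (Real.sqrt (G * m) * x ^ 50) ^ 2 ≤ (y ^ 6) ^ 2 := by
      rw [mul_pow, Real.sq_sqrt (by positivity)]
      calc G * m * (x ^ 50) ^ 2 = (G * x ^ 100) * m := by ring
        _ ≤ y ^ 5 * m := mul_le_mul_of_nonneg_right hGy hm0.le
        _ = (y ^ 6) ^ 2 := by rw [hmy]; ring
    exact (sq_le_sq₀ (by positivity) (by positivity)).mp h1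
  refine ⟨by unfold ka; positivity, hka, hs, ?_⟩
  have h2i : (2 : ℝ) ^ i ≤ 4 * Real.sqrt (G * m) * x := by
    have h0 : (0 : ℝ) ≤ 2 ^ i := by positivity
    calc (2 : ℝ) ^ i = 2 ^ i * 1 := by ring
      _ ≤ 2 ^ i * (β * x) := mul_le_mul_of_nonneg_left hβx h0
      _ = (2 ^ i * β) * x := by ring
      _ ≤ _ := mul_le_mul_of_nonneg_right hi hx0.le
  calc (2 : ℝ) ^ (h + 2) ≤ 2 ^ (i + q + 2) := pow_le_pow_right₀ (by norm_num) (by omega)
    _ = 4 * (2 ^ i * 2 ^ q) := by rw [pow_add, pow_add]; norm_num; ring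
    _ ≤ 4 * (4 * Real.sqrt (G * m) * x * x ^ 100) := by
        refine mul_le_mul_of_nonneg_left ?_ (by norm_num)
        exact mul_le_mul h2i hq (by positivity) (by positivity)
    _ = 16 * (x ^ 51 * (Real.sqrt (G * m) * x ^ 50)) := by ring
    _ ≤ 16 * (x ^ 51 * y ^ 6) := by
        refine mul_le_mul_of_nonneg_left ?_ (by norm_num)
        exact mul_le_mul_of_nonneg_left hs (by positivity)

theorem p_PRM : T_PRM := by
  intro ε G m β K q i h hε _ hm hG1 hG hβ hβ1 hβx hK1 hK hx hlog hq hih hh hi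
  obtain ⟨y, hy, hmy, hxe, hGy⟩ := PRM_pow ε G m hm hG
  set x : ℝ := m ^ (ε / 100 : ℝ) with hxd
  rw [hxe] at hq
  obtain ⟨hka0, hka, hs, h2h⟩ := PRM_base G m β x y q i h hm hG1 hβ hβx hx hlog hy hmy hGy hq hh hi
  have hx0 : 0 < x := lt_of_lt_of_le (by norm_num) hx
  have hx1 : 1 ≤ x := le_trans (by norm_num) hx
  have hy0 : 0 < y := by linarith
  have hm0 : 0 < m := by linarith
  have hpow : ∀ n : ℕ, 1 ≤ x ^ n := fun n => one_le_pow₀ hx1
  have hypow : ∀ n : ℕ, 1 ≤ y ^ n := fun n => one_le_pow₀ hy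
  have hka3 : ka β G m ^ 3 * (x ^ 294 * y ^ 6) ≤ 1 := by
    have h1 : (ka β G m * (x ^ 98 * y ^ 2)) ^ 3 ≤ 1 := pow_le_one₀ (by positivity) hka
    calc ka β G m ^ 3 * (x ^ 294 * y ^ 6) = (ka β G m * (x ^ 98 * y ^ 2)) ^ 3 := by ring
      _ ≤ 1 := h1
  have hka30 : 0 ≤ ka β G m ^ 3 := by positivity
  refine ⟨⟨hβ, hβ1, hm, hK1, hih, ?_, ?_, ?_⟩, ?_⟩
  · -- kd
    unfold de
    rw [le_div_iff₀ (by norm_num)]
    have h1 : ka β G m * 10 ^ 7 * x ^ 2 ≤ 1 := by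
      calc ka β G m * 10 ^ 7 * x ^ 2 = ka β G m * (10 ^ 7 * x ^ 2) := by ring
        _ ≤ ka β G m * (x ^ 98 * y ^ 2) := by
            refine mul_le_mul_of_nonneg_left ?_ hka0
            calc (10 : ℝ) ^ 7 * x ^ 2 ≤ x * x ^ 2 :=
                  mul_le_mul_of_nonneg_right (le_trans (by norm_num) hx) (by positivity)
              _ = x ^ 3 * 1 := by ring
              _ ≤ x ^ 98 * y ^ 2 :=
                  mul_le_mul (pow_le_pow_right₀ hx1 (by norm_num)) (hypow 2) (by norm_num)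
                    (by positivity)
        _ ≤ 1 := hka
    have h2 : 1 ≤ (β * x) ^ 2 := one_le_pow₀ hβx
    have h3 : ka β G m * 10 ^ 7 * x ^ 2 ≤ β ^ 2 * x ^ 2 := by
      calc _ ≤ (1 : ℝ) := h1
        _ ≤ (β * x) ^ 2 := h2
        _ = _ := by ring
    exact le_of_mul_le_mul_right h3 (by positivity)
  · -- im
    unfold de
    have h1 : (β ^ 2 / 10 ^ 7) ^ 2 * (β * m) = β ^ 5 * m / 10 ^ 14 := by ring
    rw [h1, le_div_iff₀ (by norm_num)]
    have h2 : 256 * (K : ℝ) * G * 10 ^ 14 * x ^ 98 ≤ y ^ 5 := by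
      calc 256 * (K : ℝ) * G * 10 ^ 14 * x ^ 98 = (256 * 10 ^ 14) * (K : ℝ) * (G * x ^ 98) := by
            ring
        _ ≤ x * x * (G * x ^ 98) := by
            refine mul_le_mul_of_nonneg_right ?_ (by positivity)
            exact mul_le_mul (le_trans (by norm_num) hx) hK (by positivity) hx0.le
        _ = G * x ^ 100 := by ring
        _ ≤ y ^ 5 := hGy
    have h3 : 256 * (K : ℝ) * G * 10 ^ 14 * x ^ 5 ≤ β ^ 5 * m * x ^ 5 := by
      have h4 : 1 ≤ (β * x) ^ 5 := one_le_pow₀ hβx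
      calc 256 * (K : ℝ) * G * 10 ^ 14 * x ^ 5 ≤ 256 * (K : ℝ) * G * 10 ^ 14 * x ^ 98 :=
            mul_le_mul_of_nonneg_left (pow_le_pow_right₀ hx1 (by norm_num)) (by positivity)
        _ ≤ y ^ 5 := h2
        _ ≤ y ^ 7 := pow_le_pow_right₀ hy (by norm_num)
        _ = 1 * m := by rw [hmy]; ring
        _ ≤ (β * x) ^ 5 * m := mul_le_mul_of_nonneg_right h4 hm0.le
        _ = _ := by ring
    exact le_of_mul_le_mul_right h3 (by positivity)
  · -- kk
    have h1 : 24 * ka β G m ^ 3 * Real.sqrt (G * m) * x ^ 50 ≤ 1 := by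
      calc 24 * ka β G m ^ 3 * Real.sqrt (G * m) * x ^ 50 =
            24 * ka β G m ^ 3 * (Real.sqrt (G * m) * x ^ 50) := by ring
        _ ≤ 24 * ka β G m ^ 3 * y ^ 6 := mul_le_mul_of_nonneg_left hs (by positivity)
        _ = ka β G m ^ 3 * (24 * y ^ 6) := by ring
        _ ≤ ka β G m ^ 3 * (x ^ 294 * y ^ 6) := by
            refine mul_le_mul_of_nonneg_left ?_ hka30
            refine mul_le_mul_of_nonneg_right ?_ (by positivity)
            calc (24 : ℝ) ≤ x := le_trans (by norm_num) hx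
              _ = x ^ 1 := by ring
              _ ≤ x ^ 294 := pow_le_pow_right₀ hx1 (by norm_num)
        _ ≤ 1 := hka3
    calc 24 * ka β G m ^ 3 * Real.sqrt (G * m) = 24 * ka β G m ^ 3 * Real.sqrt (G * m) * 1 := by
          ring
      _ ≤ 24 * ka β G m ^ 3 * Real.sqrt (G * m) * x ^ 50 :=
          mul_le_mul_of_nonneg_left (hpow 50) (by positivity)
      _ ≤ 1 := h1
  · calc ka β G m ^ 3 * 2 ^ (h + 2) ≤ ka β G m ^ 3 * (16 * (x ^ 51 * y ^ 6)) :=
          mul_le_mul_of_nonneg_left h2h hka30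
      _ ≤ ka β G m ^ 3 * (x ^ 294 * y ^ 6) := by
          refine mul_le_mul_of_nonneg_left ?_ hka30
          calc 16 * (x ^ 51 * y ^ 6) ≤ x * (x ^ 51 * y ^ 6) :=
                mul_le_mul_of_nonneg_right (le_trans (by norm_num) hx) (by positivity)
            _ = x ^ 52 * y ^ 6 := by ring
            _ ≤ x ^ 294 * y ^ 6 := by
                refine mul_le_mul_of_nonneg_right ?_ (by positivity)
                exact pow_le_pow_right₀ hx1 (by norm_num)
      _ ≤ 1 := hka3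

end Pool.Agent.HSh
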