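import Mathlib
import Pool.Agent.HSh.Targets

set_option autoImplicit false

namespace Pool.Agent.HSh

open Finset Pool.Agent.HLow

namespace SCALE_

/-- the thresholds -/
noncomputable def ph (Q : ℝ) : ℕ → ℝ
  | 0 => 1
  | j + 1 => ph Q j ^ 3 / Q

/-- the exponents -/
def ex : ℕ → ℕ
  | 0 => 0
  | j + 1 => 3 * ex j + 1

lemma ex_le (j : ℕ) : ex j + 1 ≤ 3 ^ j := by
  induction j with
  | zero => simp [ex]
  | succ j ih => rw [ex, pow_succ]; omega

lemma ph_pos {Q : ℝ} (hQ : 8 ≤ Q) (j : ℕ) : 0 < ph Q j := by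
  induction j with
  | zero => simp [ph]
  | succ j ih => rw [ph]; positivity

lemma ph_le {Q : ℝ} (hQ : 8 ≤ Q) (j : ℕ) : ph Q j ≤ 1 := by
  induction j with
  | zero => simp [ph]
  | succ j ih =>
    rw [ph, div_le_one (by linarith)]
    have h0 := ph_pos hQ j
    have : ph Q j ^ 3 ≤ 1 := pow_le_one₀ h0.le ih
    linarith

lemma ph_eq {Q : ℝ} (hQ : 8 ≤ Q) (j : ℕ) : ph Q j * Q ^ ex j = 1 := by
  induction j with
  | zero => simp [ph, ex]
  | succ j ih =>
    have hQ0 : Q ≠ 0 := by linarith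
    have h1 : Q ^ (3 * ex j + 1) = (Q ^ ex j) ^ 3 * Q := by rw [pow_succ, mul_comm 3, pow_mul]
    have h2 : (ph Q j * Q ^ ex j) ^ 3 = 1 := by rw [ih]; norm_num
    rw [ph, ex, h1, div_mul_eq_mul_div, div_eq_one_iff_eq hQ0]
    calc ph Q j ^ 3 * ((Q ^ ex j) ^ 3 * Q) = (ph Q j * Q ^ ex j) ^ 3 * Q := by ring
      _ = Q := by rw [h2, one_mul]

lemma ph_half {Q : ℝ} (hQ : 8 ≤ Q) (j : ℕ) : ph Q (j + 1) ≤ ph Q j / 2 := by
  rw [ph, div_le_iff₀ (by linarith)]
  have h0 := ph_pos hQ j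
  have h1 := ph_le hQ j
  have h2 : ph Q j ^ 3 ≤ ph Q j := by
    nlinarith [mul_nonneg h0.le (sub_nonneg.2 h1), mul_nonneg (sq_nonneg (ph Q j)) (sub_nonneg.2 h1)]
  nlinarith

lemma exists_cross {τ : ℕ → ℝ} {Y c : ℝ} (h0 : τ 0 = 1) (hY : ∀ j, 2 ^ j * τ j ≤ Y)
    (hc : 0 < c) (hc1 : c ≤ 1) : ∃ x, c ≤ τ x ∧ τ (x + 1) < c := by
  by_contra hne
  push Not at hne
  have hall : ∀ x, c ≤ τ x := by
    intro x
    induction x with
    | zero => rw [h0]; exact hc1
    | succ x ih => exact hne x ih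
  obtain ⟨n, hn⟩ := pow_unbounded_of_one_lt (Y / c) (one_lt_two : (1 : ℝ) < 2)
  have h1 := hY n
  have h2 : (2 : ℝ) ^ n * c ≤ 2 ^ n * τ n := mul_le_mul_of_nonneg_left (hall n) (by positivity)
  rw [div_lt_iff₀ hc] at hn
  linarith

lemma tele (τ : ℕ → ℝ) (a n : ℕ) (β : ℝ) (h : ∀ i, a ≤ i → i < a + n → τ i - τ (i + 1) < β) :
    τ a - τ (a + n) ≤ n * β := by
  induction n with
  | zero => simp
  | succ n ih =>
    have h1 := ih (fun i h1 h2 => h i h1 (by omega))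
    have h2 := h (a + n) (by omega) (by omega)
    push_cast
    have h3 : τ (a + (n + 1)) = τ (a + n + 1) := rfl
    rw [h3]
    nlinarith

end SCALE_

open SCALE_ in
theorem p_SCALE : T_SCALE := by
  intro q J P Y τ hJ hP hanti h0 hnn hY hlt
  set Q : ℝ := 8 * ((q : ℝ) + 1) ^ 3 * P with hQd
  have hq0 : (0 : ℝ) ≤ q := Nat.cast_nonneg q
  have hq1 : (1 : ℝ) ≤ ((q : ℝ) + 1) ^ 3 := one_le_pow₀ (by linarith)
  have hQ : 8 ≤ Q := by rw [hQd]; nlinarith
  have hY1 : 1 ≤ Y := by have := hY 0; rw [h0] at this; simpa using this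
  have hex : ∀ j, ∃ x, ph Q j ≤ τ x ∧ τ (x + 1) < ph Q j := fun j =>
    exists_cross h0 hY (ph_pos hQ j) (ph_le hQ j)
  choose x hx1 hx2 using hex
  -- some step is short
  have hstep : ∃ j < J, x (j + 1) ≤ x j + q := by
    by_contra hne
    push Not at hne
    have hge : ∀ j, j ≤ J → j * q ≤ x j := by
      intro j
      induction j with
      | zero => intro _; simp
      | succ j ih =>
        intro hj
        have h1 := ih (by omega)
        have h2 := hne j (by omega)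
        rw [Nat.succ_mul]
        omega
    have h1 := hge J le_rfl
    have h2 := hx1 J
    have h3 := hY (x J)
    have h4 : (2 : ℝ) ^ (J * q) ≤ 2 ^ (x J) := pow_le_pow_right₀ (by norm_num) h1
    have h5 : (2 : ℝ) ^ (J * q) * ph Q J ≤ Y := by
      calc (2 : ℝ) ^ (J * q) * ph Q J ≤ 2 ^ (x J) * τ (x J) :=
            mul_le_mul h4 h2 (ph_pos hQ J).le (by positivity)
        _ ≤ Y := h3
    have h6 : (2 : ℝ) ^ (J * q) ≤ Y * Q ^ ex J := by
      have hp : (0 : ℝ) < Q ^ ex J := by positivity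
      calc (2 : ℝ) ^ (J * q) = 2 ^ (J * q) * (ph Q J * Q ^ ex J) := by rw [ph_eq hQ, mul_one]
        _ = (2 ^ (J * q) * ph Q J) * Q ^ ex J := by ring
        _ ≤ Y * Q ^ ex J := mul_le_mul_of_nonneg_right h5 hp.le
    have h7 : Q ^ ex J ≤ Q ^ (3 ^ J) :=
      pow_le_pow_right₀ (by linarith) (by have := ex_le J; omega)
    have h8 : Y * Q ^ ex J ≤ Y * Q ^ (3 ^ J) := mul_le_mul_of_nonneg_left h7 (by linarith)
    linarith
  obtain ⟨j, hj, hxs⟩ := hstep
  set a := x j with ha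
  set b := x (j + 1) with hb
  have hpj := ph_pos hQ j
  have hab : a ≤ b := by
    by_contra hne
    push Not at hne
    have h1 : τ a ≤ τ (b + 1) := hanti (by omega)
    have h2 := hx1 j
    have h3 := hx2 (j + 1)
    have h4 := ph_half hQ j
    rw [← ha] at h2
    rw [← hb] at h3
    linarith
  set β : ℝ := ph Q j / (2 * ((q : ℝ) + 1)) with hβ
  have hβ0 : 0 < β := by positivity
  have hex2 : ∃ i, a ≤ i ∧ i < a + (b + 1 - a) ∧ β ≤ τ i - τ (i + 1) := by
    by_contra hne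
    push Not at hne
    have h1 := tele τ a (b + 1 - a) β hne
    have h2 : a + (b + 1 - a) = b + 1 := by omega
    rw [h2] at h1
    have h3 : ((b + 1 - a : ℕ) : ℝ) ≤ (q : ℝ) + 1 := by
      have : b + 1 - a ≤ q + 1 := by omega
      exact_mod_cast this
    have h4 : ((b + 1 - a : ℕ) : ℝ) * β ≤ ((q : ℝ) + 1) * β :=
      mul_le_mul_of_nonneg_right h3 hβ0.le
    have h5 : ((q : ℝ) + 1) * β = ph Q j / 2 := by
      rw [hβ]; field_simp
    have h6 := hx1 j
    have h7 := hx2 (j + 1)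
    have h8 := ph_half hQ j
    rw [← ha] at h6
    rw [← hb] at h7
    linarith
  obtain ⟨i, hi1, hi2, hi3⟩ := hex2
  refine ⟨β, i, b, hβ0, ?_, ?_, by omega, by omega, hi3, ?_⟩
  · rw [hβ, div_le_one (by positivity)]
    have := ph_le hQ j
    linarith
  · have h1 : Q ^ (ex j + 1) ≤ Q ^ (3 ^ J) :=
      pow_le_pow_right₀ (by linarith) ((ex_le j).trans (Nat.pow_le_pow_right (by norm_num) hj.le))
    have h2 : 2 * ((q : ℝ) + 1) ≤ Q := by
      have h3 : ((q : ℝ) + 1) ≤ ((q : ℝ) + 1) ^ 3 := by nlinarith [sq_nonneg (q : ℝ)]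
      rw [hQd]; nlinarith
    have h3 : β * Q ^ (ex j + 1) = (ph Q j * Q ^ ex j) * (Q / (2 * ((q : ℝ) + 1))) := by
      rw [hβ, pow_succ]; field_simp
    rw [ph_eq hQ, one_mul] at h3
    calc (1 : ℝ) ≤ Q / (2 * ((q : ℝ) + 1)) := (one_le_div (by positivity)).2 h2
      _ = β * Q ^ (ex j + 1) := h3.symm
      _ ≤ β * Q ^ (3 ^ J) := mul_le_mul_of_nonneg_left h1 hβ0.le
  · have h1 := (hx2 (j + 1)).le
    rw [← hb] at h1
    refine h1.trans (le_of_eq ?_)
    rw [ph, hβ, hQd]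
    have hP0 : P ≠ 0 := by linarith
    field_simp
    ring

end Pool.Agent.HSh
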