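import Mathlib
import Pool.Agent.HSh.Targets

set_option autoImplicit false
set_option linter.unusedSectionVars false

/-!
# Existence of the spectral data (job HSH-SDE)
-/

namespace Pool.Agent.HSh

open Finset Pool.Agent.HLow

section

variable {V : Type} [Fintype V] [DecidableEq V]

/-- the quadratic form of `NN` -/
theorem SDE_form (A : V → V → ℝ) (D s x : V → ℝ) :
    ∑ u, ∑ w, NN A D s u w * (x u * x w) =
      ∑ u, D u * (s u * x u) ^ 2 + ∑ u, ∑ w, A u w * ((s u * x u) * (s w * x w)) := by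
  rw [← sum_add_distrib]
  refine sum_congr rfl fun u _ => ?_
  have h1 : ∀ w, NN A D s u w * (x u * x w) =
      (if u = w then D u * (s u * x u) ^ 2 else 0) + A u w * ((s u * x u) * (s w * x w)) := by
    intro w
    unfold NN MM
    by_cases e : u = w
    · subst e
      rw [if_pos rfl, if_pos rfl]
      ring
    · rw [if_neg e, if_neg e]
      ring
  rw [sum_congr rfl fun w _ => h1 w, sum_add_distrib]
  congr 1
  simp

/-- the quadratic form at an eigenvector -/
theorem SDE_val (N : V → V → ℝ) (lam : V → ℝ) (v : V → V → ℝ)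
    (row : ∀ i j, ∑ u, v i u * v j u = if i = j then 1 else 0)
    (dec : ∀ u w, N u w = ∑ i, lam i * (v i u * v i w)) (i : V) :
    ∑ u, ∑ w, N u w * (v i u * v i w) = lam i := by
  have h1 : ∑ u, ∑ w, N u w * (v i u * v i w) =
      ∑ j, lam j * ((∑ u, v j u * v i u) * (∑ w, v j w * v i w)) := by
    have h2 : ∀ j, lam j * ((∑ u, v j u * v i u) * (∑ w, v j w * v i w)) =
        ∑ u, ∑ w, lam j * ((v j u * v i u) * (v j w * v i w)) := by
      intro j
      rw [sum_mul_sum, mul_sum]
      exact sum_congr rfl fun u _ => mul_sum _ _ _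
    rw [sum_congr rfl fun j _ => h2 j]
    calc ∑ u, ∑ w, N u w * (v i u * v i w)
        = ∑ u, ∑ w, ∑ j, lam j * ((v j u * v i u) * (v j w * v i w)) := by
          refine sum_congr rfl fun u _ => sum_congr rfl fun w _ => ?_
          rw [dec u w, sum_mul]
          exact sum_congr rfl fun j _ => by ring
      _ = ∑ u, ∑ j, ∑ w, lam j * ((v j u * v i u) * (v j w * v i w)) :=
          sum_congr rfl fun u _ => sum_comm
      _ = ∑ j, ∑ u, ∑ w, lam j * ((v j u * v i u) * (v j w * v i w)) := sum_comm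
  rw [h1]
  have h3 : ∀ j, lam j * ((∑ u, v j u * v i u) * (∑ w, v j w * v i w)) =
      if j = i then lam j else 0 := by
    intro j
    rw [row j i]
    split_ifs <;> ring
  rw [sum_congr rfl fun j _ => h3 j]
  simp

end

/-- SDE -/
theorem p_SDE (h1 : T_SPEC) : T_SDE := by
  intro V _ _ A D hA hD hpos
  have hq : ∀ u, 0 < D u ^ 2 - D u := fun u => by nlinarith [hD u]
  set s : V → ℝ := fun u => (Real.sqrt (D u ^ 2 - D u))⁻¹ with hs
  have hs0 : ∀ u, 0 < s u := fun u => inv_pos.2 (Real.sqrt_pos.2 (hq u))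
  have hs2 : ∀ u, s u ^ 2 * (D u ^ 2 - D u) = 1 := fun u => by
    rw [hs]
    simp only
    rw [inv_pow, Real.sq_sqrt (hq u).le, inv_mul_cancel₀ (hq u).ne']
  have hform : ∀ x : V → ℝ, x ≠ 0 → 0 < ∑ u, ∑ w, NN A D s u w * (x u * x w) := by
    intro x hx
    rw [SDE_form]
    refine hpos (fun u => s u * x u) ?_
    intro h
    apply hx
    funext u
    have h2 := congrFun h u
    simp only [Pi.zero_apply, mul_eq_zero] at h2
    exact h2.resolve_left (hs0 u).ne'
  obtain ⟨lam, v, hsp⟩ := h1 V (NN A D s) 0 (NN_symm hA D s) (by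
    intro x
    rw [zero_mul, neg_zero]
    by_cases hx : x = 0
    · subst hx
      simp
    · exact (hform x hx).le)
  refine ⟨s, lam, v, ⟨hA, hD, hs0, hs2, hsp.row, hsp.col, hsp.dec, fun i => ?_⟩⟩
  rw [← SDE_val (NN A D s) lam v hsp.row hsp.dec i]
  refine hform (v i) ?_
  intro h
  have h2 := hsp.row i i
  rw [if_pos rfl, h] at h2
  simp at h2

end Pool.Agent.HSh
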