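import Mathlib
import Pool.Agent.HSh.Targets

set_option autoImplicit false
set_option linter.unusedSectionVars false

/-!
# Few arcs to vertices with few short in-arcs (job HSH-SHM)
-/

namespace Pool.Agent.HSh

open Finset Pool.Agent.HLow

theorem SHM_div {x y P : ℕ} (hP : 0 < P) (h : x / P = y / P) : y < x + P := by
  have h1 := Nat.div_add_mod x P
  have h2 := Nat.div_add_mod y P
  have h3 := Nat.mod_lt y hP
  rw [← h] at h2
  generalize P * (x / P) = q at h1 h2
  omega

theorem SHM_num {β m : ℝ} (hβ : 0 < β) (hm : 0 < m) :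
    33 * ((3 * (β ^ 2 / 10 ^ 7) * (2582 / β) + 2 / (2582 / β)) * m) ≤ 1 / 16 * (β * m) := by
  have h1 : 3 * (β ^ 2 / 10 ^ 7) * (2582 / β) + 2 / (2582 / β) =
      (3 * 2582 / 10 ^ 7 + 2 / 2582) * β := by
    field_simp
  rw [h1]
  have h2 : 0 < β * m := mul_pos hβ hm
  nlinarith

section

variable {V : Type} [Fintype V] [DecidableEq V]

/-- arcs inside a block are short -/
theorem SHM_blk {a : V → V → ℝ} {pos : V → ℕ} (hdg : Dg a pos) (i : ℕ) (S : Finset V) (j : ℕ)
    (hd : ∀ v ∈ S, 16 * dn a v ≤ 2 ^ i) (hj : ∀ v ∈ S, 16 * th a pos v / 2 ^ i = j) (v : V)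
    (hv : v ∈ S) : ∑ u ∈ S, a u v ≤ Fm a pos i v := by
  unfold Fm
  calc ∑ u ∈ S, a u v ≤ ∑ u ∈ S, (if 8 * ln a pos u v ≤ 2 ^ i then a u v else 0) := by
        refine sum_le_sum fun u hu => ?_
        by_cases h0 : a u v = 0
        · rw [h0]
          split_ifs <;> exact le_refl _
        · have h1 := ln_add (a := a) (arc_pos hdg h0)
          have h2 := SHM_div (Nat.pos_of_ne_zero (pow_ne_zero i two_ne_zero))
            ((hj u hu).trans (hj v hv).symm)
          have h3 := hd v hv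
          rw [if_pos (by omega)]
    _ ≤ ∑ u, (if 8 * ln a pos u v ≤ 2 ^ i then a u v else 0) := by
        refine sum_le_sum_of_subset_of_nonneg (subset_univ S) fun u _ _ => ?_
        split_ifs
        · exact hdg.nonneg u v
        · exact le_refl _

end

/-- SHM -/
theorem p_SHM (h1 : T_SHORT) : T_SHM := by
  classical
  intro V _ _ a pos D0 β G m K i h hDat hPar
  have hdg := hDat.dg
  have hβ0 := hPar.b0
  have hβ1 := hPar.b1
  have hm : 0 < m := by linarith [hDat.m1]
  have hδ0 : 0 ≤ de β := by unfold de; positivity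
  have hδ1 : de β ≤ 1 := by
    unfold de
    rw [div_le_one (by positivity)]
    nlinarith
  have hsy0 : ∀ u v, 0 ≤ sy a u v := fun u v => add_nonneg (hdg.nonneg u v) (hdg.nonneg v u)
  set X : Finset V := univ.filter (fun w => 16 * dn a w ≤ 2 ^ i ∧ D0 w ≤ ka β G m * dn a w ∧
    Fm a pos i w < de β * dn a w) with hX
  set Y : Finset V := univ.filter (fun w => 16 * dn a w ≤ 2 ^ i ∧ D0 w ≤ ka β G m * dn a w)
    with hY
  have mX : ∀ w, w ∈ X ↔ 16 * dn a w ≤ 2 ^ i ∧ D0 w ≤ ka β G m * dn a w ∧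
      Fm a pos i w < de β * dn a w := fun w => by
    rw [hX, mem_filter]
    exact ⟨fun h => h.2, fun h => ⟨mem_univ _, h⟩⟩
  have mY : ∀ w, w ∈ Y ↔ 16 * dn a w ≤ 2 ^ i ∧ D0 w ≤ ka β G m * dn a w := fun w => by
    rw [hY, mem_filter]
    exact ⟨fun h => h.2, fun h => ⟨mem_univ _, h⟩⟩
  have hdn0 : ∀ u, (0 : ℝ) ≤ dn a u := fun u => Nat.cast_nonneg _
  have hka : ∀ u, D0 u ≤ ka β G m * dn a u → D0 u ≤ de β * dn a u := fun u hu =>
    hu.trans (mul_le_mul_of_nonneg_right hPar.kd (hdn0 u))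
  -- inside the blocks
  have hblk : ∀ j : ℤ, ∑ u ∈ X.filter (fun u => ((16 * th a pos u / 2 ^ i : ℕ) : ℤ) = j),
      ∑ v ∈ X.filter (fun u => ((16 * th a pos u / 2 ^ i : ℕ) : ℤ) = j), sy a u v ≤
      2 * de β * ∑ u ∈ X.filter (fun u => ((16 * th a pos u / 2 ^ i : ℕ) : ℤ) = j),
        (dn a u : ℝ) := by
    intro j
    set S := X.filter (fun u => ((16 * th a pos u / 2 ^ i : ℕ) : ℤ) = j) with hS
    have hSX : ∀ v ∈ S, v ∈ X := fun v hv => (mem_filter.1 hv).1
    have hSj : ∀ v ∈ S, 16 * th a pos v / 2 ^ i = j.toNat := fun v hv => by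
      have := (mem_filter.1 hv).2
      rw [← this, Int.toNat_natCast]
    have e1 : ∑ u ∈ S, ∑ v ∈ S, sy a u v = 2 * ∑ v ∈ S, ∑ u ∈ S, a u v := by
      unfold sy
      simp only [sum_add_distrib]
      rw [sum_comm, two_mul]
    have e2 : ∑ v ∈ S, ∑ u ∈ S, a u v ≤ ∑ v ∈ S, de β * dn a v := by
      refine sum_le_sum fun v hv => ?_
      refine (SHM_blk hdg i S j.toNat (fun v hv => ((mX v).1 (hSX v hv)).1) hSj v hv).trans ?_
      exact ((mX v).1 (hSX v hv)).2.2.le
    rw [← mul_sum] at e2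
    rw [e1]
    linarith
  have hs0 : 0 < 2582 / β := by positivity
  have key : ∀ r : ℕ, ∑ w ∈ X, ∑ z ∈ Y,
      (if ((16 * th a pos z / 2 ^ i : ℕ) : ℤ) = ((16 * th a pos w / 2 ^ i : ℕ) : ℤ) + -(r : ℤ)
        then sy a w z else 0) ≤
      (3 * (β ^ 2 / 10 ^ 7) * (2582 / β) + 2 / (2582 / β)) * m := by
    intro r
    have e1 := h1 V (sy a) D0 (fun u => (dn a u : ℝ))
      (fun u => ((16 * th a pos u / 2 ^ i : ℕ) : ℤ)) X Y (de β) (2 * m) hsy0 (sy_symm a)
      hDat.d0 hDat.psd hδ0 (fun u => (hdg.adj.deg u).le)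
      (fun u hu => hka u ((mX u).1 hu).2.1)
      (fun u hu => (hka u ((mY u).1 hu).2).trans (by
        have := mul_le_mul_of_nonneg_right hδ1 (hdn0 u)
        linarith))
      hblk hDat.sumdn.le (-(r : ℤ)) (2582 / β) hs0
    unfold de at e1
    linarith
  have hsum : ∑ z, ∑ w, (if ln a pos z w < 2 ^ (i + 1) ∧ 16 * dn a z ≤ 2 ^ i ∧
      16 * dn a w ≤ 2 ^ i ∧ D0 z ≤ ka β G m * dn a z ∧ D0 w ≤ ka β G m * dn a w ∧
      Fm a pos i w < de β * dn a w then a z w else 0) ≤
      ∑ r ∈ range 33, ∑ w ∈ X, ∑ z ∈ Y,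
      (if ((16 * th a pos z / 2 ^ i : ℕ) : ℤ) = ((16 * th a pos w / 2 ^ i : ℕ) : ℤ) + -(r : ℤ)
        then sy a w z else 0) := by
    have e1 : ∑ r ∈ range 33, ∑ w ∈ X, ∑ z ∈ Y,
        (if ((16 * th a pos z / 2 ^ i : ℕ) : ℤ) = ((16 * th a pos w / 2 ^ i : ℕ) : ℤ) + -(r : ℤ)
          then sy a w z else 0) = ∑ w ∈ X, ∑ z ∈ Y, ∑ r ∈ range 33,
        (if ((16 * th a pos z / 2 ^ i : ℕ) : ℤ) = ((16 * th a pos w / 2 ^ i : ℕ) : ℤ) + -(r : ℤ)
          then sy a w z else 0) := by
      rw [sum_comm]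
      exact sum_congr rfl fun w _ => sum_comm
    rw [e1, sum_comm, ← sum_subset (subset_univ X)]
    · refine sum_le_sum fun w hw => ?_
      rw [← sum_subset (subset_univ Y)]
      · refine sum_le_sum fun z hz => ?_
        have hnn : ∀ r ∈ range 33, 0 ≤ (if ((16 * th a pos z / 2 ^ i : ℕ) : ℤ) =
            ((16 * th a pos w / 2 ^ i : ℕ) : ℤ) + -(r : ℤ) then sy a w z else 0) := by
          intro r _
          split_ifs
          · exact hsy0 w z
          · exact le_refl _
        by_cases h0 : a z w = 0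
        · rw [h0]
          refine le_trans ?_ (sum_nonneg hnn)
          split_ifs <;> exact le_refl _
        · split_ifs with hc
          · have f1 := ln_add (a := a) (arc_pos hdg h0)
            have f2 := th_add (a := a) (arc_pos hdg h0)
            have f3 := hc.1
            have hP : 0 < 2 ^ i := Nat.pos_of_ne_zero (pow_ne_zero i two_ne_zero)
            have f4 : 16 * th a pos z / 2 ^ i ≤ 16 * th a pos w / 2 ^ i :=
              Nat.div_le_div_right (by omega)
            have f5 : 16 * th a pos w / 2 ^ i ≤ 16 * th a pos z / 2 ^ i + 32 := by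
              rw [← Nat.add_mul_div_right _ _ hP]
              refine Nat.div_le_div_right ?_
              rw [pow_succ] at f3
              omega
            set p := 16 * th a pos z / 2 ^ i
            set q := 16 * th a pos w / 2 ^ i
            have f6 : q - p ∈ range 33 := mem_range.2 (by omega)
            have f7 := single_le_sum hnn f6
            rw [if_pos (by omega)] at f7
            refine le_trans ?_ f7
            unfold sy
            linarith [hdg.nonneg w z]
          · exact sum_nonneg hnn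
      · intro z _ hz
        rw [if_neg]
        intro hc
        exact hz ((mY z).2 ⟨hc.2.1, hc.2.2.2.1⟩)
    · intro w _ hw
      refine sum_eq_zero fun z _ => ?_
      rw [if_neg]
      intro hc
      exact hw ((mX w).2 ⟨hc.2.2.1, hc.2.2.2.2.1, hc.2.2.2.2.2⟩)
  refine hsum.trans ((sum_le_sum fun r _ => key r).trans ?_)
  rw [sum_const, card_range, nsmul_eq_mul]
  exact_mod_cast SHM_num hβ0 hm

end Pool.Agent.HSh
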