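import Pool.Agent.HSh.Targets

set_option autoImplicit false

namespace Pool.Agent.HSh

open Finset

theorem SHORT_block {V : Type} [Fintype V] [DecidableEq V] (A : V → V → ℝ)
    (D0 d : V → ℝ) (P Q : Finset V) (δ : ℝ)
    (hA : ∀ u v, 0 ≤ A u v) (hsym : ∀ u v, A u v = A v u) (hD0 : ∀ u, 0 ≤ D0 u)
    (hpsd : ∀ x : V → ℝ, 0 ≤ ∑ u, D0 u * x u ^ 2 + ∑ u, ∑ v, A u v * (x u * x v))
    (hd : ∀ u, ∑ v, A u v ≤ d u) (hP : ∀ u ∈ P, D0 u ≤ δ * d u) (hQ : ∀ u ∈ Q, D0 u ≤ d u)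
    (hPP : ∑ u ∈ P, ∑ v ∈ P, A u v ≤ 2 * δ * ∑ u ∈ P, d u) (s : ℝ) (hs : 0 < s) :
    2 * s * ∑ u ∈ P, ∑ v ∈ Q, A u v ≤
      3 * δ * s ^ 2 * ∑ u ∈ P, d u + 2 * ∑ u ∈ Q, d u := by
  classical
  set x : V → ℝ := fun u => if u ∈ P then 1 else 0 with hx
  set y : V → ℝ := fun u => if u ∈ Q then 1 else 0 with hy
  have hx0 : ∀ u, 0 ≤ x u := fun u => by simp only [hx]; split_ifs <;> norm_num
  have hy0 : ∀ u, 0 ≤ y u := fun u => by simp only [hy]; split_ifs <;> norm_num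
  have h := hpsd (fun u => s * x u - y u)
  have e1 : ∑ u, D0 u * (s * x u - y u) ^ 2 =
      s ^ 2 * ∑ u, D0 u * x u ^ 2 + ∑ u, D0 u * y u ^ 2 - 2 * s * ∑ u, D0 u * (x u * y u) := by
    rw [Finset.mul_sum, Finset.mul_sum, ← Finset.sum_add_distrib, ← Finset.sum_sub_distrib]
    refine Finset.sum_congr rfl fun u _ => ?_
    ring
  have hswap : ∑ u, ∑ v, A u v * (y u * x v) = ∑ u, ∑ v, A u v * (x u * y v) := by
    rw [Finset.sum_comm]
    refine Finset.sum_congr rfl fun u _ => Finset.sum_congr rfl fun v _ => ?_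
    rw [hsym v u]; ring
  have e2 : ∑ u, ∑ v, A u v * ((s * x u - y u) * (s * x v - y v)) =
      s ^ 2 * ∑ u, ∑ v, A u v * (x u * x v) + ∑ u, ∑ v, A u v * (y u * y v) -
        2 * s * ∑ u, ∑ v, A u v * (x u * y v) := by
    have : 2 * s * ∑ u, ∑ v, A u v * (x u * y v) =
        s * ∑ u, ∑ v, A u v * (x u * y v) + s * ∑ u, ∑ v, A u v * (y u * x v) := by
      rw [hswap]; ring
    rw [this]
    simp only [Finset.mul_sum]
    rw [← Finset.sum_add_distrib, ← Finset.sum_add_distrib, ← Finset.sum_sub_distrib]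
    refine Finset.sum_congr rfl fun u _ => ?_
    rw [← Finset.sum_add_distrib, ← Finset.sum_add_distrib, ← Finset.sum_sub_distrib]
    refine Finset.sum_congr rfl fun v _ => ?_
    ring
  rw [e1, e2] at h
  have i1 : ∑ u, D0 u * x u ^ 2 = ∑ u ∈ P, D0 u := by
    have : ∀ u, D0 u * x u ^ 2 = if u ∈ P then D0 u else 0 := fun u => by
      simp only [hx]; split_ifs <;> simp
    simp only [this]
    rw [Finset.sum_ite_mem, Finset.univ_inter]
  have i2 : ∑ u, D0 u * y u ^ 2 = ∑ u ∈ Q, D0 u := by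
    have : ∀ u, D0 u * y u ^ 2 = if u ∈ Q then D0 u else 0 := fun u => by
      simp only [hy]; split_ifs <;> simp
    simp only [this]
    rw [Finset.sum_ite_mem, Finset.univ_inter]
  have key : ∀ (R S : Finset V), ∑ u, ∑ v, A u v * ((if u ∈ R then (1:ℝ) else 0) *
      (if v ∈ S then (1:ℝ) else 0)) = ∑ u ∈ R, ∑ v ∈ S, A u v := by
    intro R S
    have : ∀ u, ∑ v, A u v * ((if u ∈ R then (1:ℝ) else 0) * (if v ∈ S then (1:ℝ) else 0)) =
        if u ∈ R then ∑ v ∈ S, A u v else 0 := by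
      intro u
      split_ifs with hu
      · rw [← Finset.univ_inter S, ← Finset.sum_ite_mem]
        refine Finset.sum_congr rfl fun v _ => ?_
        simp only [Finset.univ_inter]
        split_ifs <;> simp
      · simp
    simp only [this]
    rw [Finset.sum_ite_mem, Finset.univ_inter]
  have j1 := key P P
  have j2 := key Q Q
  have j3 := key P Q
  have j1' : ∑ u, ∑ v, A u v * (x u * x v) = ∑ u ∈ P, ∑ v ∈ P, A u v := j1
  have j2' : ∑ u, ∑ v, A u v * (y u * y v) = ∑ u ∈ Q, ∑ v ∈ Q, A u v := j2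
  have j3' : ∑ u, ∑ v, A u v * (x u * y v) = ∑ u ∈ P, ∑ v ∈ Q, A u v := j3
  rw [i1, i2, j1', j2', j3'] at h
  have k1 : ∑ u ∈ P, D0 u ≤ δ * ∑ u ∈ P, d u := by
    rw [Finset.mul_sum]; exact Finset.sum_le_sum hP
  have k2 : ∑ u ∈ Q, D0 u ≤ ∑ u ∈ Q, d u := Finset.sum_le_sum hQ
  have k3 : ∑ u ∈ Q, ∑ v ∈ Q, A u v ≤ ∑ u ∈ Q, d u := by
    refine Finset.sum_le_sum fun u _ => le_trans ?_ (hd u)
    exact Finset.sum_le_sum_of_subset_of_nonneg (Finset.subset_univ _) fun v _ _ => hA u v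
  have k4 : 0 ≤ ∑ u, D0 u * (x u * y u) :=
    Finset.sum_nonneg fun u _ => mul_nonneg (hD0 u) (mul_nonneg (hx0 u) (hy0 u))
  have k5 : 0 ≤ 2 * s * ∑ u, D0 u * (x u * y u) := by positivity
  have s2 : 0 ≤ s ^ 2 := sq_nonneg s
  nlinarith [mul_le_mul_of_nonneg_left k1 s2, mul_le_mul_of_nonneg_left hPP s2]

theorem p_SHORT : T_SHORT := by
  classical
  intro V _ _ A D0 d bl X Y δ M hA hsym hD0 hpsd hδ hd hX hY hXX hM r s hs
  have hd0 : ∀ u, 0 ≤ d u := fun u =>
    le_trans (Finset.sum_nonneg fun v _ => hA u v) (hd u)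
  set J : Finset ℤ := X.image bl with hJ
  have hblock : ∀ j : ℤ, 2 * s * ∑ u ∈ X.filter (fun u => bl u = j),
      ∑ v ∈ Y.filter (fun v => bl v = j + r), A u v ≤
      3 * δ * s ^ 2 * ∑ u ∈ X.filter (fun u => bl u = j), d u +
        2 * ∑ u ∈ Y.filter (fun v => bl v = j + r), d u := by
    intro j
    refine SHORT_block A D0 d _ _ δ hA hsym hD0 hpsd hd ?_ ?_ (hXX j) s hs
    · intro u hu; exact hX u (Finset.mem_filter.1 hu).1
    · intro u hu; exact hY u (Finset.mem_filter.1 hu).1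
  have hsum := Finset.sum_le_sum (s := J) fun j _ => hblock j
  rw [Finset.sum_add_distrib, ← Finset.mul_sum, ← Finset.mul_sum, ← Finset.mul_sum] at hsum
  have hbl : ∀ u ∈ X, bl u ∈ J := fun u hu => Finset.mem_image_of_mem bl hu
  have hE : ∑ j ∈ J, ∑ u ∈ X.filter (fun u => bl u = j),
      ∑ v ∈ Y.filter (fun v => bl v = j + r), A u v =
      ∑ u ∈ X, ∑ v ∈ Y, (if bl v = bl u + r then A u v else 0) := by
    have : ∀ j, ∑ u ∈ X.filter (fun u => bl u = j),
        ∑ v ∈ Y.filter (fun v => bl v = j + r), A u v =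
        ∑ u ∈ X, if bl u = j then ∑ v ∈ Y, (if bl v = bl u + r then A u v else 0) else 0 := by
      intro j
      rw [Finset.sum_filter]
      refine Finset.sum_congr rfl fun u _ => ?_
      split_ifs with hu
      · rw [Finset.sum_filter, hu]
      · rfl
    simp only [this]
    rw [Finset.sum_comm]
    refine Finset.sum_congr rfl fun u hu => ?_
    rw [Finset.sum_ite_eq, if_pos (hbl u hu)]
  have hXs : ∑ j ∈ J, ∑ u ∈ X.filter (fun u => bl u = j), d u = ∑ u ∈ X, d u := by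
    simp only [Finset.sum_filter]
    rw [Finset.sum_comm]
    refine Finset.sum_congr rfl fun u hu => ?_
    rw [Finset.sum_ite_eq, if_pos (hbl u hu)]
  have hYs : ∑ j ∈ J, ∑ u ∈ Y.filter (fun v => bl v = j + r), d u ≤ ∑ u ∈ Y, d u := by
    simp only [Finset.sum_filter]
    rw [Finset.sum_comm]
    refine Finset.sum_le_sum fun u hu => ?_
    have : ∀ j, (if bl u = j + r then d u else 0) = if bl u - r = j then d u else 0 := by
      intro j
      have : bl u = j + r ↔ bl u - r = j := by constructor <;> intro h <;> linarith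
      simp only [this]
    simp only [this]
    rw [Finset.sum_ite_eq]
    split_ifs
    · exact le_refl _
    · exact hd0 u
  have hXM : ∑ u ∈ X, d u ≤ M := le_trans
    (Finset.sum_le_sum_of_subset_of_nonneg (Finset.subset_univ _) fun u _ _ => hd0 u) hM
  have hYM : ∑ u ∈ Y, d u ≤ M := le_trans
    (Finset.sum_le_sum_of_subset_of_nonneg (Finset.subset_univ _) fun u _ _ => hd0 u) hM
  rw [hE, hXs] at hsum
  have hc : 0 ≤ 3 * δ * s ^ 2 := by positivity
  have h1 : 2 * s * ∑ u ∈ X, ∑ v ∈ Y, (if bl v = bl u + r then A u v else 0) ≤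
      3 * δ * s ^ 2 * M + 2 * M := by
    nlinarith [mul_le_mul_of_nonneg_left hXM hc]
  have h2 : (3 * δ * s + 2 / s) * M = (3 * δ * s ^ 2 * M + 2 * M) / s := by
    field_simp
  rw [h2, le_div_iff₀ hs]
  nlinarith [h1]

end Pool.Agent.HSh
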