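import Pool.Agent.HSh.Targets

set_option autoImplicit false

namespace Pool.Agent.HSh

open Finset Pool.Agent.HLow

section

variable {V : Type} [Fintype V] [DecidableEq V]

/-- arcs inside a block are short -/
theorem SHP_short {a : V → V → ℝ} {pos : V → ℕ} (h : Dg a pos) (i : ℕ) {u v : V}
    (huv : a u v ≠ 0) (hbl : 16 * th a pos v / 2 ^ i = 16 * th a pos u / 2 ^ i)
    (hd : 16 * dn a v ≤ 2 ^ i) : 8 * ln a pos u v ≤ 2 ^ i := by
  have h1 := ln_add (a := a) (arc_pos h huv)
  have hpos : 0 < 2 ^ i := by positivity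
  have h2 := Nat.div_add_mod (16 * th a pos v) (2 ^ i)
  have h3 := Nat.div_add_mod (16 * th a pos u) (2 ^ i)
  have h4 := Nat.mod_lt (16 * th a pos v) hpos
  rw [hbl] at h2
  generalize 2 ^ i * (16 * th a pos u / 2 ^ i) = q at *
  omega

/-- block numbers of the ends of an arc of length less than `2 ^ (i + 1)` -/
theorem SHP_bl {a : V → V → ℝ} {pos : V → ℕ} (h : Dg a pos) (i : ℕ) {u v : V}
    (huv : a u v ≠ 0) (hl : ln a pos u v < 2 ^ (i + 1)) :
    16 * th a pos u / 2 ^ i ≤ 16 * th a pos v / 2 ^ i ∧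
    16 * th a pos v / 2 ^ i ≤ 16 * th a pos u / 2 ^ i + 32 := by
  have h1 := ln_add (a := a) (arc_pos h huv)
  have h2 := th_add (a := a) (arc_pos h huv)
  have hpos : 0 < 2 ^ i := by positivity
  constructor
  · apply Nat.div_le_div_right
    omega
  · rw [← Nat.add_mul_div_left _ 32 hpos]
    apply Nat.div_le_div_right
    rw [pow_succ] at hl
    omega

omit [Fintype V] [DecidableEq V] in
/-- `sy` counts every arc inside a set twice -/
theorem SHP_twice (a : V → V → ℝ) (S : Finset V) :
    ∑ u ∈ S, ∑ v ∈ S, sy a u v = 2 * ∑ u ∈ S, ∑ v ∈ S, a u v := by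
  unfold sy
  have h1 : ∑ u ∈ S, ∑ v ∈ S, (a u v + a v u) =
      ∑ u ∈ S, ∑ v ∈ S, a u v + ∑ u ∈ S, ∑ v ∈ S, a v u := by
    rw [← sum_add_distrib]
    exact sum_congr rfl (fun u _ => sum_add_distrib)
  rw [h1, sum_comm (s := S) (t := S) (f := fun u v => a v u)]
  ring

/-- sums over rectangles -/
theorem SHP_sum2 (X Y : Finset V) (f : V → V → ℝ) :
    ∑ z, ∑ w, (if z ∈ X then (if w ∈ Y then f z w else 0) else 0) =
      ∑ u ∈ X, ∑ v ∈ Y, f u v := by
  have h1 : ∀ z, ∑ w, (if z ∈ X then (if w ∈ Y then f z w else 0) else 0) =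
      if z ∈ X then ∑ w, (if w ∈ Y then f z w else 0) else 0 := by
    intro z
    by_cases hz : z ∈ X
    · simp only [if_pos hz]
    · simp only [if_neg hz, sum_const_zero]
  rw [sum_congr rfl (fun z _ => h1 z)]
  simp

end

/-- few arcs from vertices with few short out-arcs -/
theorem p_SHP (h1 : T_SHORT) : T_SHP := by
  intro V _ _ a pos D0 β G m K i h hD hP
  classical
  set δ := de β with hδ
  set k0 := ka β G m with hk0
  have hβ := hP.b0
  have hβ1 := hP.b1
  have hδ0 : 0 ≤ δ := by rw [hδ]; unfold de; positivity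
  have hδ1 : δ ≤ 1 := by
    rw [hδ]; unfold de
    have : β ^ 2 ≤ 1 := by nlinarith
    rw [div_le_one (by norm_num)]
    linarith
  have hkd : k0 ≤ δ := hP.kd
  set bl : V → ℤ := fun u => ((16 * th a pos u / 2 ^ i : ℕ) : ℤ) with hbl
  set X := univ.filter (fun u => 16 * dn a u ≤ 2 ^ i ∧ D0 u ≤ k0 * dn a u ∧
    Fp a pos i u < δ * dn a u) with hX
  set Y := univ.filter (fun u => 16 * dn a u ≤ 2 ^ i ∧ D0 u ≤ k0 * dn a u) with hY
  have hA := hD.dg.adj
  have hdn : ∀ u, (0 : ℝ) ≤ (dn a u : ℝ) := fun u => Nat.cast_nonneg _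
  have hm : 0 ≤ m := by linarith [hD.m1]
  have hblock : ∀ j, ∑ u ∈ X.filter (fun u => bl u = j), ∑ v ∈ X.filter (fun u => bl u = j),
      sy a u v ≤ 2 * δ * ∑ u ∈ X.filter (fun u => bl u = j), (dn a u : ℝ) := by
    intro j
    rw [SHP_twice, mul_assoc]
    apply mul_le_mul_of_nonneg_left _ (by norm_num)
    rw [mul_sum]
    apply sum_le_sum
    intro u hu
    rw [mem_filter, hX, mem_filter] at hu
    refine le_trans ?_ hu.1.2.2.2.le
    unfold Fp
    calc ∑ v ∈ X.filter (fun u => bl u = j), a u v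
        ≤ ∑ v ∈ X.filter (fun u => bl u = j),
          (if 8 * ln a pos u v ≤ 2 ^ i then a u v else 0) := by
          apply sum_le_sum
          intro v hv
          rw [mem_filter, hX, mem_filter] at hv
          by_cases h0 : a u v = 0
          · rw [h0]; split_ifs <;> exact le_refl _
          · have hb : 16 * th a pos v / 2 ^ i = 16 * th a pos u / 2 ^ i := by
              have e : bl v = bl u := by rw [hv.2, hu.2]
              simp only [hbl] at e
              exact_mod_cast e
            rw [if_pos (SHP_short hD.dg i h0 hb hv.1.2.1)]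
      _ ≤ ∑ v, (if 8 * ln a pos u v ≤ 2 ^ i then a u v else 0) := by
          apply sum_le_sum_of_subset_of_nonneg (subset_univ _)
          intro v _ _
          split_ifs
          · exact hD.dg.nonneg u v
          · exact le_refl _
  set s : ℝ := 2582 / β with hs
  have hs0 : 0 < s := by rw [hs]; positivity
  have hr : ∀ r : ℤ, 2 * ∑ u ∈ X, ∑ v ∈ Y, (if bl v = bl u + r then sy a u v else 0) ≤
      (3 * δ * s + 2 / s) * (2 * m) := by
    intro r
    apply h1 V (sy a) D0 (fun u => (dn a u : ℝ)) bl X Y δ (2 * m) hA.nonneg hA.sym hD.d0 hD.psd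
      hδ0 _ _ _ hblock hD.sumdn.le r s hs0
    · intro u
      rw [hA.deg u]
      exact le_refl _
    · intro u hu
      rw [hX, mem_filter] at hu
      exact hu.2.2.1.trans (mul_le_mul_of_nonneg_right hkd (hdn u))
    · intro u hu
      rw [hY, mem_filter] at hu
      refine hu.2.2.trans ?_
      calc k0 * (dn a u : ℝ) ≤ 1 * (dn a u : ℝ) :=
            mul_le_mul_of_nonneg_right (hkd.trans hδ1) (hdn u)
        _ = dn a u := one_mul _
  have hval : 3 * δ * s + 2 / s ≤ 155 / 100000 * β := by
    rw [hδ, hs]; unfold de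
    have : 3 * (β ^ 2 / 10 ^ 7) * (2582 / β) + 2 / (2582 / β) =
        (3 * 2582 / 10 ^ 7 + 2 / 2582) * β := by
      field_simp
    rw [this]
    apply mul_le_mul_of_nonneg_right _ hβ.le
    norm_num
  have hr2 : ∀ r : ℤ, ∑ u ∈ X, ∑ v ∈ Y, (if bl v = bl u + r then sy a u v else 0) ≤
      155 / 100000 * (β * m) := by
    intro r
    have e := hr r
    have e2 : (3 * δ * s + 2 / s) * (2 * m) ≤ 155 / 100000 * β * (2 * m) :=
      mul_le_mul_of_nonneg_right hval (by linarith)
    linarith
  have hmain : ∑ z, ∑ w, (if ln a pos z w < 2 ^ (i + 1) ∧ 16 * dn a z ≤ 2 ^ i ∧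
      16 * dn a w ≤ 2 ^ i ∧ D0 z ≤ k0 * dn a z ∧ D0 w ≤ k0 * dn a w ∧ Fp a pos i z < δ * dn a z
      then a z w else 0) ≤
      ∑ r ∈ range 33, ∑ u ∈ X, ∑ v ∈ Y, (if bl v = bl u + (r : ℤ) then sy a u v else 0) := by
    have hswap : ∑ r ∈ range 33, ∑ u ∈ X, ∑ v ∈ Y,
        (if bl v = bl u + (r : ℤ) then sy a u v else 0) =
        ∑ u ∈ X, ∑ v ∈ Y, ∑ r ∈ range 33, (if bl v = bl u + (r : ℤ) then sy a u v else 0) := by
      rw [sum_comm]
      apply sum_congr rfl
      intro u _
      rw [sum_comm]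
    rw [hswap]
    have hnn : ∀ u v, 0 ≤ ∑ r ∈ range 33, (if bl v = bl u + (r : ℤ) then sy a u v else 0) := by
      intro u v
      apply sum_nonneg
      intro r _
      split_ifs
      · exact hA.nonneg u v
      · exact le_refl _
    have hone : ∀ z w, (if ln a pos z w < 2 ^ (i + 1) ∧ 16 * dn a z ≤ 2 ^ i ∧
      16 * dn a w ≤ 2 ^ i ∧ D0 z ≤ k0 * dn a z ∧ D0 w ≤ k0 * dn a w ∧ Fp a pos i z < δ * dn a z
      then a z w else 0) ≤ (if z ∈ X then (if w ∈ Y then
        ∑ r ∈ range 33, (if bl w = bl z + (r : ℤ) then sy a z w else 0) else 0) else 0) := by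
      intro z w
      have hR : 0 ≤ (if z ∈ X then (if w ∈ Y then
        ∑ r ∈ range 33, (if bl w = bl z + (r : ℤ) then sy a z w else 0) else 0) else 0) := by
        split_ifs
        · exact hnn z w
        · exact le_refl _
        · exact le_refl _
      by_cases hc : ln a pos z w < 2 ^ (i + 1) ∧ 16 * dn a z ≤ 2 ^ i ∧
        16 * dn a w ≤ 2 ^ i ∧ D0 z ≤ k0 * dn a z ∧ D0 w ≤ k0 * dn a w ∧ Fp a pos i z < δ * dn a z
      · rw [if_pos hc]
        by_cases h0 : a z w = 0
        · rw [h0]; exact hR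
        · obtain ⟨c1, c2, c3, c4, c5, c6⟩ := hc
          have hzX : z ∈ X := by rw [hX, mem_filter]; exact ⟨mem_univ _, c2, c4, c6⟩
          have hwY : w ∈ Y := by rw [hY, mem_filter]; exact ⟨mem_univ _, c3, c5⟩
          rw [if_pos hzX, if_pos hwY]
          obtain ⟨b1, b2⟩ := SHP_bl hD.dg i h0 c1
          have hmem : 16 * th a pos w / 2 ^ i - 16 * th a pos z / 2 ^ i ∈ range 33 := by
            rw [mem_range]; omega
          have hle : a z w ≤ sy a z w := by
            unfold sy
            have := hD.dg.nonneg w z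
            linarith
          refine hle.trans ?_
          have hs2 := single_le_sum (s := range 33)
            (f := fun r : ℕ => (if bl w = bl z + (r : ℤ) then sy a z w else 0))
            (fun r _ => by
              show 0 ≤ (if bl w = bl z + (r : ℤ) then sy a z w else 0)
              split_ifs
              · exact hA.nonneg z w
              · exact le_refl _) hmem
          refine le_trans ?_ hs2
          show sy a z w ≤ (if bl w = bl z +
            ((16 * th a pos w / 2 ^ i - 16 * th a pos z / 2 ^ i : ℕ) : ℤ) then sy a z w else 0)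
          rw [if_pos]
          simp only [hbl]
          omega
      · rw [if_neg hc]; exact hR
    calc _ ≤ ∑ z, ∑ w, (if z ∈ X then (if w ∈ Y then
        ∑ r ∈ range 33, (if bl w = bl z + (r : ℤ) then sy a z w else 0) else 0) else 0) :=
          sum_le_sum (fun z _ => sum_le_sum (fun w _ => hone z w))
      _ = _ := by
          rw [SHP_sum2]
  refine hmain.trans ?_
  calc _ ≤ ∑ r ∈ range 33, 155 / 100000 * (β * m) := sum_le_sum (fun r _ => hr2 r)
    _ = 33 * (155 / 100000) * (β * m) := by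
        rw [sum_const, card_range, nsmul_eq_mul]; push_cast; ring
    _ ≤ 1 / 16 * (β * m) := by
        apply mul_le_mul_of_nonneg_right _ (by positivity)
        norm_num

end Pool.Agent.HSh
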