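import Mathlib
import Pool.Agent.HSh.Targets

set_option autoImplicit false
set_option linter.unusedSectionVars false

namespace Pool.Agent.HSh

open Finset Pool.Agent.HLow

theorem p_T2 : T_T2 := by
  intro V _ _ A D s lam v hS g c2 H i
  -- c2 ≥ 0
  have hc2 : 0 ≤ c2 := by
    have h1 := H (fun u => if u = i then 1 else 0)
    have h2 : ∑ u, ∑ w, MM A D u w * ((if u = i then (1 : ℝ) else 0) * (if w = i then 1 else 0))
        = D i := by
      rw [sum_eq_single i]
      · rw [sum_eq_single i]
        · simp [MM, hS.adj.dg i]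
        · intro b _ hb; simp [hb]
        · intro h; exact absurd (mem_univ _) h
      · intro b _ hb; simp [hb]
      · intro h; exact absurd (mem_univ _) h
    rw [h2] at h1
    have h3 := hS.two i
    by_contra hneg
    push Not at hneg
    have h4 : c2 * D i < 0 := mul_neg_of_neg_of_pos hneg (by linarith)
    have h5 : 0 ≤ (∑ u, (if u = i then (1 : ℝ) else 0) * g u) ^ 2 := sq_nonneg _
    linarith
  -- the form of N is nonnegative
  have hN : ∀ y : V → ℝ, 0 ≤ ∑ u, ∑ w, NN A D s u w * (y u * y w) := by
    intro y
    have e : ∑ u, ∑ w, NN A D s u w * (y u * y w) = ∑ k, lam k * (∑ u, v k u * y u) ^ 2 := by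
      have e1 : ∀ u w, NN A D s u w * (y u * y w)
          = ∑ k, lam k * ((v k u * y u) * (v k w * y w)) := by
        intro u w
        rw [hS.dec, sum_mul]
        exact sum_congr rfl (fun k _ => by ring)
      rw [sum_congr rfl (fun u _ => sum_congr rfl (fun w _ => e1 u w))]
      have e2 : ∀ u, ∑ w, ∑ k, lam k * ((v k u * y u) * (v k w * y w))
          = ∑ k, ∑ w, lam k * ((v k u * y u) * (v k w * y w)) := fun u => sum_comm
      rw [sum_congr rfl (fun u _ => e2 u), sum_comm]
      apply sum_congr rfl; intro k _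
      rw [sq, sum_mul_sum, mul_sum]
      apply sum_congr rfl; intro u _
      rw [mul_sum]
    rw [e]
    exact sum_nonneg (fun k _ => mul_nonneg (hS.pos k).le (sq_nonneg _))
  -- the form of M is nonnegative
  have hM : ∀ y : V → ℝ, 0 ≤ ∑ u, ∑ w, MM A D u w * (y u * y w) := by
    intro y
    have h1 := hN (fun u => (s u)⁻¹ * y u)
    refine le_trans h1 (le_of_eq ?_)
    apply sum_congr rfl; intro u _
    apply sum_congr rfl; intro w _
    have hu := (hS.spos u).ne'
    have hw := (hS.spos w).ne'
    unfold NN
    field_simp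
  -- Schur product
  have hSch : ∀ x : V → ℝ, lam i * ∑ u, ∑ w, MM A D u w * ((v i u * x u) * (v i w * x w))
      ≤ ∑ u, ∑ w, (NN A D s u w + if u = w then 1 else 0) * (x u * x w) := by
    intro x
    have e1 : ∀ u w, (NN A D s u w + if u = w then 1 else 0) * (x u * x w)
        = ∑ k, lam k * (MM A D u w * ((v k u * x u) * (v k w * x w))) := by
      intro u w
      rw [← hS.MN u w, hS.dec, mul_sum, sum_mul]
      exact sum_congr rfl (fun k _ => by ring)
    rw [sum_congr rfl (fun u _ => sum_congr rfl (fun w _ => e1 u w))]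
    have e2 : ∀ u, ∑ w, ∑ k, lam k * (MM A D u w * ((v k u * x u) * (v k w * x w)))
        = ∑ k, ∑ w, lam k * (MM A D u w * ((v k u * x u) * (v k w * x w))) := fun u => sum_comm
    have e3 : ∀ k, ∑ u, ∑ w, lam k * (MM A D u w * ((v k u * x u) * (v k w * x w)))
        = lam k * ∑ u, ∑ w, MM A D u w * ((v k u * x u) * (v k w * x w)) := by
      intro k
      rw [mul_sum]
      apply sum_congr rfl; intro u _
      rw [mul_sum]
    have e4 : ∑ u, ∑ w, ∑ k, lam k * (MM A D u w * ((v k u * x u) * (v k w * x w)))
        = ∑ k, lam k * ∑ u, ∑ w, MM A D u w * ((v k u * x u) * (v k w * x w)) := by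
      rw [sum_congr rfl (fun u _ => e2 u), sum_comm]
      exact sum_congr rfl (fun k _ => e3 k)
    rw [e4]
    exact single_le_sum (f := fun k => lam k * ∑ u, ∑ w, MM A D u w * ((v k u * x u) * (v k w * x w)))
      (fun k _ => mul_nonneg (hS.pos k).le (hM (fun u => v k u * x u))) (mem_univ i)
  -- the test function
  set c : V → ℝ := fun j => gm v g i j / (lam j + 1) with hc
  have hl : ∀ j, 0 < lam j + 1 := fun j => by have := hS.pos j; linarith
  set x : V → ℝ := fun u => ∑ j, c j * v j u with hx
  set S : ℝ := ∑ j, gm v g i j ^ 2 / (lam j + 1) with hSS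
  have hS0 : 0 ≤ S := sum_nonneg (fun j _ => div_nonneg (sq_nonneg _) (hl j).le)
  have h1 : ∑ u, (v i u * x u) * g u = S := by
    have e1 : ∀ u, (v i u * x u) * g u = ∑ j, c j * (g u * (v i u * v j u)) := by
      intro u
      simp only [hx]
      rw [mul_sum, sum_mul]
      exact sum_congr rfl (fun j _ => by ring)
    rw [sum_congr rfl (fun u _ => e1 u), sum_comm]
    apply sum_congr rfl; intro j _
    rw [← mul_sum]
    have : ∑ u, g u * (v i u * v j u) = gm v g i j := rfl
    rw [this]
    simp only [hc]
    ring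
  have hNx : ∀ u, ∑ w, NN A D s u w * x w = ∑ j, lam j * c j * v j u := by
    intro u
    have e1 : ∀ w, NN A D s u w * x w = ∑ j, c j * (NN A D s u w * v j w) := by
      intro w
      simp only [hx]
      rw [mul_sum]
      exact sum_congr rfl (fun j _ => by ring)
    rw [sum_congr rfl (fun w _ => e1 w), sum_comm]
    apply sum_congr rfl; intro j _
    rw [← mul_sum, hS.eig j u]
    ring
  have h2 : ∑ u, ∑ w, (NN A D s u w + if u = w then 1 else 0) * (x u * x w) = S := by
    have e1 : ∀ u, ∑ w, (NN A D s u w + if u = w then 1 else 0) * (x u * x w)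
        = x u * ∑ j, (lam j + 1) * c j * v j u := by
      intro u
      have e2 : ∀ w, (NN A D s u w + if u = w then (1 : ℝ) else 0) * (x u * x w)
          = x u * (NN A D s u w * x w) + if u = w then x u * x w else 0 := by
        intro w; split_ifs <;> ring
      rw [sum_congr rfl (fun w _ => e2 w), sum_add_distrib, ← mul_sum, hNx u]
      have e3 : ∑ w, (if u = w then x u * x w else 0) = x u * x u := by simp
      rw [e3]
      have e4 : ∑ j, (lam j + 1) * c j * v j u = ∑ j, lam j * c j * v j u + x u := by
        simp only [hx]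
        rw [← sum_add_distrib]
        exact sum_congr rfl (fun j _ => by ring)
      rw [e4]; ring
    rw [sum_congr rfl (fun u _ => e1 u)]
    have e5 : ∀ u, x u * ∑ j, (lam j + 1) * c j * v j u
        = ∑ j, (lam j + 1) * c j * (x u * v j u) := by
      intro u
      rw [mul_sum]
      exact sum_congr rfl (fun j _ => by ring)
    rw [sum_congr rfl (fun u _ => e5 u), sum_comm]
    apply sum_congr rfl; intro j _
    rw [← mul_sum]
    have e6 : ∑ u, x u * v j u = c j := by
      have e7 : ∀ u, x u * v j u = ∑ k, c k * (v k u * v j u) := by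
        intro u
        simp only [hx]
        rw [sum_mul]
        exact sum_congr rfl (fun k _ => by ring)
      rw [sum_congr rfl (fun u _ => e7 u), sum_comm]
      have e8 : ∀ k, ∑ u, c k * (v k u * v j u) = if k = j then c k else 0 := by
        intro k
        rw [← mul_sum, hS.row k j]
        split_ifs <;> ring
      rw [sum_congr rfl (fun k _ => e8 k)]
      simp
    rw [e6]
    simp only [hc]
    have := (hl j).ne'
    field_simp
  have h3 := H (fun u => v i u * x u)
  rw [h1] at h3
  have h4 := hSch x
  rw [h2] at h4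
  have h5 : lam i * S ^ 2 ≤ c2 * S := by
    have e1 : lam i * S ^ 2 ≤ lam i * (c2 * ∑ u, ∑ w, MM A D u w * ((v i u * x u) * (v i w * x w))) :=
      mul_le_mul_of_nonneg_left h3 (hS.pos i).le
    have e2 : c2 * (lam i * ∑ u, ∑ w, MM A D u w * ((v i u * x u) * (v i w * x w))) ≤ c2 * S :=
      mul_le_mul_of_nonneg_left h4 hc2
    nlinarith
  rcases hS0.eq_or_lt with h0 | h0
  · rw [← h0]; simpa using hc2
  · have h6 : (lam i * S) * S ≤ c2 * S := by nlinarith
    exact le_of_mul_le_mul_right h6 h0

end Pool.Agent.HSh
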