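import Mathlib
import Pool.Agent.HSh.Targets

set_option autoImplicit false
set_option linter.unusedSectionVars false

namespace Pool.Agent.HSh

open Finset Pool.Agent.HLow

variable {V : Type} [Fintype V] [DecidableEq V]

/-- weighted trace -/
lemma TRC_one {A : V → V → ℝ} {D s lam : V → ℝ} {v : V → V → ℝ} (h : SD A D s lam v)
    (f : V → ℝ) : ∑ i, lam i * ∑ u, f u * v i u ^ 2 = ∑ u, f u * NN A D s u u := by
  have h1 : ∀ i, lam i * ∑ u, f u * v i u ^ 2 = ∑ u, lam i * (f u * v i u ^ 2) := fun i =>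
    mul_sum _ _ _
  rw [sum_congr rfl fun i _ => h1 i, sum_comm]
  refine sum_congr rfl fun u _ => ?_
  rw [h.dec u u, mul_sum]
  exact sum_congr rfl fun i _ => by ring

lemma TRC_row {A : V → V → ℝ} {D s lam : V → ℝ} {v : V → V → ℝ} (h : SD A D s lam v) (i : V) :
    ∑ u, v i u ^ 2 = 1 := by
  have h1 := h.row i i
  rw [if_pos rfl] at h1
  rw [← h1]
  exact sum_congr rfl fun u _ => sq _

/-- half of the third identity -/
lemma TRC_half {A : V → V → ℝ} {D s lam : V → ℝ} {v : V → V → ℝ} (h : SD A D s lam v)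
    (g : V → ℝ) : ∑ i, ∑ j, gm v g i j ^ 2 * lam i = ∑ u, g u ^ 2 * NN A D s u u := by
  rw [← TRC_one h]
  refine sum_congr rfl fun i _ => ?_
  rw [← sum_mul, mul_comm, ← h.pars (gm v g i)]
  congr 1
  refine sum_congr rfl fun u _ => ?_
  rw [h.gexp g i u]
  ring

/-- traces -/
theorem p_TRC : T_TRC := by
  intro V _ _ A D s lam v h
  refine ⟨?_, ?_, fun g => ?_⟩
  · have h1 := TRC_one h (fun _ => 1)
    simp only [one_mul] at h1
    rw [← h1]
    exact sum_congr rfl fun i _ => by rw [TRC_row h, mul_one]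
  · have h1 : ∀ u, ∑ w, NN A D s u w ^ 2 = ∑ i, lam i ^ 2 * v i u ^ 2 := by
      intro u
      have h2 : ∀ w, NN A D s u w ^ 2 = ∑ i, lam i * v i u * (NN A D s u w * v i w) := by
        intro w
        rw [sq]
        conv_lhs => rw [h.dec u w]
        rw [sum_mul, ← h.dec u w]
        exact sum_congr rfl fun i _ => by ring
      rw [sum_congr rfl fun w _ => h2 w, sum_comm]
      refine sum_congr rfl fun i _ => ?_
      rw [← mul_sum, h.eig]
      ring
    rw [sum_congr rfl fun u _ => h1 u, sum_comm]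
    refine sum_congr rfl fun i _ => ?_
    rw [← mul_sum, TRC_row h, mul_one]
  · have h1 : ∑ i, ∑ j, gm v g i j ^ 2 * lam j = ∑ u, g u ^ 2 * NN A D s u u := by
      rw [sum_comm, ← TRC_half h]
      exact sum_congr rfl fun i _ => sum_congr rfl fun j _ => by rw [gm_symm]
    have h2 : ∀ i, ∑ j, gm v g i j ^ 2 * (lam i + lam j) =
        ∑ j, gm v g i j ^ 2 * lam i + ∑ j, gm v g i j ^ 2 * lam j := by
      intro i
      rw [← sum_add_distrib]
      exact sum_congr rfl fun j _ => mul_add _ _ _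
    rw [sum_congr rfl fun i _ => h2 i, sum_add_distrib, TRC_half h, h1]
    ring

end Pool.Agent.HSh
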