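import Mathlib
import Pool.Agent.HSh.Targets
import Pool.Agent.HLow.SPEC
import Pool.Agent.HLow.LEN
import Pool.Agent.HLow.IMB
import Pool.Agent.HLow.RAD
import Pool.Agent.HLow.CLIP
import Pool.Agent.HLow.ROUND
import Pool.Agent.HLow.DUAL
import Pool.Agent.HSh.SDE
import Pool.Agent.HSh.KSUM
import Pool.Agent.HSh.ORT
import Pool.Agent.HSh.NRM
import Pool.Agent.HSh.CRS
import Pool.Agent.HSh.TRC
import Pool.Agent.HSh.CMM
import Pool.Agent.HSh.T1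
import Pool.Agent.HSh.T2
import Pool.Agent.HSh.ANZ
import Pool.Agent.HSh.AN
import Pool.Agent.HSh.ANU
import Pool.Agent.HSh.DAT
import Pool.Agent.HSh.LSUM
import Pool.Agent.HSh.IMBD
import Pool.Agent.HSh.GOOD
import Pool.Agent.HSh.BIG
import Pool.Agent.HSh.SHORT
import Pool.Agent.HSh.SHP
import Pool.Agent.HSh.SHM
import Pool.Agent.HSh.ARC
import Pool.Agent.HSh.DIFF
import Pool.Agent.HSh.CSF
import Pool.Agent.HSh.CT
import Pool.Agent.HSh.PT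
import Pool.Agent.HSh.LB
import Pool.Agent.HSh.KEYE
import Pool.Agent.HSh.SCALE
import Pool.Agent.HSh.EVT
import Pool.Agent.HSh.PRM
import Pool.Agent.HSh.CONX
import Pool.Agent.HSh.FIN
import Pool.Agent.HSh.MAIN

set_option autoImplicit false

namespace Pool.Agent.HSh

theorem t_ORT : T_ORT := p_ORT p_KSUM

theorem t_T1 : T_T1 := p_T1 (p_NRM t_ORT) (p_CRS p_KSUM) p_TRC

theorem t_ANU : T_ANU := p_ANU (p_AN (p_SDE HLow.p_SPEC) (p_ANZ t_T1 p_T2 p_CMM p_TRC))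

theorem t_DAT : T_DAT :=
  p_DAT HLow.p_LEN HLow.p_IMB (HLow.p_ROUND HLow.p_RAD (HLow.p_CLIP HLow.p_RAD))
    (HLow.p_DUAL HLow.p_SPEC)

theorem t_ARC : T_ARC :=
  p_ARC (p_GOOD p_IMBD) p_BIG (p_SHP p_SHORT) (p_SHM p_SHORT)

theorem t_KEYE : T_KEYE := p_KEYE t_ARC p_CT (p_PT t_ANU p_CSF) (p_LB p_DIFF)

theorem t_FIN : T_FIN := p_FIN t_DAT p_LSUM t_KEYE p_SCALE p_EVT p_PRM p_CON

theorem t_MAIN : T_MAIN := p_MAIN t_FIN

end Pool.Agent.HSh
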