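import Pool.Agent.HSh.Targets

set_option autoImplicit false

namespace Pool.Agent.HSh

open Finset Pool.Agent.HLow

/-- the basic inequalities between the parameters -/
lemma PT_par {V : Type} [Fintype V] [DecidableEq V] {a : V → V → ℝ} {pos : V → ℕ}
    {D0 : V → ℝ} {β G m : ℝ} {K i h : ℕ} (hd : Dat a pos D0 G m) (hp : Par β G m K i h) :
    0 < ka β G m ∧ ka β G m ≤ 1 ∧ 1 ≤ ka β G m * dlo β G m ∧
      ka β G m ^ 2 * dhi β G m ≤ 1 := by
  have hb := hp.b0
  have hb1 := hp.b1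
  have hm := hp.m2
  have hG := hd.gpos
  have hm0 : 0 < m := by linarith
  have hbm : 0 < β * m := mul_pos hb hm0
  have hlog : (1 / 2 : ℝ) ≤ Real.log m := by
    have h1 : Real.log 2 ≤ Real.log m := Real.log_le_log (by norm_num) hm
    have h2 := Real.log_two_gt_d9
    linarith
  have hR : 6 * G ≤ R0 G m := by
    unfold R0
    nlinarith
  have hRpos : 0 < R0 G m := by linarith
  have hk0 : 0 < ka β G m := by
    unfold ka
    positivity
  have hk1 : ka β G m ≤ 1 := by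
    refine hp.kd.trans ?_
    unfold de
    rw [div_le_one (by positivity)]
    nlinarith
  refine ⟨hk0, hk1, ?_, ?_⟩
  · have e : ka β G m * dlo β G m = R0 G m / (3 * G) := by
      unfold ka dlo
      field_simp
      ring
    rw [e, le_div_iff₀ (by positivity)]
    linarith
  · have h1 : 384 * G / (β * m) ≤ 12 * ka β G m := by
      unfold ka
      rw [← mul_div_assoc]
      apply div_le_div_of_nonneg_right _ hbm.le
      linarith
    have e : ka β G m ^ 2 * dhi β G m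
        = ka β G m ^ 2 * Real.sqrt (G * m) * (384 * G / (β * m)) := by
      unfold dhi
      ring
    rw [e]
    have h2 : 0 ≤ ka β G m ^ 2 * Real.sqrt (G * m) := by positivity
    have h3 := mul_le_mul_of_nonneg_left h1 h2
    have h4 := hp.kk
    nlinarith

/-- degrees of the underlying graph -/
lemma PT_adj {V : Type} [Fintype V] [DecidableEq V] {a : V → V → ℝ} {pos : V → ℕ}
    (hd : Dg a pos) : Adj (sy a) := hd.adj

lemma PT_deg {V : Type} [Fintype V] [DecidableEq V] {a : V → V → ℝ} {pos : V → ℕ}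
    (hd : Dg a pos) (u : V) : ∑ x, sy a u x = (dn a u : ℝ) := by
  unfold dn
  exact hd.adj.deg u

lemma PT_ep {V : Type} [Fintype V] [DecidableEq V] (a : V → V → ℝ) (pos : V → ℕ)
    (h t : ℕ) (u : V) : |ep a pos h t u| ≤ 1 := by
  unfold ep
  split_ifs <;> simp

/-- `g` is at most twice the degree -/
lemma PT_g {V : Type} [Fintype V] [DecidableEq V] {a : V → V → ℝ} {pos : V → ℕ}
    {D0 : V → ℝ} {G m : ℝ} (hd : Dat a pos D0 G m) (h t : ℕ) (u : V)
    (hu : D0 u ≤ dn a u) : gt a pos D0 h t u ^ 2 ≤ 4 * (dn a u : ℝ) ^ 2 := by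
  have h1 : |∑ x, sy a u x * ep a pos h t x| ≤ (dn a u : ℝ) := by
    rw [← PT_deg hd.dg u]
    refine (abs_sum_le_sum_abs _ _).trans (sum_le_sum fun x _ => ?_)
    rw [abs_mul, abs_of_nonneg (hd.dg.adj.nonneg u x)]
    have := PT_ep a pos h t x
    have h0 := hd.dg.adj.nonneg u x
    nlinarith
  have h2 : |D0 u * ep a pos h t u| ≤ (dn a u : ℝ) := by
    rw [abs_mul, abs_of_nonneg (hd.d0 u)]
    have := PT_ep a pos h t u
    have h0 := hd.d0 u
    nlinarith
  have h3 : |gt a pos D0 h t u| ≤ 2 * (dn a u : ℝ) := by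
    unfold gt
    refine (abs_add_le _ _).trans ?_
    linarith
  have h4 := abs_nonneg (gt a pos D0 h t u)
  have h5 : gt a pos D0 h t u ^ 2 = |gt a pos D0 h t u| ^ 2 := (sq_abs _).symm
  rw [h5]
  nlinarith

/-- mass of the window -/
lemma PT_mass {V : Type} [Fintype V] [DecidableEq V] {a : V → V → ℝ} {pos : V → ℕ}
    {D0 : V → ℝ} {β G m : ℝ} (hd : Dat a pos D0 G m) (h k t : ℕ) :
    ∑ u ∈ Uk a pos D0 β G m h k t, (dn a u : ℝ) ≤ 2 * 2 ^ (h + 2) := by
  have h1 : ∑ u ∈ Uk a pos D0 β G m h k t, dn a u ≤ 2 * 2 ^ (h + 2) := by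
    have h2 := mass (a := a) hd.dg.inj (t - 2 ^ (h + 2)) (t + 2 ^ (h + 2))
    refine le_trans (sum_le_sum_of_subset ?_) (h2.trans ?_)
    · intro u hu
      classical
      unfold Uk at hu
      obtain ⟨_, _, h3, h4⟩ := mem_filter.mp hu
      rw [mem_filter]
      refine ⟨mem_univ _, ?_, h4⟩
      omega
    · omega
  have h2 : ((∑ u ∈ Uk a pos D0 β G m h k t, dn a u : ℕ) : ℝ) ≤ ((2 * 2 ^ (h + 2) : ℕ) : ℝ) := by
    exact_mod_cast h1
  push_cast at h2
  exact h2

/-- the facts about the vertices of `Uk` -/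
lemma PT_mem {V : Type} [Fintype V] [DecidableEq V] {a : V → V → ℝ} {pos : V → ℕ}
    {D0 : V → ℝ} {β G m : ℝ} {h k t : ℕ} {u : V} (hu : u ∈ Uk a pos D0 β G m h k t) :
    D0 u ≤ ka β G m * dn a u ∧ dlo β G m ≤ dn a u ∧ (dn a u : ℝ) ≤ dhi β G m ∧
      (2 : ℝ) ^ k ≤ dn a u := by
  classical
  unfold Uk at hu
  obtain ⟨h1, h2, _⟩ := mem_filter.mp hu
  unfold Gd at h1
  rw [mem_filter] at h1
  refine ⟨h1.2.1, h1.2.2.1, h1.2.2.2.1, ?_⟩
  exact_mod_cast h2

theorem p_PT (h1 : T_ANU) (h2 : T_CSF) : T_PT := by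
  intro V _ _ a pos D0 β G m ν K i h k t hd hp hν
  obtain ⟨hk0, hk1, hkd, hkh⟩ := PT_par hd hp
  set κ := ka β G m with hκ
  set U := Uk a pos D0 β G m h k t with hU
  set c := ct a pos D0 h t with hc
  set L : ℝ := 2 ^ (h + 2) with hL
  set d0 : ℝ := 2 ^ k with hd0
  have hLpos : 0 < L := by positivity
  have hd0pos : 0 < d0 := by positivity
  have hc0 : 0 ≤ c := hd.psd (ep a pos h t)
  have hadj : Adj (sy a) := hd.dg.adj
  have hdn : ∀ u, (1 : ℝ) ≤ dn a u := fun u => by exact_mod_cast hd.iso u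
  have hmass : ∑ u ∈ U, (dn a u : ℝ) ≤ 2 * L := PT_mass hd h k t
  -- the inequality `T_ANU`
  have hlow : ∀ u ∈ U, D0 u ≤ 2 * κ * dn a u - κ * dn a u := by
    intro u hu
    have := (PT_mem hu).1
    linarith
  have hform : ∀ x : V → ℝ, (∀ u, u ∉ U → x u = 0) →
      ∑ u, D0 u * x u ^ 2 + ∑ u, ∑ v, sy a u v * (x u * x v) + ∑ u, κ * dn a u * x u ^ 2
        ≤ ∑ u, (2 * κ * dn a u) * x u ^ 2 + ∑ u, ∑ v, sy a u v * (x u * x v) := by
    intro x hx
    have h3 : ∑ u, D0 u * x u ^ 2 + ∑ u, κ * dn a u * x u ^ 2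
        ≤ ∑ u, (2 * κ * dn a u) * x u ^ 2 := by
      rw [← sum_add_distrib]
      refine sum_le_sum fun u _ => ?_
      by_cases hu : u ∈ U
      · have h4 := hlow u hu
        have h5 := sq_nonneg (x u)
        nlinarith
      · rw [hx u hu]
        simp
    linarith
  have hA := h1 V (sy a) (fun u => 2 * κ * dn a u) (gt a pos D0 h t) c ν U hadj
    (by
      intro u hu
      have h3 := (PT_mem hu).2.1
      have h4 : κ * dlo β G m ≤ κ * dn a u := mul_le_mul_of_nonneg_left h3 hk0.le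
      show 2 ≤ 2 * κ * dn a u
      nlinarith)
    (by
      intro x hx hx0
      have h3 := hform x hx
      have h4 := hd.psd x
      have h5 : 0 < ∑ u, κ * dn a u * x u ^ 2 := by
        obtain ⟨u, hu⟩ := Function.ne_iff.mp hx0
        refine sum_pos' (fun w _ => by positivity) ⟨u, mem_univ u, ?_⟩
        have h6 : 0 < x u ^ 2 := by
          have : x u ≠ 0 := hu
          positivity
        have h7 := hdn u
        positivity
      show 0 < ∑ u, (2 * κ * dn a u) * x u ^ 2 + ∑ u, ∑ v, sy a u v * (x u * x v)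
      linarith)
    hν
    (by
      intro φ hφ
      have h3 := hform φ hφ
      have h4 := h2 V (sy a) D0 hadj.sym hd.psd φ (ep a pos h t)
      have h5 : 0 ≤ ∑ u, κ * dn a u * φ u ^ 2 := sum_nonneg fun w _ => by positivity
      have h6 : ∑ u, D0 u * φ u ^ 2 + ∑ u, ∑ v, sy a u v * (φ u * φ v)
          ≤ ∑ u, (2 * κ * dn a u) * φ u ^ 2 + ∑ u, ∑ v, sy a u v * (φ u * φ v) := by
        linarith
      exact h4.trans (mul_le_mul_of_nonneg_left h6 hc0))
  -- the four sums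
  have hne : ∀ u, (dn a u : ℝ) ≠ 0 := fun u => by
    have := hdn u
    positivity
  have hS1 : ∑ u ∈ U, gt a pos D0 h t u ^ 2 / (2 * κ * dn a u) ≤ 4 * L / κ := by
    have h3 : ∀ u ∈ U, gt a pos D0 h t u ^ 2 / (2 * κ * dn a u) ≤ 2 / κ * dn a u := by
      intro u hu
      have h4 := (PT_mem hu).1
      have h5 := hdn u
      have h6 := PT_g hd h t u (by nlinarith)
      rw [div_le_iff₀ (by positivity)]
      have e : 2 / κ * dn a u * (2 * κ * dn a u) = 4 * (dn a u : ℝ) ^ 2 := by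
        field_simp
        ring
      rw [e]
      exact h6
    refine (sum_le_sum h3).trans ?_
    rw [← mul_sum]
    have h4 : 0 ≤ 2 / κ := by positivity
    have h5 := mul_le_mul_of_nonneg_left hmass h4
    have e : 2 / κ * (2 * L) = 4 * L / κ := by ring
    linarith
  have hS2 : ∑ u ∈ U, 1 / (2 * κ * (dn a u : ℝ)) ≤ L / (κ * d0 ^ 2) := by
    have h3 : ∀ u ∈ U, 1 / (2 * κ * (dn a u : ℝ)) ≤ 1 / (2 * κ * d0 ^ 2) * dn a u := by
      intro u hu
      have h4 := (PT_mem hu).2.2.2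
      have h5 := hdn u
      rw [div_le_iff₀ (by positivity)]
      have e : 1 / (2 * κ * d0 ^ 2) * dn a u * (2 * κ * dn a u) = (dn a u : ℝ) ^ 2 / d0 ^ 2 := by
        field_simp
      rw [e, one_le_div (by positivity)]
      exact pow_le_pow_left₀ hd0pos.le h4 2
    refine (sum_le_sum h3).trans ?_
    rw [← mul_sum]
    have h4 : 0 ≤ 1 / (2 * κ * d0 ^ 2) := by positivity
    have h5 := mul_le_mul_of_nonneg_left hmass h4
    have e : 1 / (2 * κ * d0 ^ 2) * (2 * L) = L / (κ * d0 ^ 2) := by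
      field_simp
    linarith
  have hS3 : ∑ u ∈ U, 1 / (2 * κ * (dn a u : ℝ)) ^ 2 ≤ L / (2 * κ ^ 2 * d0 ^ 3) := by
    have h3 : ∀ u ∈ U, 1 / (2 * κ * (dn a u : ℝ)) ^ 2 ≤ 1 / (4 * κ ^ 2 * d0 ^ 3) * dn a u := by
      intro u hu
      have h4 := (PT_mem hu).2.2.2
      have h5 := hdn u
      rw [div_le_iff₀ (by positivity)]
      have e : 1 / (4 * κ ^ 2 * d0 ^ 3) * dn a u * (2 * κ * dn a u) ^ 2
          = (dn a u : ℝ) ^ 3 / d0 ^ 3 := by
        field_simp
        ring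
      rw [e, one_le_div (by positivity)]
      exact pow_le_pow_left₀ hd0pos.le h4 3
    refine (sum_le_sum h3).trans ?_
    rw [← mul_sum]
    have h4 : 0 ≤ 1 / (4 * κ ^ 2 * d0 ^ 3) := by positivity
    have h5 := mul_le_mul_of_nonneg_left hmass h4
    have e : 1 / (4 * κ ^ 2 * d0 ^ 3) * (2 * L) = L / (2 * κ ^ 2 * d0 ^ 3) := by
      field_simp
      ring
    linarith
  have hS4 : ∑ u ∈ U, ∑ w ∈ U, sy a u w / ((2 * κ * (dn a u : ℝ)) ^ 2 * (2 * κ * dn a w) ^ 2)
      ≤ L / (8 * κ ^ 4 * d0 ^ 4) := by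
    have h3 : ∀ u ∈ U, ∑ w ∈ U, sy a u w / ((2 * κ * (dn a u : ℝ)) ^ 2 * (2 * κ * dn a w) ^ 2)
        ≤ 1 / (16 * κ ^ 4 * d0 ^ 4) * dn a u := by
      intro u hu
      have h4 := (PT_mem hu).2.2.2
      have h5 := hdn u
      have h6 : ∀ w ∈ U, sy a u w / ((2 * κ * (dn a u : ℝ)) ^ 2 * (2 * κ * dn a w) ^ 2)
          ≤ 1 / ((2 * κ * (dn a u : ℝ)) ^ 2 * (2 * κ * d0) ^ 2) * sy a u w := by
        intro w hw
        have h7 := (PT_mem hw).2.2.2
        have h8 := hdn w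
        have h9 := hadj.nonneg u w
        rw [div_eq_mul_inv, mul_comm, ← one_div]
        apply mul_le_mul_of_nonneg_right _ h9
        apply one_div_le_one_div_of_le (by positivity)
        gcongr
      refine (sum_le_sum h6).trans ?_
      rw [← mul_sum]
      have h7 : ∑ w ∈ U, sy a u w ≤ (dn a u : ℝ) := by
        rw [← PT_deg hd.dg u]
        exact sum_le_sum_of_subset_of_nonneg (subset_univ _) (fun w _ _ => hadj.nonneg u w)
      have h8 : 0 ≤ 1 / ((2 * κ * (dn a u : ℝ)) ^ 2 * (2 * κ * d0) ^ 2) := by positivity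
      refine (mul_le_mul_of_nonneg_left h7 h8).trans ?_
      rw [div_mul_eq_mul_div, div_mul_eq_mul_div, one_mul, div_le_div_iff₀ (by positivity)
        (by positivity)]
      have h9 : d0 ^ 2 ≤ (dn a u : ℝ) ^ 2 := pow_le_pow_left₀ hd0pos.le h4 2
      have e1 : (dn a u : ℝ) * (16 * κ ^ 4 * d0 ^ 4)
          = (16 * κ ^ 4 * d0 ^ 2 * dn a u) * d0 ^ 2 := by ring
      have e2 : (dn a u : ℝ) * ((2 * κ * (dn a u : ℝ)) ^ 2 * (2 * κ * d0) ^ 2)
          = (16 * κ ^ 4 * d0 ^ 2 * dn a u) * (dn a u : ℝ) ^ 2 := by ring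
      rw [e1, e2]
      exact mul_le_mul_of_nonneg_left h9 (by positivity)
    refine (sum_le_sum h3).trans ?_
    rw [← mul_sum]
    have h4 : 0 ≤ 1 / (16 * κ ^ 4 * d0 ^ 4) := by positivity
    have h5 := mul_le_mul_of_nonneg_left hmass h4
    have e : 1 / (16 * κ ^ 4 * d0 ^ 4) * (2 * L) = L / (8 * κ ^ 4 * d0 ^ 4) := by
      field_simp
      ring
    linarith
  -- the left side
  have hLt : Lt a pos D0 β G m h k t = 16 * κ ^ 4 * ∑ u ∈ U, ∑ w ∈ U,
      sy a u w / ((2 * κ * (dn a u : ℝ)) ^ 2 * (2 * κ * dn a w) ^ 2)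
        * (gt a pos D0 h t u - gt a pos D0 h t w) ^ 2 := by
    unfold Lt
    rw [← hU, mul_sum]
    refine sum_congr rfl fun u _ => ?_
    rw [mul_sum]
    refine sum_congr rfl fun w _ => ?_
    have h3 := hne u
    have h4 := hne w
    field_simp
    ring
  -- the degree bound
  have hsm : U.Nonempty → κ ^ 2 * d0 ≤ 1 := by
    rintro ⟨u, hu⟩
    have h3 := (PT_mem hu).2.2
    have h4 : d0 ≤ dhi β G m := h3.2.trans h3.1
    exact (mul_le_mul_of_nonneg_left h4 (by positivity)).trans hkh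
  rcases U.eq_empty_or_nonempty with hemp | hnem
  · have h3 : Lt a pos D0 β G m h k t = 0 := by
      rw [hLt, hemp]
      simp
    rw [h3]
    positivity
  · have h3 := hsm hnem
    rw [hLt]
    have h4 : ∑ u ∈ U, ∑ w ∈ U,
      sy a u w / ((2 * κ * (dn a u : ℝ)) ^ 2 * (2 * κ * dn a w) ^ 2)
        * (gt a pos D0 h t u - gt a pos D0 h t w) ^ 2
        ≤ 144 / ν * (4 * L / κ)
          + 8 * c * ν * (L / (8 * κ ^ 4 * d0 ^ 4) + L / (2 * κ ^ 2 * d0 ^ 3))
          + 4 * c * (L / (κ * d0 ^ 2)) := by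
      refine hA.trans ?_
      have h5 : 0 ≤ 144 / ν := by positivity
      have h6 : 0 ≤ 8 * c * ν := by positivity
      have h7 : 0 ≤ 4 * c := by positivity
      have h8 := mul_le_mul_of_nonneg_left hS1 h5
      have h9 := mul_le_mul_of_nonneg_left (add_le_add hS4 hS3) h6
      have h10 := mul_le_mul_of_nonneg_left hS2 h7
      exact add_le_add (add_le_add h8 h9) h10
    have h5 : 0 ≤ 16 * κ ^ 4 := by positivity
    refine (mul_le_mul_of_nonneg_left h4 h5).trans ?_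
    have e1 : 16 * κ ^ 4 * (144 / ν * (4 * L / κ)
          + 8 * c * ν * (L / (8 * κ ^ 4 * d0 ^ 4) + L / (2 * κ ^ 2 * d0 ^ 3))
          + 4 * c * (L / (κ * d0 ^ 2)))
        = 9216 * κ ^ 3 * L / ν + c * (L * (16 * ν / d0 ^ 4 + 64 * ν / d0 ^ 4 * (κ ^ 2 * d0)
          + 64 * κ ^ 3 / d0 ^ 2)) := by
      field_simp
      ring
    rw [e1]
    have h6 : 64 * ν / d0 ^ 4 * (κ ^ 2 * d0) ≤ 64 * ν / d0 ^ 4 := by
      have h7 : 0 ≤ 64 * ν / d0 ^ 4 := by positivity
      calc _ ≤ 64 * ν / d0 ^ 4 * 1 := mul_le_mul_of_nonneg_left h3 h7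
        _ = _ := mul_one _
    have h7 : 16 * ν / d0 ^ 4 + 64 * ν / d0 ^ 4 * (κ ^ 2 * d0) + 64 * κ ^ 3 / d0 ^ 2
        ≤ 80 * ν / d0 ^ 4 + 64 * κ ^ 3 / d0 ^ 2 := by
      have e2 : 80 * ν / d0 ^ 4 = 16 * ν / d0 ^ 4 + 64 * ν / d0 ^ 4 := by ring
      linarith
    have h8 := mul_le_mul_of_nonneg_left (mul_le_mul_of_nonneg_left h7 hLpos.le) hc0
    linarith

end Pool.Agent.HSh
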