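import Mathlib
import Pool.Agent.HSh.Targets

set_option autoImplicit false
set_option linter.unusedSectionVars false

namespace Pool.Agent.HSh

open Finset Pool.Agent.HLow

section

variable {V : Type} [Fintype V] [DecidableEq V]

/-- the first coefficient -/
noncomputable def T1_S (lam : V → ℝ) (g : V → V → ℝ) (i p : V) : ℝ :=
  lam p * (lam i + lam p + 2) / (lam i ^ 2 + lam i + (lam p ^ 2 + lam p)) * g i p

/-- the second coefficient -/
noncomputable def T1_W (lam : V → ℝ) (g : V → V → ℝ) (i p : V) : ℝ :=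
  (lam i + lam p) * (lam i + 1) / (lam i ^ 2 + lam i + (lam p ^ 2 + lam p)) * g i p

noncomputable def T1_P (lam : V → ℝ) (g : V → V → ℝ) (i p : V) : ℝ :=
  lam i * lam p * (lam i + lam p + 2) / (lam i ^ 2 + lam i + (lam p ^ 2 + lam p)) * g i p

/-- symmetrization of a double sum -/
lemma T1_symm (F H : V → V → ℝ) (h : ∀ i p, F i p + F p i = H i p + H p i) :
    ∑ i, ∑ p, F i p = ∑ i, ∑ p, H i p := by
  have h1 : ∑ i, ∑ p, F i p = ∑ i, ∑ p, F p i := sum_comm
  have h2 : ∑ i, ∑ p, H i p = ∑ i, ∑ p, H p i := sum_comm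
  have h3 : ∑ i, ∑ p, (F i p + F p i) = ∑ i, ∑ p, (H i p + H p i) :=
    sum_congr rfl (fun i _ => sum_congr rfl (fun p _ => h i p))
  have h4 : ∀ X : V → V → ℝ, ∑ i, ∑ p, (X i p + X p i) = ∑ i, ∑ p, X i p + ∑ i, ∑ p, X p i := by
    intro X
    rw [← sum_add_distrib]
    exact sum_congr rfl (fun i _ => sum_add_distrib)
  rw [h4 F, h4 H] at h3
  linarith

/-- symmetrization, inequality -/
lemma T1_symm_le (F H : V → V → ℝ) (h : ∀ i p, F i p + F p i ≤ H i p + H p i) :
    ∑ i, ∑ p, F i p ≤ ∑ i, ∑ p, H i p := by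
  have h1 : ∑ i, ∑ p, F i p = ∑ i, ∑ p, F p i := sum_comm
  have h2 : ∑ i, ∑ p, H i p = ∑ i, ∑ p, H p i := sum_comm
  have h3 : ∑ i, ∑ p, (F i p + F p i) ≤ ∑ i, ∑ p, (H i p + H p i) :=
    sum_le_sum (fun i _ => sum_le_sum (fun p _ => h i p))
  have h4 : ∀ X : V → V → ℝ, ∑ i, ∑ p, (X i p + X p i) = ∑ i, ∑ p, X i p + ∑ i, ∑ p, X p i := by
    intro X
    rw [← sum_add_distrib]
    exact sum_congr rfl (fun i _ => sum_add_distrib)
  rw [h4 F, h4 H] at h3
  linarith

/-- weighted norm square of a tensor -/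
noncomputable def T1_n (lam : V → ℝ) (X : V → V → V → ℝ) : ℝ :=
  ∑ i, ∑ j, ∑ k, lam i * lam j * lam k * X i j k ^ 2

lemma T1_n_le (lam : V → ℝ) (h0 : ∀ i, 0 < lam i) (X Y Z : V → V → V → ℝ) (c d : ℝ)
    (h : ∀ i j k, X i j k ^ 2 ≤ c * Y i j k ^ 2 + d * Z i j k ^ 2) :
    T1_n lam X ≤ c * T1_n lam Y + d * T1_n lam Z := by
  unfold T1_n
  rw [mul_sum, mul_sum, ← sum_add_distrib]
  apply sum_le_sum; intro i _
  rw [mul_sum, mul_sum, ← sum_add_distrib]
  apply sum_le_sum; intro j _
  rw [mul_sum, mul_sum, ← sum_add_distrib]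
  apply sum_le_sum; intro k _
  have h1 := h i j k
  have h2 : 0 < lam i * lam j * lam k := mul_pos (mul_pos (h0 i) (h0 j)) (h0 k)
  nlinarith

/-- renaming `j ↔ k` -/
lemma T1_n_swap (lam : V → ℝ) (X Y : V → V → V → ℝ) (h : ∀ i j k, X i j k = Y i k j) :
    T1_n lam X = T1_n lam Y := by
  unfold T1_n
  apply sum_congr rfl; intro i _
  rw [sum_comm]
  apply sum_congr rfl; intro j _
  apply sum_congr rfl; intro k _
  rw [h]; ring

/-- renaming `i ↔ j` -/
lemma T1_n_swap' (lam : V → ℝ) (X Y : V → V → V → ℝ) (h : ∀ i j k, X i j k = Y j i k) :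
    T1_n lam X = T1_n lam Y := by
  unfold T1_n
  rw [sum_comm]
  apply sum_congr rfl; intro i _
  apply sum_congr rfl; intro j _
  apply sum_congr rfl; intro k _
  rw [h]; ring

end

theorem p_T1 (h1 : T_NRM) (h2 : T_CRS) (h3 : T_TRC) : T_T1 := by
  intro V _ _ A D s lam v hS g
  set t := tt s v with ht
  have hpos := hS.pos
  have tsw : ∀ i j k, t i j k = t j i k := fun i j k => tt_swap s v i j k
  have tsw' : ∀ i j k, t i j k = t i k j := fun i j k => tt_swap' s v i j k
  set gg := gm v g with hgg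
  have gsym : ∀ i j, gg i j = gg j i := fun i j => gm_symm v g i j
  set S := T1_S lam gg with hSd
  set W := T1_W lam gg with hWd
  set P := T1_P lam gg with hPd
  have hr : ∀ i p, 0 < lam i ^ 2 + lam i + (lam p ^ 2 + lam p) := by
    intro i p
    have := hpos i; have := hpos p; positivity
  -- tensors
  set X1 : V → V → V → ℝ := fun i j k => ∑ p, S i p * t p j k with hX1
  set X2 : V → V → V → ℝ := fun i j k => ∑ p, S j p * t i p k with hX2
  set X3 : V → V → V → ℝ := fun i j k => ∑ p, S k p * t i j p with hX3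
  set B : V → V → V → ℝ := fun i j k => ∑ p, W i p * t p j k with hB
  -- norms
  have nX1 : T1_n lam X1 = ∑ i, ∑ p, lam i * (lam p + 1) * S i p ^ 2 := h1 V A D s lam v hS S
  have nB : T1_n lam B = ∑ i, ∑ p, lam i * (lam p + 1) * W i p ^ 2 := h1 V A D s lam v hS W
  have nX2 : T1_n lam X2 = T1_n lam X1 := by
    apply T1_n_swap'
    intro i j k
    simp only [hX1, hX2]
    exact sum_congr rfl (fun p _ => by rw [tsw i p k])
  -- scalar product
  have hPS : ∀ j p, lam j * S j p = P j p := by
    intro j p; simp only [hSd, hPd, T1_S, T1_P]; ring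
  have hPsym : ∀ j p, P j p = P p j := by
    intro j p
    simp only [hPd, T1_P]
    rw [gsym j p]
    have e : lam j ^ 2 + lam j + (lam p ^ 2 + lam p) = lam p ^ 2 + lam p + (lam j ^ 2 + lam j) := by
      ring
    rw [e]; ring
  have hW : ∀ i q, lam i * W i q + lam q * W q i = (lam i + lam q) * gm v g i q := by
    intro i q
    simp only [hWd, T1_W]
    rw [gsym q i]
    have e : lam q ^ 2 + lam q + (lam i ^ 2 + lam i) = lam i ^ 2 + lam i + (lam q ^ 2 + lam q) := by
      ring
    rw [e]
    have h0 := hr i q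
    have e2 : lam i * ((lam i + lam q) * (lam i + 1) / (lam i ^ 2 + lam i + (lam q ^ 2 + lam q))
          * gg i q)
        + lam q * ((lam q + lam i) * (lam q + 1) / (lam i ^ 2 + lam i + (lam q ^ 2 + lam q))
          * gg i q)
        = (lam i + lam q) * (lam i ^ 2 + lam i + (lam q ^ 2 + lam q))
          / (lam i ^ 2 + lam i + (lam q ^ 2 + lam q)) * gg i q := by ring
    rw [e2, mul_div_assoc, div_self h0.ne', mul_one]
  have hcr := h2 V A D s lam v hS g S W P hPS hPsym hW
  -- e2
  have he2 : T1_n lam (fun i j k => X2 i j k - B i j k)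
      = T1_n lam X2 + T1_n lam B - 2 * ∑ i, ∑ j, P i j * ((lam i + lam j) / 2 + 1) * gm v g i j := by
    rw [← hcr]
    unfold T1_n
    rw [mul_sum, ← sum_add_distrib, ← sum_sub_distrib]
    apply sum_congr rfl; intro i _
    rw [mul_sum, ← sum_add_distrib, ← sum_sub_distrib]
    apply sum_congr rfl; intro j _
    rw [mul_sum, ← sum_add_distrib, ← sum_sub_distrib]
    apply sum_congr rfl; intro k _
    simp only [hX2, hB, ht]
    ring
  have he2' : T1_n lam (fun i j k => X2 i j k - B i j k)
      ≤ ∑ i, ∑ j, gm v g i j ^ 2 * (lam i + lam j) := by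
    rw [he2, nX2, nX1, nB, mul_sum, ← sum_add_distrib, ← sum_sub_distrib]
    have e1 : ∀ i, ∑ p, lam i * (lam p + 1) * S i p ^ 2 + ∑ p, lam i * (lam p + 1) * W i p ^ 2
        - 2 * ∑ j, P i j * ((lam i + lam j) / 2 + 1) * gm v g i j
        = ∑ p, (lam i * (lam p + 1) * S i p ^ 2 + lam i * (lam p + 1) * W i p ^ 2
          - 2 * (P i p * ((lam i + lam p) / 2 + 1) * gm v g i p)) := by
      intro i
      rw [mul_sum, ← sum_add_distrib, ← sum_sub_distrib]
    rw [sum_congr rfl (fun i _ => e1 i)]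
    apply T1_symm_le
    intro i p
    have h0 := hr i p
    have hi := hpos i
    have hp := hpos p
    have hg : gm v g i p = gg i p := rfl
    have hg' : gm v g p i = gg i p := gsym p i
    rw [hg, hg']
    simp only [hSd, hWd, hPd, T1_S, T1_W, T1_P]
    rw [gsym p i]
    have e : lam p ^ 2 + lam p + (lam i ^ 2 + lam i) = lam i ^ 2 + lam i + (lam p ^ 2 + lam p) := by
      ring
    rw [e]
    set a := lam i with ha
    set b := lam p with hb
    set r := a ^ 2 + a + (b ^ 2 + b) with hrd
    set y := gg i p with hy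
    have key : (a * (b + 1) * (b * (a + b + 2) / r * y) ^ 2
          + a * (b + 1) * ((a + b) * (a + 1) / r * y) ^ 2
          - 2 * (a * b * (a + b + 2) / r * y * ((a + b) / 2 + 1) * y))
        + (b * (a + 1) * (a * (b + a + 2) / r * y) ^ 2
          + b * (a + 1) * ((b + a) * (b + 1) / r * y) ^ 2
          - 2 * (b * a * (b + a + 2) / r * y * ((b + a) / 2 + 1) * y))
        = y ^ 2 * ((a - b) ^ 2 * (a + b + 1)) / r := by
      field_simp
      rw [hrd]
      ring
    rw [key]
    have h5 : (a - b) ^ 2 * (a + b + 1) ≤ (2 * (a + b)) * r := by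
      rw [hrd]
      have : 0 < a * b := mul_pos hi hp
      nlinarith [mul_pos this (add_pos hi hp), sq_nonneg (a - b), mul_pos hi hp,
        mul_pos (add_pos hi hp) (add_pos hi hp), mul_nonneg (add_pos hi hp).le (sq_nonneg (a - b))]
    rw [div_le_iff₀ h0]
    have h6 : 0 ≤ y ^ 2 := sq_nonneg y
    nlinarith [mul_le_mul_of_nonneg_left h5 h6]
  -- e2 ≤ 2 ∑ g² N
  have htr := (h3 V A D s lam v hS).2.2 g
  rw [htr] at he2'
  -- renaming
  have hswB : T1_n lam (fun i j k => B i j k - X3 i j k)
      = T1_n lam (fun i j k => X2 i j k - B i j k) := by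
    have e1 : T1_n lam (fun i j k => B i j k - X3 i j k)
        = T1_n lam (fun i j k => B i j k - X2 i j k) := by
      apply T1_n_swap
      intro i j k
      simp only [hB, hX3, hX2]
      congr 1
      · exact sum_congr rfl (fun p _ => by rw [tsw' p j k])
      · exact sum_congr rfl (fun p _ => by rw [tsw' i j p])
    rw [e1]
    unfold T1_n
    exact sum_congr rfl (fun i _ => sum_congr rfl (fun j _ => sum_congr rfl (fun k _ => by ring)))
  have hcyc : T1_n lam (fun i j k => X1 i j k - X2 i j k)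
      = T1_n lam (fun i j k => X2 i j k - X3 i j k) := by
    -- first exchange i ↔ j, then j ↔ k
    have e1 : T1_n lam (fun i j k => X2 i j k - X3 i j k)
        = T1_n lam (fun i j k => X1 i j k - X3 i j k) := by
      apply T1_n_swap'
      intro i j k
      simp only [hX1, hX3, hX2]
      congr 1
      · exact sum_congr rfl (fun p _ => by rw [tsw i p k])
      · exact sum_congr rfl (fun p _ => by rw [tsw i j p])
    have e2 : T1_n lam (fun i j k => X1 i j k - X3 i j k)
        = T1_n lam (fun i j k => X1 i j k - X2 i j k) := by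
      apply T1_n_swap
      intro i j k
      simp only [hX1, hX3, hX2]
      congr 1
      · exact sum_congr rfl (fun p _ => by rw [tsw' p j k])
      · exact sum_congr rfl (fun p _ => by rw [tsw' i j p])
    rw [e1, e2]
  have h23 : T1_n lam (fun i j k => X2 i j k - X3 i j k)
      ≤ 2 * T1_n lam (fun i j k => X2 i j k - B i j k)
        + 2 * T1_n lam (fun i j k => B i j k - X3 i j k) := by
    apply T1_n_le lam hpos
    intro i j k
    nlinarith [sq_nonneg ((X2 i j k - B i j k) - (B i j k - X3 i j k))]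
  have h1B : T1_n lam (fun i j k => X1 i j k - B i j k)
      ≤ 3 / 2 * T1_n lam (fun i j k => X1 i j k - X2 i j k)
        + 3 * T1_n lam (fun i j k => X2 i j k - B i j k) := by
    apply T1_n_le lam hpos
    intro i j k
    nlinarith [sq_nonneg ((X1 i j k - X2 i j k) - 2 * (X2 i j k - B i j k))]
  have h9 : T1_n lam (fun i j k => X1 i j k - B i j k)
      ≤ 9 * T1_n lam (fun i j k => X2 i j k - B i j k) := by
    rw [hcyc] at h1B
    rw [hswB] at h23
    linarith
  -- exact value of the left side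
  have hL : T1_n lam (fun i j k => X1 i j k - B i j k)
      = ∑ i, ∑ p, lam i * (lam p + 1) * (S i p - W i p) ^ 2 := by
    have e1 := h1 V A D s lam v hS (fun i p => S i p - W i p)
    rw [← e1]
    unfold T1_n
    apply sum_congr rfl; intro i _
    apply sum_congr rfl; intro j _
    apply sum_congr rfl; intro k _
    simp only [hX1, hB]
    rw [← sum_sub_distrib]
    congr 2
    exact sum_congr rfl (fun p _ => by ring)
  have hlow : ∑ i, ∑ j, gm v g i j ^ 2
      * ((lam i - lam j) ^ 2 * (lam i * lam j) / (lam i + lam j) ^ 2)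
      ≤ T1_n lam (fun i j k => X1 i j k - B i j k) := by
    rw [hL]
    apply T1_symm_le
    intro i p
    have h0 := hr i p
    have hi := hpos i
    have hp := hpos p
    have hg : gm v g i p = gg i p := rfl
    have hg' : gm v g p i = gg i p := gsym p i
    rw [hg, hg']
    simp only [hSd, hWd, T1_S, T1_W]
    rw [gsym p i]
    have e : lam p ^ 2 + lam p + (lam i ^ 2 + lam i) = lam i ^ 2 + lam i + (lam p ^ 2 + lam p) := by
      ring
    rw [e]
    set a := lam i with ha
    set b := lam p with hb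
    set r := a ^ 2 + a + (b ^ 2 + b) with hrd
    set y := gg i p with hy
    have hab : 0 < a + b := add_pos hi hp
    have key : a * (b + 1) * (b * (a + b + 2) / r * y - (a + b) * (a + 1) / r * y) ^ 2
        + b * (a + 1) * (a * (b + a + 2) / r * y - (b + a) * (b + 1) / r * y) ^ 2
        = y ^ 2 * ((a - b) ^ 2 * (a + b + 1) ^ 2 * (2 * (a * b) + (a + b))) / r ^ 2 := by
      have e1 : b * (a + b + 2) / r * y - (a + b) * (a + 1) / r * y = (b - a) * (a + b + 1) / r * y := by
        ring
      have e2 : a * (b + a + 2) / r * y - (b + a) * (b + 1) / r * y = (a - b) * (a + b + 1) / r * y := by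
        ring
      rw [e1, e2]
      field_simp
      ring
    rw [key]
    have h5 : r ≤ (a + b) * (a + b + 1) := by
      rw [hrd]; nlinarith [mul_pos hi hp]
    have h6 : r ^ 2 ≤ ((a + b) * (a + b + 1)) ^ 2 := pow_le_pow_left₀ h0.le h5 2
    have h7 : y ^ 2 * ((a - b) ^ 2 * (a * b) / (a + b) ^ 2)
        + y ^ 2 * ((b - a) ^ 2 * (b * a) / (b + a) ^ 2)
        = y ^ 2 * (2 * ((a - b) ^ 2 * (a * b))) / (a + b) ^ 2 := by
      rw [add_comm b a]; ring
    rw [h7, div_le_div_iff₀ (by positivity) (by positivity)]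
    have h8 : 0 ≤ y ^ 2 * ((a - b) ^ 2) := by positivity
    have h10 : 2 * (a * b) * r ^ 2 ≤ ((a + b + 1) ^ 2 * (2 * (a * b) + (a + b))) * (a + b) ^ 2 := by
      have h11 : 2 * (a * b) * r ^ 2 ≤ 2 * (a * b) * ((a + b) * (a + b + 1)) ^ 2 :=
        mul_le_mul_of_nonneg_left h6 (by positivity)
      have h12 : 0 ≤ (a + b + 1) ^ 2 * (a + b) * (a + b) ^ 2 := by positivity
      nlinarith
    nlinarith [mul_le_mul_of_nonneg_left h10 h8]
  linarith

end Pool.Agent.HSh
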